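import Mathlib

/-!
# Congruence subgroups have no torsion
-/

set_option autoImplicit false
set_option linter.unusedSectionVars false

namespace Pool.Agent.Y95.MT

open Matrix

variable {ℓ : ℕ} [Fact ℓ.Prime] {ι : Type} [Fintype ι] [DecidableEq ι]

/-- `(1 + a) ^ m = 1 + m a + a ^ 2 R` -/
theorem one_add_pow_eq {R : Type} [Ring R] (a : R) (m : ℕ) :
    ∃ b : R, (1 + a) ^ m = 1 + (m : R) * a + a * a * b := by
  induction m with
  | zero => exact ⟨0, by simp⟩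
  | succ m ih =>
    obtain ⟨b, hb⟩ := ih
    refine ⟨b + (m : R) + b * a, ?_⟩
    rw [pow_succ, hb]
    have h1 : (m : R) * a * a = a * a * (m : R) := by
      rw [mul_assoc]
      exact (Nat.cast_commute m (a * a)).eq
    push_cast
    simp only [add_mul, mul_add, one_mul, mul_one, h1, ← mul_assoc]
    abel

theorem norm_sum_mul_le {x y : ι → ℤ_[ℓ]} {A B : ℝ} (hA : ∀ i, ‖x i‖ ≤ A) (hB : ∀ i, ‖y i‖ ≤ B)
    (hA0 : 0 ≤ A) (hB0 : 0 ≤ B) : ‖∑ i, x i * y i‖ ≤ A * B := by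
  refine IsUltrametricDist.norm_sum_le_of_forall_le_of_nonneg (mul_nonneg hA0 hB0) fun i _ => ?_
  rw [norm_mul]
  exact mul_le_mul (hA i) (hB i) (norm_nonneg _) hA0

theorem tf_prime {g : Matrix ι ι ℤ_[ℓ]} (h : ∀ i j, ‖(g - 1) i j‖ ≤ (ℓ : ℝ) ^ (-2 : ℤ)) {p : ℕ}
    (hp : p.Prime) (hg : g ^ p = 1) : g = 1 := by
  by_contra hne
  obtain ⟨a, ha⟩ : ∃ a, a = g - 1 := ⟨_, rfl⟩
  rw [← ha] at h
  have hga : g = 1 + a := by rw [ha]; abel
  have ha0 : a ≠ 0 := by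
    intro h0
    apply hne
    rw [hga, h0, add_zero]
  obtain ⟨b, hb⟩ := one_add_pow_eq a p
  rw [← hga, hg] at hb
  have hb' : (p : Matrix ι ι ℤ_[ℓ]) * a = -(a * a * b) := by
    have h1 : (p : Matrix ι ι ℤ_[ℓ]) * a + a * a * b = 0 := by
      have h2 : (1 : Matrix ι ι ℤ_[ℓ]) + ((p : Matrix ι ι ℤ_[ℓ]) * a + a * a * b) = 1 + 0 := by
        rw [add_zero, ← add_assoc]
        exact hb.symm
      exact add_left_cancel h2
    exact eq_neg_of_add_eq_zero_left h1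
  -- an entry with maximal norm
  have hne' : Nonempty (ι × ι) := by
    by_contra hemp
    rw [not_nonempty_iff] at hemp
    apply ha0
    ext i j
    exact (hemp.false (i, j)).elim
  obtain ⟨⟨i0, j0⟩, hmax⟩ := Finite.exists_max (fun q : ι × ι => ‖a q.1 q.2‖)
  set M : ℝ := ‖a i0 j0‖ with hM
  have hM0 : 0 < M := by
    rw [hM, norm_pos_iff]
    intro h0
    apply ha0
    ext i j
    have h1 : ‖a i j‖ ≤ ‖a i0 j0‖ := hmax (i, j)
    rw [h0, norm_zero] at h1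
    exact norm_le_zero_iff.1 h1
  have hent := congrFun (congrFun hb' i0) j0
  have hl : ((p : Matrix ι ι ℤ_[ℓ]) * a) i0 j0 = (p : ℤ_[ℓ]) * a i0 j0 := by
    rw [← nsmul_eq_mul, Matrix.smul_apply, nsmul_eq_mul]
  rw [hl, Matrix.neg_apply] at hent
  have h1 : ‖(a * a * b) i0 j0‖ ≤ M * M := by
    rw [Matrix.mul_apply]
    have h2 : ∀ i, ‖(a * a) i0 i‖ ≤ M * M := by
      intro i
      rw [Matrix.mul_apply]
      exact norm_sum_mul_le (fun k => hmax (i0, k)) (fun k => hmax (k, i)) hM0.le hM0.le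
    have h3 := norm_sum_mul_le (B := 1) h2 (fun k => PadicInt.norm_le_one (b k j0))
      (mul_nonneg hM0.le hM0.le) zero_le_one
    rwa [mul_one] at h3
  have h2 : ‖(p : ℤ_[ℓ])‖ * M ≤ M * M := by
    have h3 : ‖(p : ℤ_[ℓ]) * a i0 j0‖ ≤ M * M := by
      rw [hent, norm_neg]
      exact h1
    rwa [norm_mul] at h3
  have h3 : ‖(p : ℤ_[ℓ])‖ ≤ M := le_of_mul_le_mul_right h2 hM0
  have hl1 : (1 : ℝ) < ℓ := by exact_mod_cast (Fact.out : ℓ.Prime).one_lt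
  have h4 : (ℓ : ℝ) ^ (-1 : ℤ) ≤ ‖(p : ℤ_[ℓ])‖ := by
    by_cases hpl : ℓ = p
    · subst hpl
      rw [PadicInt.norm_p, _root_.zpow_neg_one]
    · have h5 : ‖(p : ℤ_[ℓ])‖ = 1 := by
        rw [PadicInt.norm_natCast_eq_one_iff]
        exact (Nat.coprime_primes (Fact.out : ℓ.Prime) hp).2 hpl
      rw [h5, _root_.zpow_neg_one]
      exact inv_le_one_of_one_le₀ hl1.le
  have h5 := h4.trans (h3.trans (h i0 j0))
  have h6 : (ℓ : ℝ) ^ (-2 : ℤ) < (ℓ : ℝ) ^ (-1 : ℤ) := zpow_lt_zpow_right₀ hl1 (by norm_num)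
  exact absurd h5 (not_le.2 h6)

theorem pow_cong {g : Matrix ι ι ℤ_[ℓ]} (h : ∀ i j, ‖(g - 1) i j‖ ≤ (ℓ : ℝ) ^ (-2 : ℤ)) (m : ℕ) :
    ∀ i j, ‖(g ^ m - 1) i j‖ ≤ (ℓ : ℝ) ^ (-2 : ℤ) := by
  have hl0 : (0 : ℝ) ≤ (ℓ : ℝ) ^ (-2 : ℤ) := zpow_nonneg (Nat.cast_nonneg _) _
  induction m with
  | zero =>
    intro i j
    rw [pow_zero, sub_self, Matrix.zero_apply, norm_zero]
    exact hl0
  | succ m ih =>
    intro i j
    have h1 : g ^ (m + 1) - 1 = (g ^ m - 1) * g + (g - 1) := by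
      rw [pow_succ, sub_mul, one_mul]
      abel
    rw [h1, Matrix.add_apply]
    refine (IsUltrametricDist.norm_add_le_max _ _).trans (max_le ?_ (h i j))
    rw [Matrix.mul_apply]
    have h2 := norm_sum_mul_le (x := fun k => (g ^ m - 1) i k) (y := fun k => g k j)
      (fun k => ih i k) (fun k => PadicInt.norm_le_one _) hl0 zero_le_one
    rwa [mul_one] at h2

theorem tf {g : Matrix ι ι ℤ_[ℓ]} (h : ∀ i j, ‖(g - 1) i j‖ ≤ (ℓ : ℝ) ^ (-2 : ℤ)) {m : ℕ}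
    (hm : 0 < m) (hg : g ^ m = 1) : g = 1 := by
  induction m using Nat.recOnMul generalizing g with
  | zero => exact absurd hm (lt_irrefl 0)
  | one => rwa [pow_one] at hg
  | prime p hp => exact tf_prime h hp hg
  | mul a b ha hb =>
    have ha0 : 0 < a := Nat.pos_of_mul_pos_right hm
    have hb0 : 0 < b := Nat.pos_of_mul_pos_left hm
    rw [pow_mul] at hg
    exact ha h ha0 (hb (pow_cong h a) hb0 hg)

/-- the congruence subgroup -/
noncomputable def cong {Γ : Type} [Group Γ] (β : Γ →* Matrix ι ι ℤ_[ℓ]) : Subgroup Γ :=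
  (((PadicInt.toZModPow (p := ℓ) 2).mapMatrix (m := ι)).toMonoidHom.comp β).toHomUnits.ker

theorem cong_finite {Γ : Type} [Group Γ] (β : Γ →* Matrix ι ι ℤ_[ℓ]) :
    (cong β).FiniteIndex := by
  have : NeZero (ℓ ^ 2) := ⟨pow_ne_zero 2 (Fact.out : ℓ.Prime).ne_zero⟩
  unfold cong
  infer_instance

theorem cong_normal {Γ : Type} [Group Γ] (β : Γ →* Matrix ι ι ℤ_[ℓ]) : (cong β).Normal := by
  unfold cong
  infer_instance

theorem mem_cong {Γ : Type} [Group Γ] {β : Γ →* Matrix ι ι ℤ_[ℓ]} {s : Γ} (hs : s ∈ cong β) :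
    ∀ i j, ‖(β s - 1) i j‖ ≤ (ℓ : ℝ) ^ (-2 : ℤ) := by
  intro i j
  unfold cong at hs
  rw [MonoidHom.mem_ker, Units.ext_iff, MonoidHom.coe_toHomUnits] at hs
  have h1 : (PadicInt.toZModPow (p := ℓ) 2).mapMatrix (β s) = 1 := hs
  have h2 := congrFun (congrFun h1 i) j
  rw [RingHom.mapMatrix_apply, Matrix.map_apply] at h2
  have h3 : PadicInt.toZModPow (p := ℓ) 2 ((β s - 1) i j) = 0 := by
    rw [Matrix.sub_apply, map_sub, h2, Matrix.one_apply, Matrix.one_apply]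
    split_ifs <;> simp
  have h4 : (β s - 1) i j ∈ RingHom.ker (PadicInt.toZModPow (p := ℓ) 2) := h3
  rw [PadicInt.ker_toZModPow, Ideal.mem_span_singleton] at h4
  have h5 := (PadicInt.norm_le_pow_iff_mem_span_pow ((β s - 1) i j) 2).2
    (Ideal.mem_span_singleton.2 h4)
  exact_mod_cast h5

end Pool.Agent.Y95.MT
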