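import Mathlib
import Pool.Agent.W528.ZC.Lie
import Pool.Agent.W240.ZC.CJ
import Pool.Agent.W347.ZC.BR

/-!
# One-parameter multiplicative groups of matrices and derivations
-/

set_option autoImplicit false
set_option linter.unusedSectionVars false

namespace Pool.Agent.Y95.MT

open MvPolynomial Pool.Agent.W528.ZC

noncomputable section

variable {K : Type} [Field K] {ι : Type} [Fintype ι] [DecidableEq ι]

/-- Coefficients of a Laurent polynomial with infinitely many zeros vanish. -/
theorem laurent_zero (F : Finset ℤ) (b : ℤ → K)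
    (h : {c : K | c ≠ 0 ∧ ∑ k ∈ F, c ^ k * b k = 0}.Infinite) : ∀ k ∈ F, b k = 0 := by
  classical
  obtain ⟨N, hN⟩ : ∃ N : ℕ, ∀ k ∈ F, 0 ≤ k + N := by
    refine ⟨∑ k ∈ F, k.natAbs, fun k hk => ?_⟩
    have h1 : k.natAbs ≤ ∑ k ∈ F, k.natAbs :=
      Finset.single_le_sum (f := fun k : ℤ => k.natAbs) (fun _ _ => Nat.zero_le _) hk
    omega
  set P : Polynomial K := ∑ k ∈ F, Polynomial.monomial (k + N).toNat (b k) with hP
  have hev : ∀ c : K, c ≠ 0 → Polynomial.eval c P = c ^ N * ∑ k ∈ F, c ^ k * b k := by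
    intro c hc
    rw [hP, Polynomial.eval_finsetSum, Finset.mul_sum]
    refine Finset.sum_congr rfl fun k hk => ?_
    rw [Polynomial.eval_monomial]
    have h1 : c ^ (k + N).toNat = c ^ N * c ^ k := by
      have h2 : c ^ ((k + N).toNat : ℤ) = c ^ (N : ℤ) * c ^ k := by
        rw [Int.toNat_of_nonneg (hN k hk), add_comm, zpow_add₀ hc]
      rw [zpow_natCast, zpow_natCast] at h2
      exact h2
    rw [h1]
    ring
  have hP0 : P = 0 := by
    refine Polynomial.eq_zero_of_infinite_isRoot P (h.mono ?_)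
    rintro c ⟨hc, hc0⟩
    show Polynomial.eval c P = 0
    rw [hev c hc, hc0, mul_zero]
  intro k hk
  have h1 : P.coeff (k + N).toNat = b k := by
    rw [hP, Polynomial.finsetSum_coeff]
    rw [Finset.sum_eq_single k]
    · rw [Polynomial.coeff_monomial, if_pos rfl]
    · intro j hj hjk
      rw [Polynomial.coeff_monomial, if_neg]
      intro h2
      apply hjk
      have h3 := hN k hk
      have h4 := hN j hj
      omega
    · intro h2
      exact absurd hk h2
  rw [← h1, hP0, Polynomial.coeff_zero]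

/-- entries of `X b` -/
def lin (b : Matrix ι ι K) (q : ι × ι) : MvPolynomial (ι × ι) K :=
  ∑ j, C (b j q.2) * X (q.1, j)

theorem lin_lin (a b : Matrix ι ι K) (q : ι × ι) :
    ∑ j, C (b j q.2) * lin a (q.1, j) = lin (a * b) q := by
  unfold lin
  simp only [Matrix.mul_apply, map_sum, Finset.sum_mul, Finset.mul_sum]
  rw [Finset.sum_comm]
  refine Finset.sum_congr rfl fun i _ => Finset.sum_congr rfl fun j _ => ?_
  rw [C_mul]; ring

theorem lin_one (q : ι × ι) : lin (1 : Matrix ι ι K) q = X q := by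
  unfold lin
  rw [Finset.sum_eq_single q.2]
  · simp
  · intro j _ hj
    rw [Matrix.one_apply_ne hj]; simp
  · intro h; exact absurd (Finset.mem_univ _) h

theorem lin_zero (q : ι × ι) : lin (0 : Matrix ι ι K) q = 0 := by
  simp [lin]

theorem lin_add (a b : Matrix ι ι K) (q : ι × ι) : lin (a + b) q = lin a q + lin b q := by
  simp [lin, add_mul, Finset.sum_add_distrib]

theorem lin_smul (c : K) (b : Matrix ι ι K) (q : ι × ι) : lin (c • b) q = c • lin b q := by
  simp [lin, Finset.smul_sum, smul_eq_C_mul, mul_assoc]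

theorem lin_sum {τ : Type} (F : Finset τ) (b : τ → Matrix ι ι K) (q : ι × ι) :
    lin (∑ k ∈ F, b k) q = ∑ k ∈ F, lin (b k) q := by
  classical
  induction F using Finset.induction_on with
  | empty => simp [lin_zero]
  | insert a F ha ih => rw [Finset.sum_insert ha, Finset.sum_insert ha, lin_add, ih]

theorem sub_X' (b : Matrix ι ι K) (q : ι × ι) : sub 1 b (X q) = lin b q := by
  unfold sub lin
  rw [aeval_X]
  have h : ∀ i ∈ (Finset.univ : Finset ι), i ≠ q.1 →
      (∑ j, C ((1 : Matrix ι ι K) q.1 i * b j q.2) * X (i, j) : MvPolynomial (ι × ι) K) = 0 := by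
    intro i _ hi
    refine Finset.sum_eq_zero fun j _ => ?_
    rw [Matrix.one_apply_ne (Ne.symm hi)]; simp
  rw [Finset.sum_eq_single q.1 h (fun h => absurd (Finset.mem_univ _) h)]
  refine Finset.sum_congr rfl fun j _ => ?_
  simp

theorem sub_lin (a b : Matrix ι ι K) (q : ι × ι) : sub 1 a (lin b q) = lin (a * b) q := by
  rw [← lin_lin]
  unfold lin
  rw [map_sum]
  refine Finset.sum_congr rfl fun j _ => ?_
  rw [map_mul, sub_X']
  have h := (sub 1 a).commutes (b j q.2)
  rw [MvPolynomial.algebraMap_eq] at h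
  rw [h]
  rfl

theorem D_X' (y : Matrix ι ι K) (q : ι × ι) : D y (X q) = lin y q := by
  unfold D
  rw [mkDerivation_X]
  rfl

theorem D_C' (y : Matrix ι ι K) (a : K) : D y (C a) = 0 := by
  have h := (D y).map_algebraMap a
  rwa [MvPolynomial.algebraMap_eq] at h

theorem D_lin (y b : Matrix ι ι K) (q : ι × ι) : D y (lin b q) = lin (y * b) q := by
  rw [← lin_lin]
  unfold lin
  rw [map_sum]
  refine Finset.sum_congr rfl fun j _ => ?_
  rw [← smul_eq_C_mul, Derivation.map_smul, D_X', smul_eq_C_mul]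
  rfl

/-- A grading of the matrix algebra: orthogonal idempotents `E k`, `k ∈ F`, with sum `1`. -/
structure Gr (F : Finset ℤ) (E : ℤ → Matrix ι ι K) : Prop where
  mul : ∀ a ∈ F, ∀ b ∈ F, E a * E b = if a = b then E a else 0
  sum : ∑ k ∈ F, E k = 1

/-- the one-parameter group `c ↦ ∑ c ^ k E k` -/
def pw (F : Finset ℤ) (E : ℤ → Matrix ι ι K) (c : K) : Matrix ι ι K := ∑ k ∈ F, c ^ k • E k

/-- its derivative at `1` -/
def dr (F : Finset ℤ) (E : ℤ → Matrix ι ι K) : Matrix ι ι K := ∑ k ∈ F, (k : K) • E k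

variable {F : Finset ℤ} {E : ℤ → Matrix ι ι K}

theorem pw_mul_E (h : Gr F E) {k : ℤ} (hk : k ∈ F) (c : K) : pw F E c * E k = c ^ k • E k := by
  unfold pw
  rw [Finset.sum_mul, Finset.sum_eq_single k]
  · rw [smul_mul_assoc, h.mul k hk k hk, if_pos rfl]
  · intro j hj hjk
    rw [smul_mul_assoc, h.mul j hj k hk, if_neg hjk, smul_zero]
  · intro h1
    exact absurd hk h1

theorem dr_mul_E (h : Gr F E) {k : ℤ} (hk : k ∈ F) : dr F E * E k = (k : K) • E k := by
  unfold dr
  rw [Finset.sum_mul, Finset.sum_eq_single k]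
  · rw [smul_mul_assoc, h.mul k hk k hk, if_pos rfl]
  · intro j hj hjk
    rw [smul_mul_assoc, h.mul j hj k hk, if_neg hjk, smul_zero]
  · intro h1
    exact absurd hk h1

theorem pw_one (h : Gr F E) : pw F E 1 = 1 := by
  unfold pw
  simp only [one_zpow, one_smul]
  exact h.sum

/-- homogeneous polynomials -/
def Ho (F : Finset ℤ) (E : ℤ → Matrix ι ι K) (k : ℤ) (g : MvPolynomial (ι × ι) K) : Prop :=
  (∀ c : K, c ≠ 0 → sub 1 (pw F E c) g = c ^ k • g) ∧ D (dr F E) g = (k : K) • g

theorem Ho.mul {k l : ℤ} {g g' : MvPolynomial (ι × ι) K} (h : Ho F E k g) (h' : Ho F E l g') :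
    Ho F E (k + l) (g * g') := by
  constructor
  · intro c hc
    rw [map_mul, h.1 c hc, h'.1 c hc, zpow_add₀ hc, smul_mul_smul_comm]
  · rw [Derivation.leibniz, h.2, h'.2, smul_eq_mul, smul_eq_mul, mul_smul_comm, mul_smul_comm,
      mul_comm g' g, ← add_smul]
    push_cast
    rw [add_comm]

theorem Ho.smul {k : ℤ} {g : MvPolynomial (ι × ι) K} (h : Ho F E k g) (a : K) :
    Ho F E k (a • g) := by
  constructor
  · intro c hc
    rw [map_smul, h.1 c hc, smul_comm]
  · rw [Derivation.map_smul, h.2, smul_comm]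

theorem Ho.add {k : ℤ} {g g' : MvPolynomial (ι × ι) K} (h : Ho F E k g) (h' : Ho F E k g') :
    Ho F E k (g + g') := by
  constructor
  · intro c hc
    rw [map_add, h.1 c hc, h'.1 c hc, smul_add]
  · rw [map_add, h.2, h'.2, smul_add]

theorem Ho.zero (k : ℤ) : Ho F E k 0 :=
  ⟨fun c _ => by rw [map_zero, smul_zero], by rw [map_zero, smul_zero]⟩

theorem Ho.C (a : K) : Ho F E 0 (MvPolynomial.C a) := by
  constructor
  · intro c _
    rw [zpow_zero, one_smul]
    have h := (sub 1 (pw F E c)).commutes a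
    rwa [MvPolynomial.algebraMap_eq] at h
  · rw [D_C', Int.cast_zero, zero_smul]

theorem Ho.lin (h : Gr F E) {k : ℤ} (hk : k ∈ F) (q : ι × ι) : Ho F E k (lin (E k) q) := by
  constructor
  · intro c _
    rw [sub_lin, pw_mul_E h hk, lin_smul]
  · rw [D_lin, dr_mul_E h hk, lin_smul]

/-- every polynomial is a finite sum of homogeneous ones -/
theorem exists_dec (h : Gr F E) (f : MvPolynomial (ι × ι) K) :
    ∃ (G : Finset ℤ) (a : ℤ → MvPolynomial (ι × ι) K), (∀ k, Ho F E k (a k)) ∧
      (∀ k, k ∉ G → a k = 0) ∧ f = ∑ k ∈ G, a k := by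
  classical
  induction f using MvPolynomial.induction_on with
  | C c =>
    refine ⟨{0}, fun k => if k = 0 then MvPolynomial.C c else 0, fun k => ?_, fun k hk => ?_, ?_⟩
    · dsimp only
      split_ifs with hk
      · rw [hk]
        exact Ho.C c
      · exact Ho.zero k
    · rw [Finset.mem_singleton] at hk
      exact if_neg hk
    · simp
  | add f g hf hg =>
    obtain ⟨G, a, h1, h2, h3⟩ := hf
    obtain ⟨G', a', h1', h2', h3'⟩ := hg
    refine ⟨G ∪ G', fun k => a k + a' k, fun k => (h1 k).add (h1' k), fun k hk => ?_, ?_⟩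
    · rw [Finset.mem_union, not_or] at hk
      dsimp only
      rw [h2 k hk.1, h2' k hk.2, add_zero]
    · rw [Finset.sum_add_distrib, h3, h3']
      congr 1
      · exact Finset.sum_subset Finset.subset_union_left fun k _ hk => h2 k hk
      · exact Finset.sum_subset Finset.subset_union_right fun k _ hk => h2' k hk
  | mul_X f q hf =>
    obtain ⟨G, a, h1, h2, h3⟩ := hf
    refine ⟨(G ×ˢ F).image fun p => p.1 + p.2,
      fun k => ∑ p ∈ (G ×ˢ F) with p.1 + p.2 = k, a p.1 * lin (E p.2) q, fun k => ?_,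
      fun k hk => ?_, ?_⟩
    · have h4 : ∀ P : Finset (ℤ × ℤ), (∀ p ∈ P, p.2 ∈ F ∧ p.1 + p.2 = k) →
          Ho F E k (∑ p ∈ P, a p.1 * lin (E p.2) q) := by
        intro P
        induction P using Finset.induction_on with
        | empty => intro _; rw [Finset.sum_empty]; exact Ho.zero k
        | insert p P hp ih =>
          intro hP
          rw [Finset.sum_insert hp]
          refine Ho.add ?_ (ih fun p hp => hP p (Finset.mem_insert_of_mem hp))
          obtain ⟨h5, h6⟩ := hP p (Finset.mem_insert_self _ _)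
          rw [← h6]
          exact (h1 p.1).mul (Ho.lin h h5 q)
      refine h4 _ fun p hp => ?_
      rw [Finset.mem_filter, Finset.mem_product] at hp
      exact ⟨hp.1.2, hp.2⟩
    · refine Finset.sum_eq_zero fun p hp => ?_
      exfalso
      apply hk
      rw [Finset.mem_filter] at hp
      rw [Finset.mem_image]
      exact ⟨p, hp.1, hp.2⟩
    · have h4 : (X q : MvPolynomial (ι × ι) K) = ∑ l ∈ F, lin (E l) q := by
        rw [← lin_sum, h.sum, lin_one]
      rw [Finset.sum_image' (fun p : ℤ × ℤ => a p.1 * lin (E p.2) q), Finset.sum_product, h3, h4,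
        Finset.sum_mul]
      · refine Finset.sum_congr rfl fun k _ => ?_
        rw [Finset.mul_sum]
      · intro p _
        rfl

theorem sub_dec {G : Finset ℤ} {a : ℤ → MvPolynomial (ι × ι) K} (h1 : ∀ k, Ho F E k (a k))
    (c : K) (hc : c ≠ 0) : sub 1 (pw F E c) (∑ k ∈ G, a k) = ∑ k ∈ G, c ^ k • a k := by
  rw [map_sum]
  exact Finset.sum_congr rfl fun k _ => (h1 k).1 c hc

theorem D_dec {G : Finset ℤ} {a : ℤ → MvPolynomial (ι × ι) K} (h1 : ∀ k, Ho F E k (a k)) :
    D (dr F E) (∑ k ∈ G, a k) = ∑ k ∈ G, (k : K) • a k := by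
  rw [map_sum]
  exact Finset.sum_congr rfl fun k _ => (h1 k).2

/-- If `f` stays in `S` under infinitely many elements of the one-parameter group, then all
homogeneous parts of `f` lie in `S`. -/
theorem parts_mem {G : Finset ℤ} {a : ℤ → MvPolynomial (ι × ι) K} (h1 : ∀ k, Ho F E k (a k))
    (S : Submodule K (MvPolynomial (ι × ι) K))
    (hS : {c : K | c ≠ 0 ∧ sub 1 (pw F E c) (∑ k ∈ G, a k) ∈ S}.Infinite) (k : ℤ) (hk : k ∈ G) :
    a k ∈ S := by
  by_contra hcon
  obtain ⟨φ, hφ, hφS⟩ := Submodule.exists_le_ker_of_notMem hcon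
  apply hφ
  refine laurent_zero G (fun k => φ (a k)) (hS.mono ?_) k hk
  rintro c ⟨hc, hcS⟩
  refine ⟨hc, ?_⟩
  have h2 := LinearMap.mem_ker.1 (hφS hcS)
  rw [sub_dec h1 c hc, map_sum] at h2
  simpa only [map_smul, smul_eq_mul] using h2

theorem D_mem_of_infinite (h : Gr F E) (S : Submodule K (MvPolynomial (ι × ι) K))
    (f : MvPolynomial (ι × ι) K)
    (hS : {c : K | c ≠ 0 ∧ sub 1 (pw F E c) f ∈ S}.Infinite) : D (dr F E) f ∈ S := by
  obtain ⟨G, a, h1, -, h3⟩ := exists_dec h f
  rw [h3] at hS ⊢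
  rw [D_dec h1]
  exact Submodule.sum_mem _ fun k hk => Submodule.smul_mem _ _ (parts_mem h1 S hS k hk)

/-- If `S` is stable under the derivation, then it is stable under the one-parameter group. -/
theorem sub_mem_of_D [CharZero K] (h : Gr F E) (S : Submodule K (MvPolynomial (ι × ι) K))
    (hS : ∀ f ∈ S, D (dr F E) f ∈ S) (f : MvPolynomial (ι × ι) K) (hf : f ∈ S) (c : K)
    (hc : c ≠ 0) : sub 1 (pw F E c) f ∈ S := by
  classical
  obtain ⟨G, a, h1, -, h3⟩ := exists_dec h f
  -- polynomials in `D`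
  have h4 : ∀ P : Polynomial K, ∑ k ∈ G, P.eval (k : K) • a k ∈ S := by
    intro P
    induction P using Polynomial.induction_on with
    | C b =>
      simp only [Polynomial.eval_C]
      rw [← Finset.smul_sum, ← h3]
      exact Submodule.smul_mem _ _ hf
    | add P Q hP hQ =>
      simp only [Polynomial.eval_add, add_smul]
      rw [Finset.sum_add_distrib]
      exact Submodule.add_mem _ hP hQ
    | monomial n b hP =>
      have h5 := hS _ hP
      rw [map_sum] at h5
      convert h5 using 1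
      refine Finset.sum_congr rfl fun k _ => ?_
      rw [Derivation.map_smul, (h1 k).2, smul_smul]
      congr 1
      simp only [Polynomial.eval_mul, Polynomial.eval_C, Polynomial.eval_pow, Polynomial.eval_X]
      ring
  -- every part is in `S`
  have h5 : ∀ k ∈ G, a k ∈ S := by
    intro k hk
    have h6 := h4 (∏ j ∈ G.erase k, (Polynomial.X - Polynomial.C (j : K)))
    rw [Finset.sum_eq_single k] at h6
    · rw [Polynomial.eval_prod] at h6
      have h7 : ∏ j ∈ G.erase k, Polynomial.eval (k : K) (Polynomial.X - Polynomial.C (j : K)) ≠ 0 := by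
        rw [Finset.prod_ne_zero_iff]
        intro j hj
        rw [Polynomial.eval_sub, Polynomial.eval_X, Polynomial.eval_C, sub_ne_zero]
        intro h8
        exact (Finset.ne_of_mem_erase hj) (Int.cast_injective h8).symm
      have h8 := Submodule.smul_mem S (∏ j ∈ G.erase k,
        Polynomial.eval (k : K) (Polynomial.X - Polynomial.C (j : K)))⁻¹ h6
      rwa [smul_smul, inv_mul_cancel₀ h7, one_smul] at h8
    · intro j hj hjk
      rw [Polynomial.eval_prod, Finset.prod_eq_zero (Finset.mem_erase.2 ⟨hjk, hj⟩), zero_smul]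
      rw [Polynomial.eval_sub, Polynomial.eval_X, Polynomial.eval_C, sub_self]
    · intro h7
      exact absurd hk h7
  rw [h3, sub_dec h1 c hc]
  exact Submodule.sum_mem _ fun k hk => Submodule.smul_mem _ _ (h5 k hk)

end

end Pool.Agent.Y95.MT
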