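import Mathlib
import Pool.Agent.Y95.MT.Torus

/-!
# Ideals of algebraic groups: stabilizers and Lie algebras
-/

set_option autoImplicit false
set_option linter.unusedSectionVars false
set_option linter.unusedSimpArgs false

namespace Pool.Agent.Y95.MT

open MvPolynomial Pool.Agent.W528.ZC

noncomputable section

variable {K : Type} [Field K] {ι : Type} [Fintype ι] [DecidableEq ι]

/-- the Lie algebra of the group with ideal `S` -/
def LS (S : Submodule K (MvPolynomial (ι × ι) K)) : Submodule K (Matrix ι ι K) where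
  carrier := {y | ∀ f ∈ S, D y f ∈ S}
  zero_mem' := by
    intro f _
    have h : D (0 : Matrix ι ι K) f = 0 := by
      have h1 := D_smul (0 : K) (1 : Matrix ι ι K) f
      rwa [zero_smul, zero_smul] at h1
    rw [h]
    exact Submodule.zero_mem _
  add_mem' := by
    intro y y' h h' f hf
    rw [D_add]
    exact Submodule.add_mem _ (h f hf) (h' f hf)
  smul_mem' := by
    intro c y h f hf
    rw [D_smul]
    exact Submodule.smul_mem _ _ (h f hf)

/-- the stabilizer of `S` under right translations -/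
def St [Infinite K] (S : Submodule K (MvPolynomial (ι × ι) K)) : Submonoid (Matrix ι ι K) where
  carrier := {x | ∀ f ∈ S, sub 1 x f ∈ S}
  one_mem' := by
    intro f hf
    rwa [sub_one]
  mul_mem' := by
    intro x y hx hy f hf
    have h1 := hx _ (hy f hf)
    rwa [Pool.Agent.W528.ZC.sub_sub, mul_one] at h1

variable {S : Submodule K (MvPolynomial (ι × ι) K)}

theorem mem_LS {y : Matrix ι ι K} : y ∈ LS S ↔ ∀ f ∈ S, D y f ∈ S := Iff.rfl

theorem mem_St [Infinite K] {y : Matrix ι ι K} : y ∈ St S ↔ ∀ f ∈ S, sub 1 y f ∈ S := Iff.rfl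

theorem LS_br {x y : Matrix ι ι K} (hx : x ∈ LS S) (hy : y ∈ LS S) : x * y - y * x ∈ LS S := by
  intro f hf
  rw [← Pool.Agent.W347.ZC.BR.main K ι x y f]
  exact Submodule.sub_mem _ (hx _ (hy _ hf)) (hy _ (hx _ hf))

/-- conjugation -/
theorem LS_conj {a b : Matrix ι ι K} (hab : a * b = 1) (hba : b * a = 1)
    (h1 : ∀ f ∈ S, sub a b f ∈ S) (h2 : ∀ f ∈ S, sub b a f ∈ S) {y : Matrix ι ι K}
    (hy : y ∈ LS S) : a * y * b ∈ LS S := by
  intro f hf
  obtain ⟨h3, h4⟩ := Pool.Agent.W240.ZC.CJ.main K ι a b y hab hba f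
  have h5 := (Pool.Agent.W240.ZC.CJ.main K ι a b y hab hba (D (a * y * b) f)).2
  rw [← h5, ← h3]
  exact h2 _ (hy _ (h1 _ hf))

/-- the point `x` lies in the zero set of `S` -/
def InZS (S : Submodule K (MvPolynomial (ι × ι) K)) (x : Matrix ι ι K) : Prop :=
  ∀ f ∈ S, ev x f = 0

theorem InZS_of_St [Infinite K] (h1 : InZS S 1) {x : Matrix ι ι K} (hx : x ∈ St S) :
    InZS S x := by
  intro f hf
  have h2 := h1 _ (hx f hf)
  rwa [ev_sub, one_mul, one_mul] at h2

/-- one-parameter multiplicative groups -/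
theorem pw_mem_St [CharZero K] {F : Finset ℤ} {E : ℤ → Matrix ι ι K} (h : Gr F E)
    (hS : dr F E ∈ LS S) {c : K} (hc : c ≠ 0) : pw F E c ∈ St S :=
  fun f hf => sub_mem_of_D h S hS f hf c hc

theorem dr_mem_LS {F : Finset ℤ} {E : ℤ → Matrix ι ι K} (h : Gr F E) 
    (hS : ∀ f ∈ S, {c : K | c ≠ 0 ∧ sub 1 (pw F E c) f ∈ S}.Infinite) : dr F E ∈ LS S :=
  fun f hf => D_mem_of_infinite h S f (hS f hf)

theorem pw_mul (c d : K) {F : Finset ℤ} {E : ℤ → Matrix ι ι K} (h : Gr F E) :
    pw F E c * pw F E d = pw F E (c * d) := by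
  conv_lhs => rw [pw, pw]
  rw [Finset.sum_mul]
  unfold pw
  refine Finset.sum_congr rfl fun k hk => ?_
  rw [Finset.mul_sum, Finset.sum_eq_single k]
  · rw [smul_mul_smul_comm, h.mul k hk k hk, if_pos rfl, mul_zpow]
  · intro j hj hjk
    rw [smul_mul_smul_comm, h.mul k hk j hj, if_neg (Ne.symm hjk), smul_zero]
  · intro h1
    exact absurd hk h1

theorem pw_pow (c : K) {F : Finset ℤ} {E : ℤ → Matrix ι ι K} (h : Gr F E) (m : ℕ) :
    pw F E c ^ m = pw F E (c ^ m) := by
  induction m with
  | zero => rw [pow_zero, pow_zero, pw_one h]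
  | succ m ih => rw [pow_succ, ih, pw_mul _ _ h, pow_succ]

/-! ### The grading of an element with `x ^ 3 = x` -/

section cube
variable [CharZero K] {x : Matrix ι ι K}

/-- the projections of `x` with `x ^ 3 = x` -/
def E3 (x : Matrix ι ι K) (k : ℤ) : Matrix ι ι K :=
  if k = 1 then (2 : K)⁻¹ • (x * x + x) else if k = -1 then (2 : K)⁻¹ • (x * x - x) else
    1 - x * x

def F3 : Finset ℤ := {-1, 0, 1}

theorem sumF3 {M : Type} [AddCommGroup M] (f : ℤ → M) : ∑ k ∈ F3, f k = f (-1) + f 0 + f 1 := by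
  unfold F3
  rw [Finset.sum_insert (by decide), Finset.sum_insert (by decide), Finset.sum_singleton, add_assoc]

theorem memF3 {a : ℤ} : a ∈ F3 ↔ a = -1 ∨ a = 0 ∨ a = 1 := by
  unfold F3
  simp

theorem E3_one : E3 x 1 = (2 : K)⁻¹ • (x * x + x) := by simp [E3]
theorem E3_neg : E3 x (-1) = (2 : K)⁻¹ • (x * x - x) := by simp [E3]
theorem E3_zero : E3 x 0 = 1 - x * x := by simp [E3]

theorem Gr3 (hx : x * x * x = x) : Gr F3 (E3 x) := by
  have h2 : (2 : K) ≠ 0 := two_ne_zero
  have h3 : x * (x * x) = x := by rw [← mul_assoc, hx]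
  have h4 : x * x * (x * x) = x * x := by rw [← mul_assoc, hx]
  have hh : ∀ y : Matrix ι ι K, ((2 : K)⁻¹ * (2 : K)⁻¹) • (y + y) = (2 : K)⁻¹ • y := by
    intro y
    rw [← two_smul K y, smul_smul, mul_assoc, inv_mul_cancel₀ h2, mul_one]
  constructor
  · intro a ha b hb
    rw [memF3] at ha hb
    rcases ha with rfl | rfl | rfl <;> rcases hb with rfl | rfl | rfl
    · rw [if_pos rfl, E3_neg, smul_mul_smul_comm, ← hh]
      congr 1
      simp only [sub_mul, mul_sub, hx, h3, h4]
      abel
    · rw [if_neg (by decide), E3_neg, E3_zero, smul_mul_assoc]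
      have : (x * x - x) * (1 - x * x) = 0 := by
        simp only [sub_mul, mul_sub, mul_one, hx, h3, h4]
        abel
      rw [this, smul_zero]
    · rw [if_neg (by decide), E3_neg, E3_one, smul_mul_smul_comm]
      have : (x * x - x) * (x * x + x) = 0 := by
        simp only [sub_mul, mul_sub, mul_add, mul_one, hx, h3, h4]
        abel
      rw [this, smul_zero]
    · rw [if_neg (by decide), E3_neg, E3_zero, mul_smul_comm]
      have : (1 - x * x) * (x * x - x) = 0 := by
        simp only [sub_mul, mul_sub, one_mul, hx, h3, h4]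
        abel
      rw [this, smul_zero]
    · rw [if_pos rfl, E3_zero]
      simp only [sub_mul, mul_sub, one_mul, mul_one, hx, h3, h4]
      abel
    · rw [if_neg (by decide), E3_one, E3_zero, mul_smul_comm]
      have : (1 - x * x) * (x * x + x) = 0 := by
        simp only [sub_mul, mul_sub, mul_add, one_mul, hx, h3, h4]
        abel
      rw [this, smul_zero]
    · rw [if_neg (by decide), E3_neg, E3_one, smul_mul_smul_comm]
      have : (x * x + x) * (x * x - x) = 0 := by
        simp only [add_mul, mul_sub, mul_add, mul_one, hx, h3, h4]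
        abel
      rw [this, smul_zero]
    · rw [if_neg (by decide), E3_one, E3_zero, smul_mul_assoc]
      have : (x * x + x) * (1 - x * x) = 0 := by
        simp only [add_mul, mul_sub, mul_one, hx, h3, h4]
        abel
      rw [this, smul_zero]
    · rw [if_pos rfl, E3_one, smul_mul_smul_comm, ← hh]
      congr 1
      simp only [add_mul, mul_add, hx, h3, h4]
      abel
  · rw [sumF3, E3_one, E3_neg, E3_zero]
    have : (2 : K)⁻¹ • (x * x - x) + (2 : K)⁻¹ • (x * x + x) = x * x := by
      rw [← smul_add, show x * x - x + (x * x + x) = x * x + x * x by abel, ← two_smul K (x * x),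
        smul_smul, inv_mul_cancel₀ h2, one_smul]
    rw [show (2 : K)⁻¹ • (x * x - x) + (1 - x * x) + (2 : K)⁻¹ • (x * x + x) =
      (2 : K)⁻¹ • (x * x - x) + (2 : K)⁻¹ • (x * x + x) + (1 - x * x) by abel, this]
    abel

theorem dr3 : dr F3 (E3 x) = x := by
  unfold dr
  rw [sumF3, E3_one, E3_neg, E3_zero]
  push_cast
  rw [zero_smul, one_smul, neg_smul, one_smul, ← smul_neg, add_zero, ← smul_add,
    show -(x * x - x) + (x * x + x) = x + x by abel, ← two_smul K x, smul_smul,
    inv_mul_cancel₀ (two_ne_zero), one_smul]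

theorem pw3 (c : K) : pw F3 (E3 x) c =
    1 + ((c - 1) / 2) • (x * x + x) + ((c⁻¹ - 1) / 2) • (x * x - x) := by
  unfold pw
  rw [sumF3, E3_one, E3_neg, E3_zero, zpow_one, zpow_zero, zpow_neg_one]
  module

end cube

end

end Pool.Agent.Y95.MT
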