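import Mathlib
import Pool.Agent.Y95.MT.Gen
import Pool.Agent.W978.ZC.ID

/-!
# Quadratic curves of matrices and derivations
-/

set_option autoImplicit false
set_option linter.unusedSectionVars false

namespace Pool.Agent.Y95.MT

open MvPolynomial Pool.Agent.W528.ZC

noncomputable section

variable {K : Type} [Field K] {ι : Type} [Fintype ι] [DecidableEq ι]

/-- the algebra map `X ↦ X + T X n + T ^ 2 X m` -/
def Ph2 (n m : Matrix ι ι K) :
    MvPolynomial (ι × ι) K →ₐ[K] Polynomial (MvPolynomial (ι × ι) K) :=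
  aeval fun q => Polynomial.C (X q) + Polynomial.X * Polynomial.C (lin n q) +
    Polynomial.X * (Polynomial.X * Polynomial.C (lin m q))

theorem Ph2_X (n m : Matrix ι ι K) (q : ι × ι) :
    Ph2 n m (X q) = Polynomial.C (X q) + Polynomial.X * Polynomial.C (lin n q) +
    Polynomial.X * (Polynomial.X * Polynomial.C (lin m q)) := by
  unfold Ph2
  rw [aeval_X]

theorem Ph2_C (n m : Matrix ι ι K) (a : K) : Ph2 n m (C a) = Polynomial.C (C a) := by
  have h := (Ph2 n m).commutes a
  rw [MvPolynomial.algebraMap_eq] at h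
  rw [h]; rfl

theorem Ph2_coeff (n m : Matrix ι ι K) (f : MvPolynomial (ι × ι) K) :
    (Ph2 n m f).coeff 0 = f ∧ (Ph2 n m f).coeff 1 = D n f := by
  induction f using MvPolynomial.induction_on with
  | C a =>
    rw [Ph2_C, D_C']
    simp [Polynomial.coeff_C]
  | add f g hf hg =>
    rw [map_add, map_add, Polynomial.coeff_add, Polynomial.coeff_add, hf.1, hf.2, hg.1, hg.2]
    exact ⟨rfl, rfl⟩
  | mul_X f q hf =>
    rw [map_mul]
    have h0 : (Ph2 n m (X q)).coeff 0 = X q := by
      rw [Ph2_X]
      simp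
    have h1 : (Ph2 n m (X q)).coeff 1 = lin n q := by
      rw [Ph2_X, Polynomial.coeff_add, Polynomial.coeff_add, Polynomial.coeff_C,
        if_neg one_ne_zero, show (1 : ℕ) = 0 + 1 from rfl, Polynomial.coeff_X_mul,
        Polynomial.coeff_X_mul, Polynomial.coeff_C_zero]
      simp
    constructor
    · rw [Polynomial.mul_coeff_zero, hf.1, h0]
    · rw [Polynomial.mul_coeff_one, hf.1, hf.2, h0, h1, Derivation.leibniz, D_X', smul_eq_mul,
        smul_eq_mul, mul_comm (X q)]

theorem eval_Ph2 (n m : Matrix ι ι K) (t : K) (f : MvPolynomial (ι × ι) K) :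
    Polynomial.eval (C t) (Ph2 n m f) = sub 1 (1 + t • n + (t * t) • m) f := by
  induction f using MvPolynomial.induction_on with
  | C a =>
    rw [Ph2_C, Polynomial.eval_C]
    have h := (sub 1 (1 + t • n + (t * t) • m)).commutes a
    rw [MvPolynomial.algebraMap_eq] at h
    exact h.symm
  | add f g hf hg => rw [map_add, Polynomial.eval_add, hf, hg, map_add]
  | mul_X f q hf =>
    rw [map_mul, Polynomial.eval_mul, hf, map_mul, sub_X', Ph2_X, lin_add, lin_add, lin_one,
      lin_smul, lin_smul, Polynomial.eval_add, Polynomial.eval_add, Polynomial.eval_mul,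
      Polynomial.eval_mul, Polynomial.eval_mul, Polynomial.eval_X, Polynomial.eval_C,
      Polynomial.eval_C, Polynomial.eval_C, smul_eq_C_mul, smul_eq_C_mul, C_mul]
    ring

theorem D_mem_of_quad (n m : Matrix ι ι K) (S : Submodule K (MvPolynomial (ι × ι) K))
    (f : MvPolynomial (ι × ι) K)
    (h : {t : K | sub 1 (1 + t • n + (t * t) • m) f ∈ S}.Infinite) : D n f ∈ S := by
  rw [← (Ph2_coeff n m f).2]
  refine Pool.Agent.W978.ZC.ID.coeff_mem S _ (h.mono fun t ht => ?_) 1
  show Polynomial.eval (C t) (Ph2 n m f) ∈ S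
  rw [eval_Ph2]
  exact ht

end

end Pool.Agent.Y95.MT
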