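import Mathlib
import Pool.Agent.Y95.MT.Unip

/-!
# Products of two reflections and the Lie algebra
-/

set_option autoImplicit false
set_option linter.unusedSectionVars false

namespace Pool.Agent.Y95.MT

open MvPolynomial Matrix Pool.Agent.W528.ZC

noncomputable section

variable {K : Type} [Field K] {ι : Type} [Fintype ι] [DecidableEq ι]

/-- the operator `x ↦ b(b', x) a - b(a, x) b'` of the form with matrix `B` -/
def wd (B : Matrix ι ι K) (a b : ι → K) : Matrix ι ι K :=
  vecMulVec a (B *ᵥ b) - vecMulVec b (B *ᵥ a)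

/-- the reflection in `δ` -/
def rf (B : Matrix ι ι K) (δ : ι → K) : Matrix ι ι K :=
  1 - (2 / (δ ⬝ᵥ B *ᵥ δ)) • vecMulVec δ (B *ᵥ δ)

theorem bsymm {B : Matrix ι ι K} (hB : Bᵀ = B) (a b : ι → K) :
    a ⬝ᵥ B *ᵥ b = b ⬝ᵥ B *ᵥ a := by
  conv_lhs => rw [← hB]
  rw [Matrix.mulVec_transpose, dotProduct_comm, ← Matrix.dotProduct_mulVec]

/-- two orthogonal idempotents -/
def E2 (P M : Matrix ι ι K) (k : ℤ) : Matrix ι ι K :=
  if k = 1 then P else if k = -1 then M else 1 - P - M

theorem Gr2 {P M : Matrix ι ι K} (h1 : P * P = P) (h2 : M * M = M) (h3 : P * M = 0)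
    (h4 : M * P = 0) : Gr F3 (E2 P M) := by
  have e1 : E2 P M 1 = P := by simp [E2]
  have e2 : E2 P M (-1) = M := by simp [E2]
  have e0 : E2 P M 0 = 1 - P - M := by simp [E2]
  constructor
  · intro a ha b hb
    rw [memF3] at ha hb
    rcases ha with rfl | rfl | rfl <;> rcases hb with rfl | rfl | rfl <;>
      simp [e1, e2, e0, mul_sub, sub_mul, h1, h2, h3, h4]
  · rw [sumF3, e1, e2, e0]
    abel

theorem pw2 (P M : Matrix ι ι K) (c : K) :
    pw F3 (E2 P M) c = 1 + (c - 1) • P + (c⁻¹ - 1) • M := by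
  have e1 : E2 P M 1 = P := by simp [E2]
  have e2 : E2 P M (-1) = M := by simp [E2]
  have e0 : E2 P M 0 = 1 - P - M := by simp [E2]
  unfold pw
  rw [sumF3, e1, e2, e0, zpow_one, zpow_zero, _root_.zpow_neg_one]
  module

theorem dr2 (P M : Matrix ι ι K) : dr F3 (E2 P M) = P - M := by
  have e1 : E2 P M 1 = P := by simp [E2]
  have e2 : E2 P M (-1) = M := by simp [E2]
  have e0 : E2 P M 0 = 1 - P - M := by simp [E2]
  unfold dr
  rw [sumF3, e1, e2, e0]
  push_cast
  module

theorem vmv_mul (a u b v : ι → K) :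
    vecMulVec a u * vecMulVec b v = (u ⬝ᵥ b) • vecMulVec a v := by
  ext i j
  simp only [Matrix.mul_apply, vecMulVec_apply, Matrix.smul_apply, smul_eq_mul, dotProduct,
    Finset.sum_mul]
  exact Finset.sum_congr rfl fun k _ => by ring

theorem refl_pair [CharZero K] [IsAlgClosed K] {B : Matrix ι ι K} (hB : Bᵀ = B) {δ η : ι → K}
    {d : K} (hd : d ≠ 0) (hδ : δ ⬝ᵥ B *ᵥ δ = d) (hη : η ⬝ᵥ B *ᵥ η = d)
    {S : Submodule K (MvPolynomial (ι × ι) K)}
    (hS : ∀ f ∈ S, ∃ M : ℕ, 0 < M ∧ ∀ k : ℕ, sub 1 ((rf B δ * rf B η) ^ (M * k)) f ∈ S)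
    (htf : ∀ m : ℕ, 0 < m → (rf B δ * rf B η) ^ m = 1 → rf B δ * rf B η = 1) :
    wd B δ η ∈ LS S := by
  obtain ⟨t, ht⟩ : ∃ t : K, δ ⬝ᵥ B *ᵥ η = t * d := ⟨(δ ⬝ᵥ B *ᵥ η) / d, by field_simp⟩
  have ht' : η ⬝ᵥ B *ᵥ δ = t * d := by rw [bsymm hB, ht]
  obtain ⟨u, hu⟩ : ∃ u, u = B *ᵥ δ := ⟨_, rfl⟩
  obtain ⟨v, hv⟩ : ∃ v, v = B *ᵥ η := ⟨_, rfl⟩
  have hr : rf B δ * rf B η = 1 - (2 / d) • vecMulVec δ u - (2 / d) • vecMulVec η v +
      (4 * t / d) • vecMulVec δ v := by
    unfold rf
    rw [hδ, hη, ← hu, ← hv]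
    rw [sub_mul, mul_sub, mul_sub, one_mul, one_mul, mul_one, smul_mul_smul_comm, vmv_mul]
    have h1 : u ⬝ᵥ η = t * d := by rw [hu, dotProduct_comm, ht']
    rw [h1, smul_smul]
    have h2 : 2 / d * (2 / d) * (t * d) = 4 * t / d := by field_simp; ring
    rw [h2]
    abel
  have hwd : wd B δ η = vecMulVec δ v - vecMulVec η u := by
    unfold wd
    rw [← hu, ← hv]
  by_cases ht1 : t ^ 2 = 1
  · -- unipotent case
    obtain ⟨ν, hν⟩ : ∃ ν, ν = η - t • δ := ⟨_, rfl⟩
    have hBν : B *ᵥ ν = v - t • u := by rw [hν, Matrix.mulVec_sub, Matrix.mulVec_smul, ← hu, ← hv]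
    have c1 : δ ⬝ᵥ (v - t • u) = 0 := by
      rw [dotProduct_sub, dotProduct_smul, hu, hv, ht, hδ, smul_eq_mul, sub_self]
    have c2 : ν ⬝ᵥ (v - t • u) = 0 := by
      rw [hν, sub_dotProduct, smul_dotProduct, c1, smul_zero, sub_zero, dotProduct_sub,
        dotProduct_smul, hu, hv, hη, ht', smul_eq_mul]
      linear_combination (-d) * ht1
    have c3 : ν ⬝ᵥ u = 0 := by
      rw [hν, sub_dotProduct, smul_dotProduct, hu, ht', hδ, smul_eq_mul, sub_self]
    have c4 : δ ⬝ᵥ u = d := by rw [hu, hδ]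
    obtain ⟨z, hz⟩ : ∃ z, z = v - t • u := ⟨_, rfl⟩
    rw [← hz] at c1 c2
    have hη' : η = ν + t • δ := by rw [hν]; abel
    have hv' : v = z + t • u := by rw [hz]; abel
    obtain ⟨N, hN⟩ : ∃ N, N = (2 * t / d) • (vecMulVec δ z - vecMulVec ν u) := ⟨_, rfl⟩
    obtain ⟨M, hM⟩ : ∃ M, M = (-2 / d) • vecMulVec ν z := ⟨_, rfl⟩
    have hrNM : rf B δ * rf B η = 1 + N + M := by
      rw [hr, hN, hM, hη', hv']
      ext i j
      simp only [Matrix.add_apply, Matrix.sub_apply, Matrix.smul_apply, vecMulVec_apply,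
        Pi.add_apply, Pi.smul_apply, smul_eq_mul]
      field_simp
      linear_combination (-2 * δ i * u j + 4 * δ i * u j) * ht1
    have z1 : z ⬝ᵥ δ = 0 := by rw [dotProduct_comm, c1]
    have z2 : z ⬝ᵥ ν = 0 := by rw [dotProduct_comm, c2]
    have z3 : u ⬝ᵥ ν = 0 := by rw [dotProduct_comm, c3]
    have z4 : u ⬝ᵥ δ = d := by rw [dotProduct_comm, c4]
    have hNN : N * N = (2 : K) • M := by
      rw [hN, hM, smul_mul_smul_comm, sub_mul, mul_sub, mul_sub, vmv_mul, vmv_mul, vmv_mul,
        vmv_mul, z1, z2, z3, z4, smul_smul]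
      simp only [zero_smul, sub_zero, zero_sub, smul_neg, smul_smul]
      rw [← neg_smul]
      congr 1
      field_simp
      linear_combination (-1) * ht1
    have hNM : N * M = 0 := by
      rw [hN, hM, smul_mul_smul_comm, sub_mul, vmv_mul, vmv_mul, z2, z3]
      simp
    have hMN : M * N = 0 := by
      rw [hN, hM, smul_mul_smul_comm, mul_sub, vmv_mul, vmv_mul, z1, z2]
      simp
    have hMM : M * M = 0 := by
      rw [hM, smul_mul_smul_comm, vmv_mul, z2]
      simp
    have hpow : ∀ k : ℕ, (rf B δ * rf B η) ^ k =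
        1 + (k : K) • N + ((k : K) * (k : K)) • M := by
      intro k
      induction k with
      | zero => simp
      | succ k ih =>
        rw [pow_succ, ih, hrNM]
        simp only [add_mul, mul_add, one_mul, mul_one, smul_mul_assoc, hNN, hNM, hMN, hMM,
          smul_zero, add_zero]
        push_cast
        module
    have hNL : N ∈ LS S := by
      intro f hf
      obtain ⟨M0, hM0, hk⟩ := hS f hf
      refine D_mem_of_quad N M S f ?_
      refine Set.Infinite.mono (s := Set.range fun k : ℕ => ((M0 * k : ℕ) : K)) ?_ ?_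
      · rintro _ ⟨k, rfl⟩
        have h1 := hk k
        rw [hpow] at h1
        exact h1
      · refine Set.infinite_range_of_injective ?_
        intro a b hab
        have h3 : M0 * a = M0 * b := Nat.cast_injective hab
        exact Nat.eq_of_mul_eq_mul_left hM0 h3
    have h3 : wd B δ η = (d / (2 * t)) • N := by
      have ht0 : t ≠ 0 := by
        rintro rfl
        norm_num at ht1
      rw [hwd, hN, smul_smul, show d / (2 * t) * (2 * t / d) = 1 by field_simp, one_smul, hη', hv']
      ext i j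
      simp only [Matrix.sub_apply, vecMulVec_apply, Pi.add_apply, Pi.smul_apply, smul_eq_mul]
      ring
    rw [h3]
    exact Submodule.smul_mem _ _ hNL
  · -- torus case
    obtain ⟨κ, hκ⟩ := IsAlgClosed.exists_pow_nat_eq (t ^ 2 - 1) (n := 2) (by norm_num)
    obtain ⟨w, hw⟩ : ∃ w, w = t + κ := ⟨_, rfl⟩
    have hw2 : w * (2 * t - w) = 1 := by
      rw [hw]
      linear_combination (-1) * hκ
    have hw0 : w ≠ 0 := by
      rintro rfl
      simp at hw2
    have ht2 : t = (w + w⁻¹) / 2 := by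
      field_simp
      linear_combination hw2
    have hw1 : w ^ 2 - 1 ≠ 0 := by
      intro h
      apply ht1
      have h1 : (t * (2 * w)) ^ 2 = 4 * w ^ 2 := by
        have h2 : t * (2 * w) = w ^ 2 + 1 := by linear_combination hw2
        rw [h2]
        linear_combination (w ^ 2 - 1) * h
      have h2 : w ^ 2 = 1 := by linear_combination h
      rw [mul_pow, mul_pow, h2] at h1
      linear_combination h1 / 4
    obtain ⟨g, hg⟩ : ∃ g, g = -d * (w ^ 2 - 1) ^ 2 / (2 * w ^ 2) := ⟨_, rfl⟩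
    have hg0 : g ≠ 0 := by
      rw [hg]
      exact div_ne_zero (mul_ne_zero (neg_ne_zero.2 hd) (pow_ne_zero _ hw1))
        (mul_ne_zero two_ne_zero (pow_ne_zero _ hw0))
    obtain ⟨P, hP⟩ : ∃ P, P = g⁻¹ • vecMulVec (η - w • δ) (v - w⁻¹ • u) := ⟨_, rfl⟩
    obtain ⟨M, hM⟩ : ∃ M, M = g⁻¹ • vecMulVec (η - w⁻¹ • δ) (v - w • u) := ⟨_, rfl⟩
    have z1 : u ⬝ᵥ δ = d := by rw [dotProduct_comm, hu, hδ]
    have z2 : u ⬝ᵥ η = t * d := by rw [dotProduct_comm, hu, ht']
    have z3 : v ⬝ᵥ δ = t * d := by rw [dotProduct_comm, hv, ht]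
    have z4 : v ⬝ᵥ η = d := by rw [dotProduct_comm, hv, hη]
    have hPP : P * P = P := by
      rw [hP, smul_mul_smul_comm, vmv_mul, smul_smul]
      congr 1
      simp only [sub_dotProduct, dotProduct_sub, smul_dotProduct, dotProduct_smul, smul_eq_mul,
        z1, z2, z3, z4]
      rw [hg, ht2]
      field_simp
      ring
    have hMM : M * M = M := by
      rw [hM, smul_mul_smul_comm, vmv_mul, smul_smul]
      congr 1
      simp only [sub_dotProduct, dotProduct_sub, smul_dotProduct, dotProduct_smul, smul_eq_mul,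
        z1, z2, z3, z4]
      rw [hg, ht2]
      field_simp
      ring
    have hPM : P * M = 0 := by
      rw [hP, hM, smul_mul_smul_comm, vmv_mul, smul_smul]
      have : (v - w⁻¹ • u) ⬝ᵥ (η - w⁻¹ • δ) = 0 := by
        simp only [sub_dotProduct, dotProduct_sub, smul_dotProduct, dotProduct_smul, smul_eq_mul,
          z1, z2, z3, z4]
        rw [ht2]
        field_simp
        ring
      rw [this, mul_zero, zero_smul]
    have hMP : M * P = 0 := by
      rw [hP, hM, smul_mul_smul_comm, vmv_mul, smul_smul]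
      have : (v - w • u) ⬝ᵥ (η - w • δ) = 0 := by
        simp only [sub_dotProduct, dotProduct_sub, smul_dotProduct, dotProduct_smul, smul_eq_mul,
          z1, z2, z3, z4]
        rw [ht2]
        field_simp
        ring
      rw [this, mul_zero, zero_smul]
    have hG := Gr2 hPP hMM hPM hMP
    have hw20 : w ^ 2 ≠ 0 := pow_ne_zero _ hw0
    have hrP : rf B δ * rf B η = pw F3 (E2 P M) (w ^ 2) := by
      rw [hr, pw2, hP, hM, hg, ht2]
      ext i j
      simp only [Matrix.add_apply, Matrix.sub_apply, Matrix.smul_apply, vecMulVec_apply,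
        Pi.sub_apply, Pi.smul_apply, smul_eq_mul]
      field_simp
      ring
    have hdr : wd B δ η ∈ LS S ↔ dr F3 (E2 P M) ∈ LS S := by
      have h1 : dr F3 (E2 P M) = (g⁻¹ * (w⁻¹ - w)) • wd B δ η := by
        rw [dr2, hP, hM, hwd]
        ext i j
        simp only [Matrix.sub_apply, Matrix.smul_apply, vecMulVec_apply,
          Pi.sub_apply, Pi.smul_apply, smul_eq_mul]
        field_simp
        ring
      have h2 : g⁻¹ * (w⁻¹ - w) ≠ 0 := by
        refine mul_ne_zero (inv_ne_zero hg0) ?_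
        intro h
        apply hw1
        field_simp at h
        linear_combination (-1) * h
      rw [h1]
      exact (Submodule.smul_mem_iff _ h2).symm
    rw [hdr]
    by_cases hroot : ∃ m : ℕ, 0 < m ∧ (w ^ 2) ^ m = 1
    · obtain ⟨m, hm, hm1⟩ := hroot
      have h1 := htf m hm (by rw [hrP, pw_pow _ hG, hm1, pw_one hG])
      have e1 : E2 P M 1 = P := by simp [E2]
      have e2 : E2 P M (-1) = M := by simp [E2]
      have h2 := pw_mul_E hG (k := 1) (by decide) (w ^ 2)
      have h3 := pw_mul_E hG (k := -1) (by decide) (w ^ 2)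
      rw [← hrP, h1, one_mul, e1, zpow_one] at h2
      rw [← hrP, h1, one_mul, e2, _root_.zpow_neg_one] at h3
      have h4 : P = 0 := by
        have h5 : (w ^ 2 - 1) • P = 0 := by rw [sub_smul, ← h2, one_smul, sub_self]
        exact (smul_eq_zero.1 h5).resolve_left hw1
      have h5 : M = 0 := by
        have h6 : ((w ^ 2)⁻¹ - 1) • M = 0 := by rw [sub_smul, ← h3, one_smul, sub_self]
        refine (smul_eq_zero.1 h6).resolve_left ?_
        intro h7
        apply hw1
        field_simp at h7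
        linear_combination (-1) * h7
      rw [dr2, h4, h5, sub_zero]
      exact Submodule.zero_mem _
    · push Not at hroot
      refine dr_mem_LS hG fun f hf => ?_
      obtain ⟨M0, hM0, hk⟩ := hS f hf
      refine Set.Infinite.mono (s := Set.range fun k : ℕ => (w ^ 2) ^ (M0 * k)) ?_ ?_
      · rintro _ ⟨k, rfl⟩
        refine ⟨pow_ne_zero _ hw20, ?_⟩
        have h1 := hk k
        rw [hrP, pw_pow _ hG] at h1
        exact h1
      · refine Set.infinite_range_of_injective ?_
        intro a b hab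
        have key : ∀ a b : ℕ, a < b → (w ^ 2) ^ (M0 * a) ≠ (w ^ 2) ^ (M0 * b) := by
          intro a b hlt heq
          have h2 : M0 * b = M0 * a + M0 * (b - a) := by
            rw [← mul_add]
            congr 1
            omega
          rw [h2, pow_add] at heq
          have h3 : (w ^ 2) ^ (M0 * a) ≠ 0 := pow_ne_zero _ hw20
          refine hroot (M0 * (b - a)) (Nat.mul_pos hM0 (by omega)) ?_
          exact (mul_left_cancel₀ h3 (by rw [mul_one]; exact heq)).symm
        rcases lt_trichotomy a b with h | h | h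
        · exact absurd hab (key a b h)
        · exact h
        · exact absurd hab.symm (key b a h)

end

end Pool.Agent.Y95.MT
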