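import Mathlib
import Pool.Agent.Y95.MT.Refl
import Pool.Agent.Y95.MT.Cong

/-!
# The Lie algebra of the image of Galois
-/

set_option autoImplicit false
set_option linter.unusedSectionVars false

namespace Pool.Agent.Y95.MT

open MvPolynomial Matrix Pool.Agent.W528.ZC

noncomputable section

/-! ### The ideal of the identity component -/

section ideal

variable {k K : Type} [Field k] [Field K] {ι : Type} [Fintype ι] [DecidableEq ι] {Γ : Type}
  [Group Γ]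

/-- the ideal of the identity component of the Zariski closure -/
def IG (ρ : Γ →* Matrix ι ι k) (j : k →+* K) : Submodule K (MvPolynomial (ι × ι) K) where
  carrier := {f | ∃ Δ : Subgroup Γ, Δ.FiniteIndex ∧ ∀ s ∈ Δ, ev ((ρ s).map j) f = 0}
  zero_mem' := ⟨⊤, inferInstance, fun g _ => map_zero _⟩
  add_mem' := by
    rintro f f' ⟨Δ, hΔ, h⟩ ⟨Δ', hΔ', h'⟩
    exact ⟨Δ ⊓ Δ', inferInstance, fun g hg => by rw [map_add, h g hg.1, h' g hg.2, add_zero]⟩
  smul_mem' := by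
    rintro c f ⟨Δ, hΔ, h⟩
    exact ⟨Δ, hΔ, fun g hg => by rw [map_smul, h g hg, smul_zero]⟩

variable {ρ : Γ →* Matrix ι ι k} {j : k →+* K}

theorem mem_IG {f : MvPolynomial (ι × ι) K} : f ∈ IG ρ j ↔
    ∃ Δ : Subgroup Γ, Δ.FiniteIndex ∧ ∀ s ∈ Δ, ev ((ρ s).map j) f = 0 := Iff.rfl

theorem InZS_one : InZS (IG ρ j) 1 := by
  rintro f ⟨Δ, _, h⟩
  have h1 := h 1 Δ.one_mem
  rwa [map_one, Matrix.map_one _ (map_zero _) (map_one _)] at h1

theorem map_pow_j (γ : Γ) (m : ℕ) : ((ρ γ).map j) ^ m = (ρ (γ ^ m)).map j := by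
  rw [map_pow]
  exact ((j.mapMatrix).map_pow (ρ γ) m).symm

theorem IG_pow (γ : Γ) {f : MvPolynomial (ι × ι) K} (hf : f ∈ IG ρ j) :
    ∃ M : ℕ, 0 < M ∧ ∀ m : ℕ, sub 1 (((ρ γ).map j) ^ (M * m)) f ∈ IG ρ j := by
  obtain ⟨Δ, hΔ, h⟩ := hf
  have _ : Δ.normalCore.FiniteIndex := inferInstance
  have hM0 : Δ.normalCore.index ≠ 0 := Subgroup.FiniteIndex.index_ne_zero
  have hM : γ ^ Δ.normalCore.index ∈ Δ := Δ.normalCore_le (Δ.normalCore.pow_index_mem γ)
  refine ⟨Δ.normalCore.index, Nat.pos_of_ne_zero hM0, fun m => ⟨Δ, hΔ, fun s hs => ?_⟩⟩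
  rw [ev_sub, one_mul, map_pow_j, ← Matrix.map_mul, ← map_mul]
  refine h _ (Δ.mul_mem hs ?_)
  rw [pow_mul]
  exact Δ.pow_mem hM m

end ideal

/-! ### Forms on a direct sum -/

section forms

variable {K : Type} [Field K] {κ : Type} [Fintype κ] [DecidableEq κ] {n : ℕ}

/-- the vector in the second summand -/
def em (κ : Type) (w : Fin n → K) : κ ⊕ Fin n → K := Sum.elim 0 w

/-- the form on the second summand -/
def Bh (κ : Type) (Q : Matrix (Fin n) (Fin n) K) : Matrix (κ ⊕ Fin n) (κ ⊕ Fin n) K :=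
  fromBlocks 0 0 0 Q

theorem Bh_mulVec (Q : Matrix (Fin n) (Fin n) K) (w : Fin n → K) :
    Bh κ Q *ᵥ em κ w = em κ (Q *ᵥ w) := by
  unfold Bh em
  rw [Matrix.fromBlocks_mulVec]
  simp

theorem em_dot (a b : Fin n → K) : em κ a ⬝ᵥ em κ b = a ⬝ᵥ b := by
  unfold em
  simp [dotProduct, Fintype.sum_sum_type]

theorem vmv_em (a b : Fin n → K) :
    vecMulVec (em κ a) (em κ b) = fromBlocks 0 0 0 (vecMulVec a b) := by
  ext x y
  rcases x with x | x <;> rcases y with y | y <;> simp [em, vecMulVec_apply]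

theorem wd_em (Q : Matrix (Fin n) (Fin n) K) (a b : Fin n → K) :
    wd (Bh κ Q) (em κ a) (em κ b) = fromBlocks 0 0 0 (wd Q a b) := by
  unfold wd
  rw [Bh_mulVec, Bh_mulVec, vmv_em, vmv_em]
  ext x y
  rcases x with x | x <;> rcases y with y | y <;> simp

theorem rf_em (Q : Matrix (Fin n) (Fin n) K) (δ : Fin n → K) :
    rf (Bh κ Q) (em κ δ) = fromBlocks 1 0 0 (rf Q δ) := by
  unfold rf
  rw [Bh_mulVec, vmv_em, em_dot, Matrix.fromBlocks_smul]
  ext x y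
  rcases x with x | x <;> rcases y with y | y <;> simp [Matrix.one_apply]

theorem Bh_symm {Q : Matrix (Fin n) (Fin n) K} (hQ : Qᵀ = Q) : (Bh κ Q)ᵀ = Bh κ Q := by
  unfold Bh
  rw [Matrix.fromBlocks_transpose, hQ]
  simp

/-- conjugation of a reflection by an isometry -/
theorem conj_rf {ι : Type} [Fintype ι] [DecidableEq ι] {B g g' : Matrix ι ι K}
    (hg : gᵀ * B * g = B) (hgg : g * g' = 1) (δ : ι → K) :
    g * rf B δ * g' = rf B (g *ᵥ δ) ∧ (g *ᵥ δ) ⬝ᵥ B *ᵥ (g *ᵥ δ) = δ ⬝ᵥ B *ᵥ δ := by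
  have h1 : (g *ᵥ δ) ⬝ᵥ B *ᵥ (g *ᵥ δ) = δ ⬝ᵥ B *ᵥ δ := by
    have h2 : (g *ᵥ δ) ⬝ᵥ B *ᵥ (g *ᵥ δ) = δ ⬝ᵥ (gᵀ * B * g) *ᵥ δ := by
      rw [← Matrix.mulVec_mulVec, ← Matrix.mulVec_mulVec, Matrix.dotProduct_mulVec δ gᵀ,
        Matrix.vecMul_transpose]
    rw [h2, hg]
  refine ⟨?_, h1⟩
  have h3 : g'ᵀ * B = B * g := by
    calc g'ᵀ * B = g'ᵀ * (gᵀ * B * g) := by rw [hg]
      _ = (g'ᵀ * gᵀ) * B * g := by simp only [Matrix.mul_assoc]
      _ = B * g := by rw [← Matrix.transpose_mul, hgg, Matrix.transpose_one, Matrix.one_mul]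
  have h4 : g * vecMulVec δ (B *ᵥ δ) * g' = vecMulVec (g *ᵥ δ) (B *ᵥ (g *ᵥ δ)) := by
    rw [Matrix.mul_vecMulVec, Matrix.vecMulVec_mul]
    congr 1
    rw [← Matrix.mulVec_transpose, Matrix.mulVec_mulVec, Matrix.mulVec_mulVec, h3]
  unfold rf
  rw [h1, mul_sub, sub_mul, mul_one, hgg, Matrix.mul_smul, Matrix.smul_mul, h4]

theorem rf_mul_self {ι : Type} [Fintype ι] [DecidableEq ι] {B : Matrix ι ι K} {δ : ι → K}
    (hδ : δ ⬝ᵥ B *ᵥ δ ≠ 0) : rf B δ * rf B δ = 1 := by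
  unfold rf
  rw [sub_mul, mul_sub, mul_sub, one_mul, one_mul, mul_one, smul_mul_smul_comm, vmv_mul,
    dotProduct_comm (B *ᵥ δ), smul_smul]
  have h1 : 2 / (δ ⬝ᵥ B *ᵥ δ) * (2 / (δ ⬝ᵥ B *ᵥ δ)) * (δ ⬝ᵥ B *ᵥ δ) = 2 * (2 / (δ ⬝ᵥ B *ᵥ δ)) := by
    field_simp
  rw [h1]
  module

theorem wd_br {ι : Type} [Fintype ι] [DecidableEq ι] {B : Matrix ι ι K} (hB : Bᵀ = B)
    (δ w w' : ι → K) : wd B δ w * wd B δ w' - wd B δ w' * wd B δ w =
      (w ⬝ᵥ B *ᵥ δ) • wd B δ w' - (δ ⬝ᵥ B *ᵥ δ) • wd B w w' - (δ ⬝ᵥ B *ᵥ w') • wd B δ w := by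
  have e1 : ∀ a b : ι → K, (B *ᵥ a) ⬝ᵥ b = b ⬝ᵥ B *ᵥ a := fun a b => dotProduct_comm _ _
  unfold wd
  simp only [sub_mul, mul_sub, vmv_mul, e1]
  rw [bsymm hB w' δ, bsymm hB w' w, bsymm hB w δ]
  module

theorem wd_smul {ι : Type} [Fintype ι] [DecidableEq ι] (B : Matrix ι ι K) (c : K) (a b : ι → K) :
    wd B a (c • b) = c • wd B a b := by
  unfold wd
  rw [Matrix.mulVec_smul]
  ext x y
  simp only [Matrix.sub_apply, Matrix.smul_apply, vecMulVec_apply, Pi.smul_apply, smul_eq_mul]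
  ring

theorem wd_add {ι : Type} [Fintype ι] [DecidableEq ι] (B : Matrix ι ι K) (a b b' : ι → K) :
    wd B a (b + b') = wd B a b + wd B a b' := by
  unfold wd
  rw [Matrix.mulVec_add]
  ext x y
  simp only [Matrix.sub_apply, Matrix.add_apply, vecMulVec_apply, Pi.add_apply]
  ring

theorem wd_zero {ι : Type} [Fintype ι] [DecidableEq ι] (B : Matrix ι ι K) (a : ι → K) :
    wd B a 0 = 0 := by
  have h := wd_smul B (0 : K) a 0
  rwa [zero_smul, zero_smul] at h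

end forms

/-! ### The Lie algebra contains `so(T_i)` -/

section main

variable {ℓ : ℕ} [Fact ℓ.Prime] {n r : ℕ} {κ : Type} [Fintype κ] [DecidableEq κ] {Γ : Type}
  [Group Γ] {K : Type} [Field K]

/-- the matrix over `ℚ_ℓ` -/
def qm (g : Matrix (Fin n) (Fin n) ℤ_[ℓ]) : Matrix (Fin n) (Fin n) ℚ_[ℓ] :=
  g.map (algebraMap ℤ_[ℓ] ℚ_[ℓ])

theorem qm_mul (g h : Matrix (Fin n) (Fin n) ℤ_[ℓ]) : qm (g * h) = qm g * qm h :=
  Matrix.map_mul

theorem qm_one : qm (1 : Matrix (Fin n) (Fin n) ℤ_[ℓ]) = 1 :=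
  Matrix.map_one _ (map_zero _) (map_one _)

/-- the total representation -/
def tot (v : Γ →* Matrix κ κ ℚ_[ℓ]) (β : Γ →* Matrix (Fin n) (Fin n) ℤ_[ℓ]) :
    Γ →* Matrix (κ ⊕ Fin n) (κ ⊕ Fin n) ℚ_[ℓ] where
  toFun s := fromBlocks (v s) 0 0 (qm (β s))
  map_one' := by rw [map_one, map_one, qm_one, Matrix.fromBlocks_one]
  map_mul' s t := by
    rw [map_mul, map_mul, qm_mul, Matrix.fromBlocks_multiply]
    simp

variable {v : Γ →* Matrix κ κ ℚ_[ℓ]} {β : Γ →* Matrix (Fin n) (Fin n) ℤ_[ℓ]} {j : ℚ_[ℓ] →+* K}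

theorem tot_apply (s : Γ) : tot v β s = fromBlocks (v s) 0 0 (qm (β s)) := rfl

theorem map_dot (j : ℚ_[ℓ] →+* K) (a b : Fin n → ℚ_[ℓ]) :
    (fun x => j (a x)) ⬝ᵥ (fun x => j (b x)) = j (a ⬝ᵥ b) := by
  simp [dotProduct, map_sum]

theorem map_mulVec' (j : ℚ_[ℓ] →+* K) (A : Matrix (Fin n) (Fin n) ℚ_[ℓ]) (b : Fin n → ℚ_[ℓ]) :
    (A.map j) *ᵥ (fun x => j (b x)) = fun x => j ((A *ᵥ b) x) := by
  funext x
  simp [Matrix.mulVec, dotProduct, map_sum]

theorem map_rf (j : ℚ_[ℓ] →+* K) (Q : Matrix (Fin n) (Fin n) ℚ_[ℓ]) (δ : Fin n → ℚ_[ℓ]) :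
    (rf Q δ).map j = rf (Q.map j) (fun x => j (δ x)) := by
  unfold rf
  rw [map_mulVec', map_dot]
  ext x y
  simp only [Matrix.map_apply, Matrix.sub_apply, Matrix.smul_apply, vecMulVec_apply, smul_eq_mul,
    map_sub, map_mul, map_div₀, map_ofNat, Matrix.one_apply]
  split_ifs <;> simp

theorem gal_delta [CharZero K] [IsAlgClosed K] {Q : Matrix (Fin n) (Fin n) ℚ_[ℓ]} (hQ : Qᵀ = Q)
    (hβQ : ∀ s, (qm (β s))ᵀ * Q * qm (β s) = Q) {σ : Γ} {δ : Fin n → ℚ_[ℓ]}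
    (hδ : δ ⬝ᵥ Q *ᵥ δ ≠ 0) (hv : v σ = 1) (hσ : qm (β σ) = rf Q δ) {τ : Γ} (hτ : τ ∈ cong β) :
    wd (Bh κ (Q.map j)) (em κ fun x => j (δ x)) (em κ fun x => j ((qm (β τ) *ᵥ δ) x)) ∈
      LS (IG (tot v β) j) := by
  have hBs : (Bh κ (Q.map j))ᵀ = Bh κ (Q.map j) := Bh_symm (by
    rw [← Matrix.transpose_map, hQ])
  have hgg : qm (β τ) * qm (β τ⁻¹) = 1 := by
    rw [← qm_mul, ← map_mul, mul_inv_cancel, map_one, qm_one]
  obtain ⟨hc1, hc2⟩ := conj_rf (hβQ τ) hgg δ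
  have hσ' : qm (β σ⁻¹) = rf Q δ := by
    have h1 : qm (β σ) * qm (β σ⁻¹) = 1 := by
      rw [← qm_mul, ← map_mul, mul_inv_cancel, map_one, qm_one]
    calc qm (β σ⁻¹) = (rf Q δ * rf Q δ) * qm (β σ⁻¹) := by rw [rf_mul_self hδ, one_mul]
      _ = rf Q δ * (qm (β σ) * qm (β σ⁻¹)) := by rw [hσ, mul_assoc]
      _ = rf Q δ := by rw [h1, mul_one]
  have hv' : v σ⁻¹ = 1 := by
    have h1 : v σ * v σ⁻¹ = 1 := by rw [← map_mul, mul_inv_cancel, map_one]
    rwa [hv, one_mul] at h1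
  obtain ⟨γ, hγ⟩ : ∃ γ, γ = σ * τ * σ⁻¹ * τ⁻¹ := ⟨_, rfl⟩
  have hvγ : v γ = 1 := by
    rw [hγ, map_mul, map_mul, map_mul, hv, hv', one_mul, mul_one, ← map_mul, mul_inv_cancel,
      map_one]
  have hbγ : qm (β γ) = rf Q δ * rf Q (qm (β τ) *ᵥ δ) := by
    rw [hγ, map_mul, map_mul, map_mul, qm_mul, qm_mul, qm_mul, hσ, hσ', mul_assoc, mul_assoc,
      ← mul_assoc (qm (β τ)), hc1]
  have hγc : γ ∈ cong β := by
    have h1 := cong_normal β
    rw [hγ]
    exact (cong β).mul_mem (h1.conj_mem τ hτ σ) ((cong β).inv_mem hτ)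
  -- the commutator
  have hr : (tot v β γ).map j = rf (Bh κ (Q.map j)) (em κ fun x => j (δ x)) *
      rf (Bh κ (Q.map j)) (em κ fun x => j ((qm (β τ) *ᵥ δ) x)) := by
    rw [tot_apply, hvγ, hbγ, rf_em, rf_em, ← map_rf, ← map_rf, Matrix.fromBlocks_multiply,
      Matrix.fromBlocks_map, Matrix.map_one _ (map_zero _) (map_one _), Matrix.map_mul]
    simp
  refine refl_pair (d := j (δ ⬝ᵥ Q *ᵥ δ)) hBs ?_ ?_ ?_ ?_ ?_
  · exact (map_ne_zero j).2 hδ
  · rw [Bh_mulVec, em_dot, map_mulVec', map_dot]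
  · rw [Bh_mulVec, em_dot, map_mulVec', map_dot, hc2]
  · intro f hf
    rw [← hr]
    exact IG_pow γ hf
  · intro m hm h1
    rw [← hr, map_pow_j] at h1
    have h2 : tot v β (γ ^ m) = 1 := by
      apply Matrix.map_injective j.injective
      show (tot v β (γ ^ m)).map j = (1 : Matrix (κ ⊕ Fin n) (κ ⊕ Fin n) ℚ_[ℓ]).map j
      rw [h1, Matrix.map_one _ (map_zero _) (map_one _)]
    rw [tot_apply, ← Matrix.fromBlocks_one, Matrix.fromBlocks_inj] at h2
    have h3 : β γ ^ m = 1 := by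
      have h4 : qm (β (γ ^ m)) = qm 1 := by rw [h2.2.2.2, qm_one]
      rw [← map_pow]
      exact Matrix.map_injective (IsFractionRing.injective ℤ_[ℓ] ℚ_[ℓ]) h4
    have h4 := tf (mem_cong hγc) hm h3
    rw [← hr, tot_apply, hvγ, h4, qm_one, Matrix.fromBlocks_one,
      Matrix.map_one _ (map_zero _) (map_one _)]

/-- the vectors of colour `i` -/
def col {R : Type} [Ring R] (c : Fin n → Fin r) (i : Fin r) : Submodule R (Fin n → R) where
  carrier := {w | ∀ a, c a ≠ i → w a = 0}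
  zero_mem' := fun _ _ => rfl
  add_mem' := by
    intro x y hx hy a ha
    rw [Pi.add_apply, hx a ha, hy a ha, add_zero]
  smul_mem' := by
    intro z x hx a ha
    rw [Pi.smul_apply, hx a ha, smul_zero]

theorem mem_col {R : Type} [Ring R] {c : Fin n → Fin r} {i : Fin r} {w : Fin n → R} :
    w ∈ col c i ↔ ∀ a, c a ≠ i → w a = 0 := Iff.rfl

theorem col_sum {c : Fin n → Fin r} {i : Fin r} {w : Fin n → K} (hw : w ∈ col c i) :
    w = ∑ a, w a • (if c a = i then Pi.single a (1 : K) else 0) := by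
  funext b
  rw [Finset.sum_apply, Finset.sum_eq_single b]
  · by_cases hb : c b = i
    · simp [hb]
    · simp [hb, hw b hb]
  · intro a _ hab
    by_cases ha : c a = i
    · simp [ha, Pi.single_eq_of_ne (Ne.symm hab)]
    · simp [ha]
  · intro h
    exact absurd (Finset.mem_univ _) h

theorem gal_lie [CharZero K] [IsAlgClosed K] {Q : Matrix (Fin n) (Fin n) ℚ_[ℓ]} (hQ : Qᵀ = Q)
    (hβQ : ∀ s, (qm (β s))ᵀ * Q * qm (β s) = Q) {c : Fin n → Fin r} {i : Fin r}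
    (hbd : ∀ s, ∀ w ∈ col c i, qm (β s) *ᵥ w ∈ col c i)
    {σ : Γ} {δ : Fin n → ℚ_[ℓ]} (hδc : δ ∈ col c i)
    (hδ : δ ⬝ᵥ Q *ᵥ δ ≠ 0) (hv : v σ = 1) (hσ : qm (β σ) = rf Q δ)
    (hirr : ∀ W : Submodule ℚ_[ℓ] (Fin n → ℚ_[ℓ]), W ≤ col c i →
      (∀ s ∈ cong β, ∀ w ∈ W, qm (β s) *ᵥ w ∈ W) → W = ⊥ ∨ W = col c i)
    (a b : Fin n → K) (ha : a ∈ col c i) (hb : b ∈ col c i) :
    fromBlocks 0 0 0 (wd (Q.map j) a b) ∈ LS (IG (tot v β) j) := by
  have hBs : (Bh κ (Q.map j))ᵀ = Bh κ (Q.map j) := Bh_symm (by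
    rw [← Matrix.transpose_map, hQ])
  -- the span of the orbit
  obtain ⟨W, hW⟩ : ∃ W : Submodule ℚ_[ℓ] (Fin n → ℚ_[ℓ]),
      W = Submodule.span ℚ_[ℓ] {w | ∃ s ∈ cong β, w = qm (β s) *ᵥ δ} := ⟨_, rfl⟩
  have hWc : W ≤ col c i := by
    rw [hW, Submodule.span_le]
    rintro _ ⟨s, _, rfl⟩
    exact hbd s δ hδc
  have hWs : ∀ s ∈ cong β, ∀ w ∈ W, qm (β s) *ᵥ w ∈ W := by
    intro s hs w hw
    rw [hW] at hw ⊢
    induction hw using Submodule.span_induction with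
    | mem w h =>
      obtain ⟨t, ht, rfl⟩ := h
      refine Submodule.subset_span ⟨s * t, (cong β).mul_mem hs ht, ?_⟩
      rw [Matrix.mulVec_mulVec, ← qm_mul, ← map_mul]
    | zero => rw [Matrix.mulVec_zero]; exact Submodule.zero_mem _
    | add x y _ _ hx hy => rw [Matrix.mulVec_add]; exact Submodule.add_mem _ hx hy
    | smul z x _ hx => rw [Matrix.mulVec_smul]; exact Submodule.smul_mem _ _ hx
  have hδW : δ ∈ W := by
    rw [hW]
    refine Submodule.subset_span ⟨1, (cong β).one_mem, ?_⟩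
    rw [map_one, qm_one, Matrix.one_mulVec]
  have hWtop : W = col c i := by
    refine (hirr W hWc hWs).resolve_left ?_
    intro h0
    rw [h0, Submodule.mem_bot] at hδW
    apply hδ
    rw [hδW, zero_dotProduct]
  -- the operators with first vector `δ`
  have h1 : ∀ w ∈ W, wd (Bh κ (Q.map j)) (em κ fun x => j (δ x)) (em κ fun x => j (w x)) ∈
      LS (IG (tot v β) j) := by
    intro w hw
    rw [hW] at hw
    induction hw using Submodule.span_induction with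
    | mem w h =>
      obtain ⟨τ, hτ, rfl⟩ := h
      exact gal_delta hQ hβQ hδ hv hσ hτ
    | zero =>
      have : (em κ fun x => j ((0 : Fin n → ℚ_[ℓ]) x)) = 0 := by
        funext x
        rcases x with x | x <;> simp [em]
      rw [this, wd_zero]
      exact Submodule.zero_mem _
    | add x y _ _ hx hy =>
      have : (em κ fun a => j ((x + y) a)) = (em κ fun a => j (x a)) + em κ fun a => j (y a) := by
        funext x
        rcases x with x | x <;> simp [em]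
      rw [this, wd_add]
      exact Submodule.add_mem _ hx hy
    | smul z x _ hx =>
      have : (em κ fun a => j ((z • x) a)) = j z • em κ fun a => j (x a) := by
        funext x
        rcases x with x | x <;> simp [em]
      rw [this, wd_smul]
      exact Submodule.smul_mem _ _ hx
  have h2 : ∀ w ∈ (col c i : Submodule K (Fin n → K)),
      wd (Bh κ (Q.map j)) (em κ fun x => j (δ x)) (em κ w) ∈ LS (IG (tot v β) j) := by
    intro w hw
    have h3 : em κ w = ∑ a, w a • (em κ fun x =>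
        j ((if c a = i then Pi.single a (1 : ℚ_[ℓ]) else 0 : Fin n → ℚ_[ℓ]) x)) := by
      conv_lhs => rw [col_sum hw]
      funext x
      rcases x with x | x
      · simp [em]
      · simp only [em, Sum.elim_inr, Finset.sum_apply, Pi.smul_apply, smul_eq_mul]
        refine Finset.sum_congr rfl fun a _ => ?_
        congr 1
        by_cases ha : c a = i
        · rw [if_pos ha, if_pos ha]
          by_cases hx : x = a
          · subst hx; simp
          · simp [Pi.single_eq_of_ne hx]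
        · rw [if_neg ha, if_neg ha]
          simp
    rw [h3]
    have h4 : ∀ (F : Finset (Fin n)), wd (Bh κ (Q.map j)) (em κ fun x => j (δ x))
        (∑ a ∈ F, w a • (em κ fun x =>
        j ((if c a = i then Pi.single a (1 : ℚ_[ℓ]) else 0 : Fin n → ℚ_[ℓ]) x))) ∈
        LS (IG (tot v β) j) := by
      intro F
      induction F using Finset.induction_on with
      | empty => rw [Finset.sum_empty, wd_zero]; exact Submodule.zero_mem _
      | insert a F ha ih =>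
        rw [Finset.sum_insert ha, wd_add, wd_smul]
        refine Submodule.add_mem _ (Submodule.smul_mem _ _ (h1 _ ?_)) ih
        rw [hWtop, mem_col]
        intro b hb
        by_cases hai : c a = i
        · rw [if_pos hai, Pi.single_eq_of_ne]
          rintro rfl
          exact hb hai
        · rw [if_neg hai]
          rfl
    exact h4 _
  -- brackets
  have h5 := LS_br (h2 a ha) (h2 b hb)
  rw [wd_br hBs] at h5
  have h6 : (em κ fun x => j (δ x)) ⬝ᵥ Bh κ (Q.map j) *ᵥ (em κ fun x => j (δ x)) ≠ 0 := by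
    rw [Bh_mulVec, em_dot, map_mulVec', map_dot]
    exact (map_ne_zero j).2 hδ
  rw [← wd_em]
  rw [← Submodule.smul_mem_iff _ h6]
  have h7 := Submodule.sub_mem _ (Submodule.sub_mem _ (Submodule.smul_mem _
    (em κ a ⬝ᵥ Bh κ (Q.map j) *ᵥ em κ fun x => j (δ x)) (h2 b hb))
    (Submodule.smul_mem _
    ((em κ fun x => j (δ x)) ⬝ᵥ Bh κ (Q.map j) *ᵥ em κ b) (h2 a ha))) h5
  convert h7 using 1
  module

end main

end

end Pool.Agent.Y95.MT
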