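import Mathlib
import Pool.Agent.W544.PG.Defs4

/-!
# Mumford-Tate groups and the Mumford-Tate conjecture (definitions)
-/

set_option autoImplicit false

namespace Pool.Agent.Y95.MT

open MvPolynomial Matrix

noncomputable section

variable {ι : Type} [Fintype ι] [DecidableEq ι]

/-- The value of a rational polynomial in the entries at a matrix. -/
def vQ {R : Type} [CommRing R] [Algebra ℚ R] (g : Matrix ι ι R) (f : MvPolynomial (ι × ι) ℚ) : R :=
  aeval (fun q : ι × ι => g q.1 q.2) f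

/-- The set `G` of complex matrices is the set of complex points of an algebraic subgroup over `ℚ`
of the general linear group. -/
def IsQGroup (G : Set (Matrix ι ι ℂ)) : Prop :=
  (∃ P : Set (MvPolynomial (ι × ι) ℚ), ∀ g, g ∈ G ↔ g.det ≠ 0 ∧ ∀ f ∈ P, vQ g f = 0) ∧
  1 ∈ G ∧ (∀ a ∈ G, ∀ b ∈ G, a * b ∈ G) ∧ ∀ a ∈ G, a⁻¹ ∈ G

/-- The Mumford-Tate group (complex points): the smallest algebraic subgroup over `ℚ` which contains
`h(z)` for all `z`. -/
def MTgroup (h : ℂ → Matrix ι ι ℂ) : Set (Matrix ι ι ℂ) :=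
  {g | ∀ G, IsQGroup G → (∀ z, z ≠ 0 → h z ∈ G) → g ∈ G}

/-- The Mumford-Tate group, points over a field `R` of characteristic zero. -/
def InMT {R : Type} [Field R] [Algebra ℚ R] (h : ℂ → Matrix ι ι ℂ) (g : Matrix ι ι R) : Prop :=
  ∀ f : MvPolynomial (ι × ι) ℚ, (∀ m ∈ MTgroup h, vQ m f = 0) → vQ g f = 0

/-- The identity component of the Zariski closure of the image of `ρ`, points over the algebraic
closure. -/
def InG0 {ℓ : ℕ} [Fact ℓ.Prime] {Γ : Type} [Group Γ] (ρ : Γ →* Matrix ι ι ℚ_[ℓ])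
    (g : Matrix ι ι (AlgebraicClosure ℚ_[ℓ])) : Prop :=
  ∀ f : MvPolynomial (ι × ι) (AlgebraicClosure ℚ_[ℓ]),
    (∃ Δ : Subgroup Γ, Δ.FiniteIndex ∧ ∀ s ∈ Δ,
      aeval (fun q : ι × ι => algebraMap ℚ_[ℓ] (AlgebraicClosure ℚ_[ℓ]) (ρ s q.1 q.2)) f = 0) →
    aeval (fun q : ι × ι => g q.1 q.2) f = 0

/-- The Mumford-Tate conjecture for the Hodge structure `h` and the representation `ρ`. -/
def MTC {ℓ : ℕ} [Fact ℓ.Prime] {Γ : Type} [Group Γ] (h : ℂ → Matrix ι ι ℂ)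
    (ρ : Γ →* Matrix ι ι ℚ_[ℓ]) : Prop :=
  ∀ g : Matrix ι ι (AlgebraicClosure ℚ_[ℓ]), g.det ≠ 0 → (InG0 ρ g ↔ InMT h g)

/-- The action of `ℂ^×` on a Hodge structure of level two, twisted to weight zero. -/
def hT {n : ℕ} (T : Pool.Agent.W544.PG.HS n) (z : ℂ) : Matrix (Fin n) (Fin n) ℂ :=
  1 + ((starRingEnd ℂ z / z - 1) / 2) • (T.x * T.x + T.x) +
    ((z / starRingEnd ℂ z - 1) / 2) • (T.x * T.x - T.x)

end

end Pool.Agent.Y95.MT
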