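import Mathlib
import Pool.Agent.Y95.MT.Defs
import Pool.Agent.Y95.MT.Gen

/-!
# Mumford-Tate groups: basic properties
-/

set_option autoImplicit false
set_option linter.unusedSectionVars false

namespace Pool.Agent.Y95.MT

open MvPolynomial Matrix Pool.Agent.W528.ZC

noncomputable section

variable {ι : Type} [Fintype ι] [DecidableEq ι]

theorem vQ_map {R R' : Type} [CommRing R] [Algebra ℚ R] [CommRing R'] [Algebra ℚ R']
    (σ : R →+* R') (g : Matrix ι ι R) (f : MvPolynomial (ι × ι) ℚ) :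
    vQ (g.map σ) f = σ (vQ g f) := by
  unfold vQ
  have h : (σ.toRatAlgHom : R →ₐ[ℚ] R').comp (aeval fun q : ι × ι => g q.1 q.2) =
      aeval (fun q : ι × ι => (g.map σ) q.1 q.2) := by
    refine MvPolynomial.algHom_ext fun p => ?_
    rw [AlgHom.comp_apply, aeval_X, aeval_X]
    rfl
  exact (congrArg (fun F : MvPolynomial (ι × ι) ℚ →ₐ[ℚ] R' => F f) h).symm

/-- a rational polynomial with coefficients in `K` -/
def toK (K : Type) [Field K] [Algebra ℚ K] (f : MvPolynomial (ι × ι) ℚ) : MvPolynomial (ι × ι) K :=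
  MvPolynomial.map (algebraMap ℚ K) f

theorem ev_toK {K : Type} [Field K] [Algebra ℚ K] (g : Matrix ι ι K) (f : MvPolynomial (ι × ι) ℚ) :
    ev g (toK K f) = vQ g f := by
  unfold ev toK vQ
  exact MvPolynomial.aeval_map_algebraMap K _ f

section MT

variable {h : ℂ → Matrix ι ι ℂ}

theorem MT_one : 1 ∈ MTgroup h := fun _ hG _ => hG.2.1

theorem MT_mul {a b : Matrix ι ι ℂ} (ha : a ∈ MTgroup h) (hb : b ∈ MTgroup h) :
    a * b ∈ MTgroup h := fun G hG hz => hG.2.2.1 a (ha G hG hz) b (hb G hG hz)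

theorem MT_inv {a : Matrix ι ι ℂ} (ha : a ∈ MTgroup h) : a⁻¹ ∈ MTgroup h :=
  fun G hG hz => hG.2.2.2 a (ha G hG hz)

theorem MT_h {z : ℂ} (hz : z ≠ 0) : h z ∈ MTgroup h := fun _ _ hG => hG z hz

theorem MT_map {a : Matrix ι ι ℂ} (ha : a ∈ MTgroup h) (σ : ℂ →+* ℂ) : a.map σ ∈ MTgroup h := by
  intro G hG hz
  obtain ⟨⟨P, hP⟩, hG2⟩ := hG
  have h1 := (hP a).1 (ha G ⟨⟨P, hP⟩, hG2⟩ hz)
  rw [hP]
  refine ⟨?_, fun f hf => ?_⟩
  · have h2 := σ.map_det a
    rw [RingHom.mapMatrix_apply] at h2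
    rw [← h2]
    exact (map_ne_zero σ).2 h1.1
  · rw [vQ_map, h1.2 f hf, map_zero]

theorem GL_QGroup : IsQGroup {g : Matrix ι ι ℂ | g.det ≠ 0} := by
  refine ⟨⟨∅, fun g => ?_⟩, ?_, ?_, ?_⟩
  · simp
  · simp
  · intro a ha b hb
    show (a * b).det ≠ 0
    rw [Matrix.det_mul]
    exact mul_ne_zero ha hb
  · intro a ha
    show (a⁻¹).det ≠ 0
    rw [Matrix.det_nonsing_inv, Ring.inverse_eq_inv']
    exact inv_ne_zero ha

theorem MT_det (hh : ∀ z, z ≠ 0 → (h z).det ≠ 0) {a : Matrix ι ι ℂ} (ha : a ∈ MTgroup h) :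
    a.det ≠ 0 := ha _ GL_QGroup hh

theorem MT_of_InMT {a : Matrix ι ι ℂ} (hd : a.det ≠ 0) (ha : InMT h a) : a ∈ MTgroup h := by
  intro G hG hz
  obtain ⟨⟨P, hP⟩, h2⟩ := hG
  rw [hP]
  refine ⟨hd, fun f hf => ha f fun m hm => ?_⟩
  exact ((hP m).1 (hm G ⟨⟨P, hP⟩, h2⟩ hz)).2 f hf

/-- the ideal of the Mumford-Tate group -/
def SH (h : ℂ → Matrix ι ι ℂ) : Submodule ℂ (MvPolynomial (ι × ι) ℂ) where
  carrier := {f | ∀ g ∈ MTgroup h, ev g f = 0}
  zero_mem' := fun _ _ => map_zero _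
  add_mem' := by
    intro f f' hf hf' g hg
    rw [map_add, hf g hg, hf' g hg, add_zero]
  smul_mem' := by
    intro c f hf g hg
    rw [map_smul, hf g hg, smul_zero]

theorem mem_SH {f : MvPolynomial (ι × ι) ℂ} : f ∈ SH h ↔ ∀ g ∈ MTgroup h, ev g f = 0 := Iff.rfl

theorem MT_St {a : Matrix ι ι ℂ} (ha : a ∈ MTgroup h) : a ∈ St (SH h) := by
  intro f hf g hg
  rw [ev_sub, one_mul]
  exact hf _ (MT_mul hg ha)

theorem MT_of_InZS {a : Matrix ι ι ℂ} (hd : a.det ≠ 0) (ha : InZS (SH h) a) : a ∈ MTgroup h := by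
  refine MT_of_InMT hd fun f hf => ?_
  rw [← ev_toK]
  refine ha _ fun g hg => ?_
  rw [ev_toK]
  exact hf g hg

theorem MT_of_St {a : Matrix ι ι ℂ} (hd : a.det ≠ 0) (ha : a ∈ St (SH h)) : a ∈ MTgroup h := by
  refine MT_of_InZS hd (InZS_of_St ?_ ha)
  intro f hf
  exact hf 1 MT_one

theorem MT_conj {a y : Matrix ι ι ℂ} (ha : a ∈ MTgroup h) (hd : a.det ≠ 0)
    (hy : y ∈ LS (SH h)) : a * y * a⁻¹ ∈ LS (SH h) := by
  have hu : IsUnit a.det := isUnit_iff_ne_zero.2 hd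
  refine LS_conj (Matrix.mul_nonsing_inv a hu) (Matrix.nonsing_inv_mul a hu) ?_ ?_ hy
  · intro f hf g hg
    rw [ev_sub]
    exact hf _ (MT_mul (MT_mul ha hg) (MT_inv ha))
  · intro f hf g hg
    rw [ev_sub]
    exact hf _ (MT_mul (MT_mul (MT_inv ha) hg) ha)

/-! ### Automorphisms of the complex numbers -/

theorem ev_map_poly {K L : Type} [Field K] [Field L] (σ : K →+* L) (g : Matrix ι ι K)
    (f : MvPolynomial (ι × ι) K) : ev (g.map σ) (MvPolynomial.map σ f) = σ (ev g f) := by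
  induction f using MvPolynomial.induction_on with
  | C a => rw [MvPolynomial.map_C, ev_C, ev_C]
  | add f g hf hg => rw [map_add, map_add, hf, hg, map_add, map_add]
  | mul_X f q hf =>
    rw [map_mul, map_mul, map_mul, hf, MvPolynomial.map_X, ev_X, ev_X, map_mul]
    rfl

theorem D_map_poly {K L : Type} [Field K] [Field L] (σ : K →+* L) (y : Matrix ι ι K)
    (f : MvPolynomial (ι × ι) K) :
    MvPolynomial.map σ (D y f) = D (y.map σ) (MvPolynomial.map σ f) := by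
  induction f using MvPolynomial.induction_on with
  | C a => rw [D_C', MvPolynomial.map_C, D_C', map_zero]
  | add f g hf hg => rw [map_add, map_add, hf, hg, map_add, map_add]
  | mul_X f q hf =>
    rw [Derivation.leibniz, map_mul, MvPolynomial.map_X, Derivation.leibniz, map_add, ← hf,
      D_X', D_X']
    simp only [smul_eq_mul, map_mul, MvPolynomial.map_X]
    congr 2
    unfold lin
    rw [map_sum]
    refine Finset.sum_congr rfl fun j _ => ?_
    rw [map_mul, MvPolynomial.map_C, MvPolynomial.map_X]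
    rfl

theorem sub_map_poly {K L : Type} [Field K] [Field L] (σ : K →+* L) (a b : Matrix ι ι K)
    (f : MvPolynomial (ι × ι) K) :
    MvPolynomial.map σ (sub a b f) = sub (a.map σ) (b.map σ) (MvPolynomial.map σ f) := by
  induction f using MvPolynomial.induction_on with
  | C c =>
    have h1 := (sub a b).commutes c
    have h2 := (sub (a.map σ) (b.map σ)).commutes (σ c)
    rw [MvPolynomial.algebraMap_eq] at h1 h2
    rw [h1, MvPolynomial.map_C, h2]
  | add f g hf hg => rw [map_add, map_add, hf, hg, map_add, map_add]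
  | mul_X f q hf =>
    rw [map_mul, map_mul, map_mul, hf, MvPolynomial.map_X, map_mul]
    congr 1
    rw [Pool.Agent.W528.ZC.sub_X, Pool.Agent.W528.ZC.sub_X, map_sum]
    refine Finset.sum_congr rfl fun i _ => ?_
    rw [map_sum]
    refine Finset.sum_congr rfl fun j _ => ?_
    rw [map_mul, MvPolynomial.map_C, MvPolynomial.map_X, map_mul]
    rfl

theorem SH_map {f : MvPolynomial (ι × ι) ℂ} (hf : f ∈ SH h) (σ : ℂ ≃+* ℂ) :
    MvPolynomial.map (σ : ℂ →+* ℂ) f ∈ SH h := by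
  intro g hg
  have h1 : g = (g.map (σ.symm : ℂ →+* ℂ)).map (σ : ℂ →+* ℂ) := by
    ext i j
    simp
  rw [h1, ev_map_poly, hf _ (MT_map hg _), map_zero]

theorem LS_map {y : Matrix ι ι ℂ} (hy : y ∈ LS (SH h)) (σ : ℂ ≃+* ℂ) :
    y.map (σ : ℂ →+* ℂ) ∈ LS (SH h) := by
  intro f hf
  have h1 : f = MvPolynomial.map (σ : ℂ →+* ℂ) (MvPolynomial.map (σ.symm : ℂ →+* ℂ) f) := by
    rw [MvPolynomial.map_map]
    have h2 : (σ : ℂ →+* ℂ).comp (σ.symm : ℂ →+* ℂ) = RingHom.id ℂ := by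
      ext z
      simp
    rw [h2, MvPolynomial.map_id]
  rw [h1, ← D_map_poly]
  exact SH_map (hy _ (SH_map hf σ.symm)) σ

end MT

end

end Pool.Agent.Y95.MT
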