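import Mathlib
import Pool.Agent.W864.PG.SO2
import Pool.Agent.W918.PG.Ah2
import Pool.Agent.Y95.MT.Gen

set_option autoImplicit false

/-!
# A monoid which contains the rotations contains the block-diagonal rotations
-/

open Matrix Finset Module

namespace Pool.Agent.Y95.MT

open Pool.Agent.W544.PG Pool.Agent.W216.PG.SOI Pool.Agent.W864.PG

noncomputable section

variable {n r : ℕ} {c : Fin n → Fin r}

/-- the elements of `SO(n)` in the monoid, with their transpose -/
def GoodH (H : Submonoid (Matrix (Fin n) (Fin n) ℂ)) (g : Matrix (Fin n) (Fin n) ℂ) : Prop :=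
  gᵀ * g = 1 ∧ g.det = 1 ∧ g ∈ H ∧ gᵀ ∈ H

lemma GoodH.mul {H : Submonoid (Matrix (Fin n) (Fin n) ℂ)} {g h : Matrix (Fin n) (Fin n) ℂ}
    (hg : GoodH H g) (hh : GoodH H h) : GoodH H (g * h) := by
  refine ⟨?_, ?_, H.mul_mem hg.2.2.1 hh.2.2.1, ?_⟩
  · rw [transpose_mul, mul_assoc, ← mul_assoc gᵀ, hg.1, one_mul, hh.1]
  · rw [Matrix.det_mul, hg.2.1, hh.2.1, one_mul]
  · rw [transpose_mul]
    exact H.mul_mem hh.2.2.2 hg.2.2.2

/-- a rotation which maps `u` to `v` -/
lemma moveH {H : Submonoid (Matrix (Fin n) (Fin n) ℂ)} {i : Fin r}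
    (hs : ∀ Z : Matrix (Fin n) (Fin n) ℂ, Zᵀ = -Z → BD c Z → Z * Z * Z = -Z → ∀ θ, rot Z θ ∈ H) {u v : Fin n → ℂ}
    (hus : ∀ a, c a ≠ i → u a = 0) (hvs : ∀ a, c a ≠ i → v a = 0)
    (hu : u ⬝ᵥ u = 1) (hv : v ⬝ᵥ v = 1) (huv : (u ⬝ᵥ v) ^ 2 ≠ 1) :
    ∃ g, GoodH H g ∧ g *ᵥ u = v ∧ ∀ x, u ⬝ᵥ x = 0 → v ⬝ᵥ x = 0 → g *ᵥ x = x := by
  obtain ⟨c', hc⟩ : ∃ c', c' = u ⬝ᵥ v := ⟨_, rfl⟩
  obtain ⟨d, hd⟩ := IsAlgClosed.exists_pow_nat_eq (1 - c' ^ 2) (n := 2) (by norm_num)
  have hd0 : d ≠ 0 := by
    rintro rfl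
    apply huv
    rw [← hc]
    linear_combination hd
  obtain ⟨θ, hcos, hsin⟩ := exists_angle (c := c') (d := d) (by rw [hd]; ring)
  obtain ⟨b, hb⟩ : ∃ b, b = d⁻¹ • (v - c' • u) := ⟨_, rfl⟩
  have hbs : ∀ a, c a ≠ i → b a = 0 := by
    intro a ha
    rw [hb]
    simp [hus a ha, hvs a ha]
  have hub : u ⬝ᵥ b = 0 := by
    rw [hb, dotProduct_smul, dotProduct_sub, dotProduct_smul, hu, ← hc, smul_eq_mul, smul_eq_mul]
    ring
  have hbb : b ⬝ᵥ b = 1 := by
    have h1 : (v - c' • u) ⬝ᵥ (v - c' • u) = d ^ 2 := by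
      rw [sub_dotProduct, dotProduct_sub, dotProduct_sub, dotProduct_smul, dotProduct_smul,
        smul_dotProduct, smul_dotProduct, hu, hv, dotProduct_comm v u, ← hc, hd]
      simp only [smul_eq_mul]
      ring
    rw [hb, dotProduct_smul, smul_dotProduct, h1, smul_eq_mul, smul_eq_mul]
    field_simp
  have hbu : b ⬝ᵥ u = 0 := by rw [dotProduct_comm, hub]
  have hvb : v = c' • u + d • b := by
    rw [hb, smul_smul, mul_inv_cancel₀ hd0, one_smul]
    abel
  obtain ⟨Z, hZdef⟩ : ∃ Z, Z = vecMulVec b u - vecMulVec u b := ⟨_, rfl⟩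
  have hZ : Zᵀ = -Z := by
    rw [hZdef, transpose_sub, transpose_vecMulVec, transpose_vecMulVec, neg_sub]
  have hZB : BD c Z := by
    intro a a' haa
    rw [hZdef, Matrix.sub_apply, vecMulVec_apply, vecMulVec_apply]
    by_cases ha : c a = i
    · have ha' : c a' ≠ i := fun h => haa (ha.trans h.symm)
      rw [hus a' ha', hbs a' ha']
      ring
    · rw [hus a ha, hbs a ha]
      ring
  have hZx : ∀ x, Z *ᵥ x = (u ⬝ᵥ x) • b - (b ⬝ᵥ x) • u := by
    intro x
    rw [hZdef, Matrix.sub_mulVec, vecMulVec_mulVec, vecMulVec_mulVec, op_smul_eq_smul,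
      op_smul_eq_smul]
  have hZu : Z *ᵥ u = b := by rw [hZx, hu, hbu, one_smul, zero_smul, sub_zero]
  have hZb : Z *ᵥ b = -u := by rw [hZx, hub, hbb, one_smul, zero_smul, zero_sub]
  have hZ3 : Z * Z * Z = -Z := by
    apply Matrix.toLin'.injective
    apply LinearMap.ext
    intro x
    rw [Matrix.toLin'_apply, Matrix.toLin'_apply, ← Matrix.mulVec_mulVec, ← Matrix.mulVec_mulVec,
      Matrix.neg_mulVec, hZx x, Matrix.mulVec_sub, Matrix.mulVec_smul, Matrix.mulVec_smul, hZu,
      hZb, Matrix.mulVec_sub, Matrix.mulVec_smul, Matrix.mulVec_smul, Matrix.mulVec_neg, hZu,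
      hZb]
    module
  refine ⟨rot Z θ, ⟨rot_orth hZ hZ3 θ, rot_det hZ hZ3 θ, hs Z hZ hZB hZ3 θ, by rw [rot_t hZ]; exact hs Z hZ hZB hZ3 _⟩, ?_, ?_⟩
  · unfold rot
    rw [Matrix.add_mulVec, Matrix.add_mulVec, Matrix.one_mulVec, Matrix.smul_mulVec,
      Matrix.smul_mulVec, ← Matrix.mulVec_mulVec, hZu, hZb, hcos, hsin]
    rw [hvb]
    module
  · intro x hux hvx
    have hbx : b ⬝ᵥ x = 0 := by
      rw [hb, smul_dotProduct, sub_dotProduct, smul_dotProduct, hux, hvx]
      simp
    have hZx0 : Z *ᵥ x = 0 := by rw [hZx, hux, hbx, zero_smul, zero_smul, sub_zero]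
    unfold rot
    rw [Matrix.add_mulVec, Matrix.add_mulVec, Matrix.one_mulVec, Matrix.smul_mulVec,
      Matrix.smul_mulVec, ← Matrix.mulVec_mulVec, hZx0, Matrix.mulVec_zero, smul_zero, smul_zero,
      add_zero, add_zero]

theorem claimH {H : Submonoid (Matrix (Fin n) (Fin n) ℂ)} {i : Fin r}
    (hs : ∀ Z : Matrix (Fin n) (Fin n) ℂ, Zᵀ = -Z → BD c Z → Z * Z * Z = -Z → ∀ θ, rot Z θ ∈ H) (A : Finset (Fin n)) :
    (∀ a ∈ A, c a = i) → ∀ R : Matrix (Fin n) (Fin n) ℂ, Rᵀ * R = 1 → R.det = 1 →
      (∀ b : Fin n, b ∉ A → R *ᵥ e n b = e n b) → R ∈ H := by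
  induction A using Finset.induction_on with
  | empty =>
    intro _ R _ _ hfix
    have hR1 : R = 1 := by
      apply ext_e
      intro b
      rw [hfix b (Finset.notMem_empty b), Matrix.one_mulVec]
    rw [hR1]; exact H.one_mem
  | insert a A haA ih =>
    intro hA R hR hdet hfix
    set v := R *ᵥ e n a with hv
    have hvv : v ⬝ᵥ v = 1 := by
      rw [hv, orth_dot hR, e_dot_e, if_pos rfl]
    have haa : e n a ⬝ᵥ e n a = 1 := by rw [e_dot_e, if_pos rfl]
    have hvb : ∀ b, b ∉ insert a A → v ⬝ᵥ e n b = 0 := by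
      intro b hb
      have h1 := orth_dot hR (e n a) (e n b)
      rw [hfix b hb, e_dot_e, if_neg] at h1
      · exact h1
      · rintro rfl
        exact hb (Finset.mem_insert_self _ _)
    have hv0 : ∀ b, b ∉ insert a A → v b = 0 := by
      intro b hb
      have h3 := hvb b hb
      rw [dotProduct_comm, e_dot] at h3
      exact h3
    rcases A.eq_empty_or_nonempty with hAe | hAn
    · -- only one vector is moved
      subst hAe
      have hmem : ∀ b, b ≠ a → b ∉ insert a (∅ : Finset (Fin n)) := by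
        intro b hb hb'
        rw [Finset.mem_insert] at hb'
        rcases hb' with hb' | hb'
        · exact hb hb'
        · exact absurd hb' (Finset.notMem_empty b)
      have hRd : R = Matrix.diagonal (fun b => if b = a then v a else 1) := by
        apply ext_e
        intro b
        funext j
        have e1 : (Matrix.diagonal (fun b => if b = a then v a else 1) *ᵥ e n b) j =
            (if j = a then v a else 1) * e n b j := by
          rw [Matrix.mulVec_diagonal]
        rw [e1]
        by_cases hb : b = a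
        · subst hb
          rw [← hv]
          by_cases hj : j = b
          · subst hj
            rw [if_pos rfl]
            simp [e]
          · rw [hv0 j (hmem j hj), if_neg hj, one_mul]
            simp [e, hj]
        · rw [hfix b (hmem b hb)]
          by_cases hj : j = a
          · subst hj
            rw [if_pos rfl]
            simp [e, Ne.symm hb]
          · rw [if_neg hj, one_mul]
      have hvo : v a = 1 := by
        rw [hRd, Matrix.det_diagonal, Finset.prod_ite_eq' univ a] at hdet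
        simpa using hdet
      have hR1 : R = 1 := by
        rw [hRd, hvo]
        simp
      rw [hR1]; exact H.one_mem
    · -- it is enough to map `v` to `e a`
      have hfin : ∀ g, GoodH H g → g *ᵥ v = e n a →
          (∀ b, b ∉ insert a A → g *ᵥ e n b = e n b) → R ∈ H := by
        intro g hg hgv hgi
        have h1 := ih (fun b hb => hA b (Finset.mem_insert_of_mem hb)) (g * R) (by
            rw [transpose_mul, mul_assoc, ← mul_assoc gᵀ, hg.1, one_mul, hR])
          (by rw [Matrix.det_mul, hg.2.1, hdet, one_mul]) (by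
            intro b hb
            rw [← Matrix.mulVec_mulVec]
            by_cases hba : b = a
            · rw [hba, ← hv, hgv]
            · have hb' : b ∉ insert a A := by
                rw [Finset.mem_insert]
                rintro (h | h)
                · exact hba h
                · exact hb h
              rw [hfix b hb', hgi b hb'])
        have h2 := H.mul_mem hg.2.2.2 h1
        rwa [← mul_assoc, hg.1, one_mul] at h2
      have hsup : ∀ b, c b ≠ i → b ∉ insert a A := fun b hb hb' => hb (hA b hb')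
      have hvs : ∀ b, c b ≠ i → v b = 0 := fun b hb => hv0 b (hsup b hb)
      have hes : ∀ j ∈ insert a A, ∀ b, c b ≠ i → e n j b = 0 := by
        intro j hj b hb
        have hbj : b ≠ j := by
          rintro rfl
          exact hb (hA b hj)
        simp [e, hbj]
      by_cases hB : (v ⬝ᵥ e n a) ^ 2 ≠ 1
      · obtain ⟨g, hg, hgv, hgx⟩ := moveH hs hvs (hes a (Finset.mem_insert_self _ _)) hvv haa hB
        refine hfin g hg hgv fun b hb => hgx _ (hvb b hb) ?_
        rw [e_dot_e, if_neg]
        rintro rfl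
        exact hb (Finset.mem_insert_self _ _)
      · push Not at hB
        rw [dotProduct_comm, e_dot] at hB
        obtain ⟨j, hjA, hj⟩ : ∃ j ∈ A, v j ^ 2 ≠ 1 := by
          by_contra hcon
          push Not at hcon
          have h1 : ∑ b : Fin n, v b ^ 2 = 1 := by
            rw [← hvv]
            simp only [dotProduct, sq]
          have h2 : ∀ b : Fin n, v b ^ 2 = if b ∈ insert a A then 1 else 0 := by
            intro b
            by_cases hb : b ∈ insert a A
            · rw [if_pos hb]
              rcases Finset.mem_insert.1 hb with h | h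
              · rw [h]
                exact hB
              · exact hcon b h
            · rw [if_neg hb, hv0 b hb]
              norm_num
          simp only [h2] at h1
          rw [Finset.sum_boole] at h1
          have h4 : (univ.filter fun b : Fin n => b ∈ insert a A).card = 1 := by
            exact_mod_cast h1
          have h5 : (univ.filter fun b : Fin n => b ∈ insert a A) = insert a A := by
            ext b
            simp
          rw [h5, Finset.card_insert_of_notMem haA] at h4
          have := hAn.card_pos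
          omega
        have hjI : j ∈ insert a A := Finset.mem_insert_of_mem hjA
        have hjj : e n j ⬝ᵥ e n j = 1 := by rw [e_dot_e, if_pos rfl]
        have hja : j ≠ a := by
          rintro rfl
          exact haA hjA
        obtain ⟨g1, hg1, hgv1, hgx1⟩ := moveH hs hvs (hes j hjI) hvv hjj
          (by rw [dotProduct_comm, e_dot]; exact hj)
        obtain ⟨g2, hg2, hgv2, hgx2⟩ := moveH hs (hes j hjI)
          (hes a (Finset.mem_insert_self _ _)) hjj haa (by
          rw [e_dot_e, if_neg hja]; norm_num)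
        refine hfin (g2 * g1) (hg2.mul hg1) (by rw [← Matrix.mulVec_mulVec, hgv1, hgv2]) ?_
        intro b hb
        have hjb : e n j ⬝ᵥ e n b = 0 := by
          rw [e_dot_e, if_neg]
          rintro rfl
          exact hb hjI
        have hab : e n a ⬝ᵥ e n b = 0 := by
          rw [e_dot_e, if_neg]
          rintro rfl
          exact hb (Finset.mem_insert_self _ _)
        rw [← Matrix.mulVec_mulVec, hgx1 _ (hvb b hb) hjb, hgx2 _ hjb hab]


theorem so_gen {H : Submonoid (Matrix (Fin n) (Fin n) ℂ)}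
    (hs : ∀ Z : Matrix (Fin n) (Fin n) ℂ, Zᵀ = -Z → BD c Z → Z * Z * Z = -Z → ∀ θ, rot Z θ ∈ H)
    {R : Matrix (Fin n) (Fin n) ℂ} (hR : Rᵀ * R = 1) (hB : BD c R)
    (hdet : ∀ i, (bl c i R).det = 1) : R ∈ H := by
  have h1 : ∀ i, bl c i R ∈ H := by
    intro i
    refine claimH (i := i) hs (univ.filter fun a => c a = i) (fun a ha => (Finset.mem_filter.1 ha).2)
      (bl c i R) (bl_orth hR hB i) (hdet i) ?_
    intro b hb
    have hb' : c b ≠ i := by
      intro h
      exact hb (Finset.mem_filter.2 ⟨Finset.mem_univ _, h⟩)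
    funext a
    have h2 : (bl c i R *ᵥ e n b) a = bl c i R a b := by simp [e]
    rw [h2, bl_of_ne_right R a hb', e, Pi.single_apply]
  have h2 : ∀ S : Finset (Fin r), blS c S R ∈ H := by
    intro S
    induction S using Finset.induction_on with
    | empty =>
      have e1 : blS c ∅ R = 1 := by
        ext a b
        rw [blS_apply, if_neg (fun h => absurd h.1 (Finset.notMem_empty _)), Matrix.one_apply]
      rw [e1]
      exact H.one_mem
    | insert i S hi ih =>
      rw [blS_insert hB hi]
      exact H.mul_mem (h1 i) ih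
  have h3 : blS c univ R = R := by
    ext a b
    rw [blS_apply, if_pos ⟨Finset.mem_univ _, Finset.mem_univ _⟩]
  rw [← h3]
  exact h2 univ

theorem rot_eq_pw {Z : Matrix (Fin n) (Fin n) ℂ} (hZ : Z * Z * Z = -Z) (θ : ℂ) :
    rot Z θ = pw F3 (E3 ((-Complex.I) • Z)) (Complex.exp (θ * Complex.I)) := by
  rw [pw3]
  unfold rot
  rw [← Complex.exp_neg, Complex.sin, Complex.cos]
  simp only [smul_mul_smul_comm]
  have h1 : -Complex.I * -Complex.I = -1 := by
    rw [neg_mul_neg, Complex.I_mul_I]
  rw [h1, neg_mul]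
  ext a b
  simp only [Matrix.add_apply, Matrix.sub_apply, Matrix.smul_apply, smul_eq_mul]
  linear_combination ((Complex.exp (-(θ * Complex.I)) - Complex.exp (θ * Complex.I)) / 2 *
    Complex.I * Z a b) * (0 : ℂ)

/-- the group generated by the one-parameter groups of `so(Q)` -/
theorem so_gen_Q {Q : Matrix (Fin n) (Fin n) ℂ} (hQ : Qᵀ = Q) (hQb : BD c Q) (hQd : Q.det ≠ 0)
    {H : Submonoid (Matrix (Fin n) (Fin n) ℂ)}
    (hs : ∀ Z : Matrix (Fin n) (Fin n) ℂ, Zᵀ * Q + Q * Z = 0 → BD c Z → Z * Z * Z = Z →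
      ∀ t : ℂ, t ≠ 0 → pw F3 (E3 Z) t ∈ H)
    {g : Matrix (Fin n) (Fin n) ℂ} (hg : gᵀ * Q * g = Q) (hB : BD c g)
    (hdet : ∀ i, (bl c i g).det = 1) : g ∈ H := by
  obtain ⟨u, hub, hu⟩ := W918.PG.orthBD c Q hQb hQ hQd
  obtain ⟨u', hu'⟩ : ∃ u', u' = uᵀ * Q := ⟨_, rfl⟩
  have e1 : u' * u = 1 := by rw [hu', hu]
  have e2 : u * u' = 1 := mul_eq_one_comm.1 e1
  have t1 : uᵀ * u'ᵀ = 1 := by rw [← Matrix.transpose_mul, e1, Matrix.transpose_one]
  have t2 : u'ᵀ * uᵀ = 1 := by rw [← Matrix.transpose_mul, e2, Matrix.transpose_one]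
  have hQu : Q = u'ᵀ * u' := by
    calc Q = (u'ᵀ * uᵀ) * Q * (u * u') := by rw [t2, e2, Matrix.one_mul, Matrix.mul_one]
      _ = u'ᵀ * (uᵀ * Q * u) * u' := by simp only [Matrix.mul_assoc]
      _ = u'ᵀ * u' := by rw [hu, Matrix.mul_one]
  have hub' : BD c u' := by rw [hu']; exact W918.PG.bd_mul (fun a b h => hub b a (Ne.symm h)) hQb
  -- the monoid in the new coordinates
  let H' : Submonoid (Matrix (Fin n) (Fin n) ℂ) :=
    { carrier := {x | u * x * u' ∈ H}
      one_mem' := by
        show u * 1 * u' ∈ H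
        rw [mul_one, e2]
        exact H.one_mem
      mul_mem' := by
        intro x y hx hy
        have h1 := H.mul_mem hx hy
        have h2 : u * x * u' * (u * y * u') = u * (x * y) * u' := by
          calc u * x * u' * (u * y * u') = u * x * (u' * u) * y * u' := by
                simp only [Matrix.mul_assoc]
            _ = u * (x * y) * u' := by rw [e1, mul_one]; simp only [Matrix.mul_assoc]
        show u * (x * y) * u' ∈ H
        rwa [← h2] }
  have hmem : ∀ x, x ∈ H' ↔ u * x * u' ∈ H := fun x => Iff.rfl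
  have key : u' * g * u ∈ H' := by
    refine so_gen (c := c) ?_ ?_ ?_ ?_
    · intro Z hZ hZb hZ3 θ
      rw [hmem, rot_eq_pw hZ3]
      have h3 : (-Complex.I) • Z * (-Complex.I) • Z * (-Complex.I) • Z = (-Complex.I) • Z := by
        rw [smul_mul_smul_comm, smul_mul_smul_comm, hZ3, smul_neg, ← neg_smul]
        congr 1
        linear_combination Complex.I * Complex.I_mul_I
      have h4 : ∀ (Y : Matrix (Fin n) (Fin n) ℂ) (t : ℂ),
          u * pw F3 (E3 Y) t * u' = pw F3 (E3 (u * Y * u')) t := by
        intro Y t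
        have h5 : u * Y * u' * (u * Y * u') = u * (Y * Y) * u' := by
          calc u * Y * u' * (u * Y * u') = u * Y * (u' * u) * Y * u' := by
                simp only [Matrix.mul_assoc]
            _ = u * (Y * Y) * u' := by rw [e1, mul_one]; simp only [Matrix.mul_assoc]
        rw [pw3, pw3, h5]
        simp only [Matrix.mul_add, Matrix.add_mul, Matrix.mul_sub, Matrix.sub_mul,
          Matrix.mul_smul, Matrix.smul_mul, mul_one, e2]
      rw [h4]
      refine hs _ ?_ ?_ ?_ _ (Complex.exp_ne_zero _)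
      · have h5 : ((-Complex.I) • Z)ᵀ = -((-Complex.I) • Z) := by
          rw [Matrix.transpose_smul, hZ, smul_neg]
        generalize (-Complex.I) • Z = Y at h5
        rw [hQu]
        calc (u * Y * u')ᵀ * (u'ᵀ * u') + u'ᵀ * u' * (u * Y * u')
            = u'ᵀ * Yᵀ * (uᵀ * u'ᵀ) * u' + u'ᵀ * (u' * u) * Y * u' := by
              simp only [Matrix.transpose_mul, Matrix.mul_assoc]
          _ = 0 := by
              rw [t1, e1, h5]
              simp only [Matrix.mul_one, Matrix.mul_neg, Matrix.neg_mul, neg_add_cancel]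
      · refine W918.PG.bd_mul (W918.PG.bd_mul hub ?_) hub'
        intro a b hab
        rw [Matrix.smul_apply, hZb a b hab, smul_zero]
      · generalize (-Complex.I) • Z = Y at h3
        calc u * Y * u' * (u * Y * u') * (u * Y * u') =
              u * Y * (u' * u) * Y * (u' * u) * Y * u' := by simp only [Matrix.mul_assoc]
          _ = u * (Y * Y * Y) * u' := by rw [e1]; simp only [mul_one, Matrix.mul_assoc]
          _ = u * Y * u' := by rw [h3]
    · rw [Matrix.transpose_mul, Matrix.transpose_mul]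
      calc uᵀ * (gᵀ * u'ᵀ) * (u' * g * u) = uᵀ * (gᵀ * (u'ᵀ * u') * g) * u := by
            simp only [Matrix.mul_assoc]
        _ = 1 := by rw [← hQu, hg, hu]
    · exact W918.PG.bd_mul (W918.PG.bd_mul hub' hB) hub
    · intro i
      rw [W918.PG.bl_mul (W918.PG.bd_mul hub' hB) hub, W918.PG.bl_mul hub' hB, Matrix.det_mul,
        Matrix.det_mul, hdet i, mul_one, ← Matrix.det_mul, ← W918.PG.bl_mul hub' hub, e1,
        W918.PG.bl_one, Matrix.det_one]
  rw [hmem] at key
  have h9 : u * (u' * g * u) * u' = g := by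
    calc u * (u' * g * u) * u' = (u * u') * g * (u * u') := by simp only [Matrix.mul_assoc]
      _ = g := by rw [e2, one_mul, mul_one]
  rwa [h9] at key

end

end Pool.Agent.Y95.MT
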