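import Mathlib
import Pool.Agent.Y95.MT.Basic
import Pool.Agent.Y95.MT.SOgen

/-!
# The product group
-/

set_option autoImplicit false
set_option linter.unusedSectionVars false

namespace Pool.Agent.Y95.MT

open MvPolynomial Matrix Pool.Agent.W528.ZC Pool.Agent.W544.PG

noncomputable section

variable {κ : Type} [Fintype κ] [DecidableEq κ] {n r : ℕ} {c : Fin n → Fin r}

/-- The product of the special orthogonal groups of the blocks. -/
def InSO {R : Type} [CommRing R] [Algebra ℚ R] (c : Fin n → Fin r) (Q : Matrix (Fin n) (Fin n) ℚ)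
    (t : Matrix (Fin n) (Fin n) R) : Prop :=
  tᵀ * Q.map (algebraMap ℚ R) * t = Q.map (algebraMap ℚ R) ∧ BD c t ∧ ∀ i, (bl c i t).det = 1

theorem bl_map' {R R' : Type} [CommRing R] [CommRing R'] (σ : R →+* R') (c : Fin n → Fin r)
    (i : Fin r) (A : Matrix (Fin n) (Fin n) R) : bl c i (A.map σ) = (bl c i A).map σ := by
  ext a b
  unfold bl
  simp only [Matrix.of_apply, Matrix.map_apply]
  split_ifs <;> simp

theorem det_bl_map {R R' : Type} [CommRing R] [CommRing R'] (σ : R →+* R') (c : Fin n → Fin r)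
    (i : Fin r) (A : Matrix (Fin n) (Fin n) R) : (bl c i (A.map σ)).det = σ (bl c i A).det := by
  rw [bl_map']
  exact (σ.map_det _).symm

theorem map_alg {R R' : Type} [CommRing R] [Algebra ℚ R] [CommRing R'] [Algebra ℚ R']
    (σ : R →+* R') (Q : Matrix (Fin n) (Fin n) ℚ) :
    (Q.map (algebraMap ℚ R)).map σ = Q.map (algebraMap ℚ R') := by
  ext a b
  simp

theorem InSO_map {R R' : Type} [CommRing R] [Algebra ℚ R] [CommRing R'] [Algebra ℚ R']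
    (σ : R →+* R') {Q : Matrix (Fin n) (Fin n) ℚ} {t : Matrix (Fin n) (Fin n) R}
    (ht : InSO c Q t) : InSO c Q (t.map σ) := by
  obtain ⟨h1, h2, h3⟩ := ht
  refine ⟨?_, fun a b hab => ?_, fun i => ?_⟩
  · rw [← map_alg σ, ← Matrix.transpose_map, ← Matrix.map_mul, ← Matrix.map_mul, h1]
  · rw [Matrix.map_apply, h2 a b hab, map_zero]
  · rw [det_bl_map, h3 i, map_one]

/-- the generic matrix -/
def XM (ι : Type) : Matrix ι ι (MvPolynomial (ι × ι) ℚ) := Matrix.of fun i j => X (i, j)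

theorem XM_map {ι : Type} [Fintype ι] [DecidableEq ι] {R : Type} [CommRing R] [Algebra ℚ R]
    (g : Matrix ι ι R) : (XM ι).map (aeval fun q : ι × ι => g q.1 q.2) = g := by
  ext i j
  simp [XM]

/-- the equations of the product of the special orthogonal groups -/
def PSO (κ : Type) [Fintype κ] (c : Fin n → Fin r) (Q : Matrix (Fin n) (Fin n) ℚ) :
    Set (MvPolynomial ((κ ⊕ Fin n) × (κ ⊕ Fin n)) ℚ) :=
  {f | (∃ a b, f = XM (κ ⊕ Fin n) (Sum.inl a) (Sum.inr b)) ∨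
    (∃ a b, f = XM (κ ⊕ Fin n) (Sum.inr a) (Sum.inl b)) ∨
    (∃ a b, f = ((XM (κ ⊕ Fin n)).toBlocks₂₂ᵀ * Q.map C * (XM (κ ⊕ Fin n)).toBlocks₂₂ -
      Q.map C : Matrix (Fin n) (Fin n) _) a b) ∨
    (∃ a b, c a ≠ c b ∧ f = (XM (κ ⊕ Fin n)).toBlocks₂₂ a b) ∨
    ∃ i, f = (bl c i (XM (κ ⊕ Fin n)).toBlocks₂₂).det - 1}

theorem PSO_iff {R : Type} [CommRing R] [Algebra ℚ R] {Q : Matrix (Fin n) (Fin n) ℚ}
    (g : Matrix (κ ⊕ Fin n) (κ ⊕ Fin n) R) :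
    (∀ f ∈ PSO κ c Q, vQ g f = 0) ↔
      g = fromBlocks g.toBlocks₁₁ 0 0 g.toBlocks₂₂ ∧ InSO c Q g.toBlocks₂₂ := by
  obtain ⟨φ, hφ⟩ : ∃ φ : MvPolynomial ((κ ⊕ Fin n) × (κ ⊕ Fin n)) ℚ →ₐ[ℚ] R,
    φ = aeval fun q : (κ ⊕ Fin n) × (κ ⊕ Fin n) => g q.1 q.2 := ⟨_, rfl⟩
  have hv : ∀ f, vQ g f = φ f := fun f => by rw [hφ]; rfl
  have hX : ∀ i j, φ (XM (κ ⊕ Fin n) i j) = g i j := by
    intro i j
    rw [hφ]
    simp [XM]
  have hX2 : ((XM (κ ⊕ Fin n)).toBlocks₂₂).map (φ : _ →+* R) = g.toBlocks₂₂ := by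
    ext i j
    exact hX _ _
  have hC : (Q.map (C : ℚ →+* MvPolynomial ((κ ⊕ Fin n) × (κ ⊕ Fin n)) ℚ)).map (φ : _ →+* R) =
      Q.map (algebraMap ℚ R) := by
    ext i j
    exact φ.commutes (Q i j)
  have h3 : ∀ a b, φ (((XM (κ ⊕ Fin n)).toBlocks₂₂ᵀ * Q.map C * (XM (κ ⊕ Fin n)).toBlocks₂₂ -
      Q.map C : Matrix (Fin n) (Fin n) _) a b) =
      (g.toBlocks₂₂ᵀ * Q.map (algebraMap ℚ R) * g.toBlocks₂₂ - Q.map (algebraMap ℚ R)) a b := by
    intro a b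
    have h4 : (((XM (κ ⊕ Fin n)).toBlocks₂₂ᵀ * Q.map C * (XM (κ ⊕ Fin n)).toBlocks₂₂ -
      Q.map C : Matrix (Fin n) (Fin n) _)).map (φ : _ →+* R) =
      g.toBlocks₂₂ᵀ * Q.map (algebraMap ℚ R) * g.toBlocks₂₂ - Q.map (algebraMap ℚ R) := by
      rw [Matrix.map_sub _ (map_sub _), Matrix.map_mul, Matrix.map_mul, Matrix.transpose_map, hX2,
        hC]
    exact congrFun (congrFun h4 a) b
  have h5 : ∀ i, φ ((bl c i (XM (κ ⊕ Fin n)).toBlocks₂₂).det - 1) =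
      (bl c i g.toBlocks₂₂).det - 1 := by
    intro i
    rw [map_sub, map_one, ← hX2, det_bl_map]
    rfl
  simp only [hv]
  constructor
  · intro h
    refine ⟨?_, ?_, ?_, ?_⟩
    · ext x y
      rcases x with x | x <;> rcases y with y | y
      · rfl
      · rw [← hX]
        exact h _ (Or.inl ⟨x, y, rfl⟩)
      · rw [← hX]
        exact h _ (Or.inr (Or.inl ⟨x, y, rfl⟩))
      · rfl
    · rw [← sub_eq_zero]
      ext a b
      rw [← h3]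
      exact h _ (Or.inr (Or.inr (Or.inl ⟨a, b, rfl⟩)))
    · intro a b hab
      have h6 := h _ (Or.inr (Or.inr (Or.inr (Or.inl ⟨a, b, hab, rfl⟩))))
      rw [← hX2]
      exact h6
    · intro i
      have h6 := h _ (Or.inr (Or.inr (Or.inr (Or.inr ⟨i, rfl⟩))))
      rw [h5] at h6
      exact sub_eq_zero.1 h6
  · rintro ⟨h, h1, h2, h4⟩ f hf
    rcases hf with ⟨a, b, rfl⟩ | ⟨a, b, rfl⟩ | ⟨a, b, rfl⟩ | ⟨a, b, hab, rfl⟩ | ⟨i, rfl⟩
    · rw [hX, h]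
      rfl
    · rw [hX, h]
      rfl
    · rw [h3, h1, sub_self]
      rfl
    · have h6 := h2 a b hab
      rw [← hX2] at h6
      exact h6
    · rw [h5, h4, sub_self]

/-- the polynomials in the entries of the first block -/
def up (f : MvPolynomial (κ × κ) ℚ) : MvPolynomial ((κ ⊕ Fin n) × (κ ⊕ Fin n)) ℚ :=
  aeval (fun q : κ × κ => X (Sum.inl q.1, Sum.inl q.2)) f

theorem vQ_up {R : Type} [CommRing R] [Algebra ℚ R] (g : Matrix (κ ⊕ Fin n) (κ ⊕ Fin n) R)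
    (f : MvPolynomial (κ × κ) ℚ) : vQ g (up f) = vQ g.toBlocks₁₁ f := by
  unfold vQ up
  have h : (aeval fun q : (κ ⊕ Fin n) × (κ ⊕ Fin n) => g q.1 q.2).comp
      (aeval fun q : κ × κ => X (Sum.inl q.1, Sum.inl q.2)) =
      (aeval (fun q : κ × κ => g.toBlocks₁₁ q.1 q.2) : MvPolynomial (κ × κ) ℚ →ₐ[ℚ] R) := by
    refine MvPolynomial.algHom_ext fun p => ?_
    rw [AlgHom.comp_apply, aeval_X, aeval_X, aeval_X]
    rfl
  exact congrArg (fun F : MvPolynomial (κ × κ) ℚ →ₐ[ℚ] R => F f) h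

/-- restriction of a polynomial to the matrices with second block `1` -/
def dn (f : MvPolynomial ((κ ⊕ Fin n) × (κ ⊕ Fin n)) ℚ) : MvPolynomial (κ × κ) ℚ :=
  aeval (fun q : (κ ⊕ Fin n) × (κ ⊕ Fin n) =>
    (fromBlocks (XM κ) 0 0 1 : Matrix (κ ⊕ Fin n) (κ ⊕ Fin n) _) q.1 q.2) f

theorem vQ_dn {R : Type} [CommRing R] [Algebra ℚ R] (v : Matrix κ κ R)
    (f : MvPolynomial ((κ ⊕ Fin n) × (κ ⊕ Fin n)) ℚ) :
    vQ v (dn f) = vQ (fromBlocks v 0 0 (1 : Matrix (Fin n) (Fin n) R)) f := by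
  unfold vQ dn
  have h : (aeval fun q : κ × κ => v q.1 q.2).comp
      (aeval fun q : (κ ⊕ Fin n) × (κ ⊕ Fin n) =>
      (fromBlocks (XM κ) 0 0 1 : Matrix (κ ⊕ Fin n) (κ ⊕ Fin n) _) q.1 q.2) =
      (aeval (fun q : (κ ⊕ Fin n) × (κ ⊕ Fin n) =>
        (fromBlocks v 0 0 (1 : Matrix (Fin n) (Fin n) R)) q.1 q.2) :
        MvPolynomial ((κ ⊕ Fin n) × (κ ⊕ Fin n)) ℚ →ₐ[ℚ] R) := by
    refine MvPolynomial.algHom_ext fun p => ?_
    rw [AlgHom.comp_apply, aeval_X, aeval_X]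
    obtain ⟨x, y⟩ := p
    rcases x with x | x <;> rcases y with y | y
    · simp [XM]
    · simp
    · simp
    · simp only [Matrix.fromBlocks_apply₂₂, Matrix.one_apply]
      split_ifs <;> simp
  exact congrArg (fun F : MvPolynomial ((κ ⊕ Fin n) × (κ ⊕ Fin n)) ℚ →ₐ[ℚ] R => F f) h

theorem fb_mul {R : Type} [CommRing R] (v v' : Matrix κ κ R) (t t' : Matrix (Fin n) (Fin n) R) :
    fromBlocks v 0 0 t * fromBlocks v' 0 0 t' = fromBlocks (v * v') 0 0 (t * t') := by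
  rw [Matrix.fromBlocks_multiply]
  simp

theorem fb_det {R : Type} [CommRing R] (v : Matrix κ κ R) (t : Matrix (Fin n) (Fin n) R) :
    (fromBlocks v 0 0 t).det = v.det * t.det := Matrix.det_fromBlocks_zero₂₁ _ _ _

theorem fb_inv {R : Type} [Field R] {v : Matrix κ κ R} {t : Matrix (Fin n) (Fin n) R}
    (hv : v.det ≠ 0) (ht : t.det ≠ 0) : (fromBlocks v 0 0 t)⁻¹ = fromBlocks v⁻¹ 0 0 t⁻¹ := by
  apply Matrix.inv_eq_right_inv
  rw [fb_mul, Matrix.mul_nonsing_inv _ (isUnit_iff_ne_zero.2 hv),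
    Matrix.mul_nonsing_inv _ (isUnit_iff_ne_zero.2 ht), Matrix.fromBlocks_one]

theorem fb_map {R R' : Type} [CommRing R] [CommRing R'] (σ : R →+* R') (v : Matrix κ κ R)
    (t : Matrix (Fin n) (Fin n) R) :
    (fromBlocks v 0 0 t).map σ = fromBlocks (v.map σ) 0 0 (t.map σ) := by
  rw [Matrix.fromBlocks_map]
  simp

theorem InSO_det {R : Type} [Field R] [Algebra ℚ R] {Q : Matrix (Fin n) (Fin n) ℚ}
    (hQ : Q.det ≠ 0) {t : Matrix (Fin n) (Fin n) R} (ht : InSO c Q t) : t.det ≠ 0 := by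
  intro h
  have h1 := congrArg Matrix.det ht.1
  rw [Matrix.det_mul, Matrix.det_mul, Matrix.det_transpose, h, zero_mul, zero_mul] at h1
  have h2 : (Q.map (algebraMap ℚ R)).det = algebraMap ℚ R Q.det :=
    ((algebraMap ℚ R).map_det Q).symm
  rw [h2] at h1
  exact hQ ((map_eq_zero _).1 h1.symm)

theorem InSO_one {R : Type} [CommRing R] [Algebra ℚ R] (Q : Matrix (Fin n) (Fin n) ℚ) :
    InSO c Q (1 : Matrix (Fin n) (Fin n) R) := by
  have h1 : ∀ i, bl c i (1 : Matrix (Fin n) (Fin n) R) = 1 := by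
    intro i
    ext a b
    unfold bl
    rw [Matrix.of_apply, Matrix.one_apply]
    split_ifs <;> rfl
  refine ⟨by simp, fun a b hab => ?_, fun i => by rw [h1, Matrix.det_one]⟩
  rw [Matrix.one_apply_ne]
  rintro rfl
  exact hab rfl

theorem InSO_mul {Q : Matrix (Fin n) (Fin n) ℚ} {s t : Matrix (Fin n) (Fin n) ℂ}
    (hs : InSO c Q s) (ht : InSO c Q t) : InSO c Q (s * t) := by
  refine ⟨?_, W918.PG.bd_mul hs.2.1 ht.2.1, fun i => ?_⟩
  · rw [Matrix.transpose_mul]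
    calc tᵀ * sᵀ * Q.map (algebraMap ℚ ℂ) * (s * t) =
          tᵀ * (sᵀ * Q.map (algebraMap ℚ ℂ) * s) * t := by simp only [Matrix.mul_assoc]
      _ = Q.map (algebraMap ℚ ℂ) := by rw [hs.1, ht.1]
  · rw [W918.PG.bl_mul hs.2.1 ht.2.1, Matrix.det_mul, hs.2.2, ht.2.2, mul_one]

theorem InSO_inv {Q : Matrix (Fin n) (Fin n) ℚ} (hQ : Q.det ≠ 0) {t : Matrix (Fin n) (Fin n) ℂ}
    (ht : InSO c Q t) : InSO c Q t⁻¹ := by
  have hu : IsUnit t.det := isUnit_iff_ne_zero.2 (InSO_det hQ ht)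
  have hb := W918.PG.bd_inv ht.2.1 hu
  refine ⟨?_, hb, fun i => ?_⟩
  · calc (t⁻¹)ᵀ * Q.map (algebraMap ℚ ℂ) * t⁻¹ =
          (t⁻¹)ᵀ * (tᵀ * Q.map (algebraMap ℚ ℂ) * t) * t⁻¹ := by rw [ht.1]
      _ = (t * t⁻¹)ᵀ * Q.map (algebraMap ℚ ℂ) * (t * t⁻¹) := by
          rw [Matrix.transpose_mul]
          simp only [Matrix.mul_assoc]
      _ = Q.map (algebraMap ℚ ℂ) := by
          rw [Matrix.mul_nonsing_inv _ hu, Matrix.transpose_one, one_mul, mul_one]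
  · have h1 := W918.PG.bl_mul ht.2.1 hb i
    rw [Matrix.mul_nonsing_inv _ hu, W918.PG.bl_one] at h1
    have h2 := congrArg Matrix.det h1
    rw [Matrix.det_mul, ht.2.2, one_mul, Matrix.det_one] at h2
    exact h2.symm

/-- the product of `G` and the special orthogonal groups is an algebraic group -/
theorem prod_QGroup {Q : Matrix (Fin n) (Fin n) ℚ} (hQ : Q.det ≠ 0) {G : Set (Matrix κ κ ℂ)}
    (hG : IsQGroup G) : IsQGroup {g : Matrix (κ ⊕ Fin n) (κ ⊕ Fin n) ℂ |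
      ∃ v t, g = fromBlocks v 0 0 t ∧ v ∈ G ∧ InSO c Q t} := by
  obtain ⟨⟨P, hP⟩, h1, h2, h3⟩ := hG
  have hdet : ∀ v ∈ G, v.det ≠ 0 := fun v hv => ((hP v).1 hv).1
  refine ⟨⟨PSO κ c Q ∪ up '' P, fun g => ⟨?_, ?_⟩⟩, ?_, ?_, ?_⟩
  · rintro ⟨v, t, rfl, hv, ht⟩
    refine ⟨?_, ?_⟩
    · rw [fb_det]
      exact mul_ne_zero (hdet v hv) (InSO_det hQ ht)
    · rintro f (hf | ⟨f, hf, rfl⟩)
      · refine (PSO_iff (c := c) (Q := Q) _).2 ⟨?_, ?_⟩ f hf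
        · rw [Matrix.toBlocks_fromBlocks₁₁, Matrix.toBlocks_fromBlocks₂₂]
        · rw [Matrix.toBlocks_fromBlocks₂₂]
          exact ht
      · rw [vQ_up, Matrix.toBlocks_fromBlocks₁₁]
        exact ((hP v).1 hv).2 f hf
  · rintro ⟨hd, hf⟩
    obtain ⟨h4, h5⟩ := (PSO_iff (c := c) (Q := Q) g).1 fun f hf' => hf f (Or.inl hf')
    refine ⟨g.toBlocks₁₁, g.toBlocks₂₂, h4, ?_, h5⟩
    rw [hP]
    refine ⟨?_, fun f hf' => ?_⟩
    · intro h6
      apply hd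
      rw [h4, fb_det, h6, zero_mul]
    · rw [← vQ_up]
      exact hf _ (Or.inr ⟨f, hf', rfl⟩)
  · exact ⟨1, 1, Matrix.fromBlocks_one.symm, h1, InSO_one Q⟩
  · rintro _ ⟨v, t, rfl, hv, ht⟩ _ ⟨v', t', rfl, hv', ht'⟩
    exact ⟨v * v', t * t', fb_mul _ _ _ _, h2 v hv v' hv', InSO_mul ht ht'⟩
  · rintro _ ⟨v, t, rfl, hv, ht⟩
    exact ⟨v⁻¹, t⁻¹, fb_inv (hdet v hv) (InSO_det hQ ht), h3 v hv, InSO_inv hQ ht⟩

theorem MT_QGroup {h : ℂ → Matrix κ κ ℂ} (hh : ∀ z, z ≠ 0 → (h z).det ≠ 0) :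
    IsQGroup (MTgroup h) := by
  refine ⟨⟨{f | ∀ m ∈ MTgroup h, vQ m f = 0}, fun g => ⟨fun hg => ⟨MT_det hh hg, fun f hf => hf g hg⟩,
    fun hg => MT_of_InMT hg.1 hg.2⟩⟩, MT_one, fun a ha b hb => MT_mul ha hb, fun a ha => MT_inv ha⟩

/-- the matrices `v` with `diag(v, 1)` in an algebraic group -/
theorem slice_QGroup {G : Set (Matrix (κ ⊕ Fin n) (κ ⊕ Fin n) ℂ)} (hG : IsQGroup G) :
    IsQGroup {v : Matrix κ κ ℂ | fromBlocks v 0 0 1 ∈ G} := by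
  obtain ⟨⟨P, hP⟩, h1, h2, h3⟩ := hG
  have hd : ∀ v : Matrix κ κ ℂ, fromBlocks v 0 0 (1 : Matrix (Fin n) (Fin n) ℂ) ∈ G → v.det ≠ 0 := by
    intro v hv
    have h4 := ((hP _).1 hv).1
    rwa [fb_det, Matrix.det_one, mul_one] at h4
  refine ⟨⟨dn '' P, fun v => ?_⟩, ?_, ?_, ?_⟩
  · show fromBlocks v 0 0 1 ∈ G ↔ _
    rw [hP, fb_det, Matrix.det_one, mul_one]
    refine and_congr Iff.rfl ⟨?_, ?_⟩
    · rintro h _ ⟨f, hf, rfl⟩
      rw [vQ_dn]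
      exact h f hf
    · intro h f hf
      rw [← vQ_dn]
      exact h _ ⟨f, hf, rfl⟩
  · show fromBlocks 1 0 0 1 ∈ G
    rw [Matrix.fromBlocks_one]
    exact h1
  · intro v hv v' hv'
    show fromBlocks (v * v') 0 0 1 ∈ G
    have h4 := h2 _ hv _ hv'
    rwa [fb_mul, mul_one] at h4
  · intro v hv
    show fromBlocks v⁻¹ 0 0 1 ∈ G
    have h4 := h3 _ hv
    rwa [fb_inv (hd v hv) (by rw [Matrix.det_one]; exact one_ne_zero), inv_one] at h4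

end

end Pool.Agent.Y95.MT
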