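import Mathlib
import Pool.Agent.Y95.MT.Prod
import Pool.Agent.W544.PG.MainG
import Pool.Agent.W544.PG.Final2
import Pool.Agent.W544.PG.Final4

/-!
# The Mumford-Tate group of a direct sum
-/

set_option autoImplicit false
set_option linter.unusedSectionVars false

namespace Pool.Agent.Y95.MT

open MvPolynomial Matrix Pool.Agent.W528.ZC Pool.Agent.W544.PG

noncomputable section

variable {κ : Type} [Fintype κ] [DecidableEq κ] {n r : ℕ} {c : Fin n → Fin r} {T : HS n}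
  {p q : Fin r → ℕ}

theorem mC_eq (P : Matrix (Fin n) (Fin n) ℚ) : mC P = P.map (algebraMap ℚ ℂ) := by
  ext a b
  simp [mC]

theorem hT_eq (T : HS n) (z : ℂ) : hT T z = pw F3 (E3 T.x) (starRingEnd ℂ z / z) := by
  rw [pw3, inv_div]
  rfl

theorem pw3_T (T : HS n) (d : ℂ) :
    (pw F3 (E3 T.x) d)ᵀ * mC T.Q = mC T.Q * pw F3 (E3 T.x) d⁻¹ := by
  have h1 : T.xᵀ * mC T.Q = -(mC T.Q * T.x) := eq_neg_of_add_eq_zero_left T.skew
  have h2 : (T.x * T.x)ᵀ * mC T.Q = mC T.Q * (T.x * T.x) := by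
    rw [Matrix.transpose_mul, Matrix.mul_assoc, h1, Matrix.mul_neg, ← Matrix.mul_assoc, h1,
      Matrix.neg_mul, neg_neg, Matrix.mul_assoc]
  rw [pw3, pw3, inv_inv]
  simp only [Matrix.transpose_add, Matrix.transpose_smul, Matrix.transpose_sub,
    Matrix.transpose_one, Matrix.add_mul, Matrix.sub_mul, Matrix.smul_mul, h1, h2, one_mul,
    Matrix.mul_add, Matrix.mul_sub, Matrix.mul_smul, Matrix.mul_one]
  module

theorem pw3_Q (T : HS n) {d : ℂ} (hd : d ≠ 0) :
    (pw F3 (E3 T.x) d)ᵀ * mC T.Q * pw F3 (E3 T.x) d = mC T.Q := by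
  rw [pw3_T, Matrix.mul_assoc, pw_mul _ _ (Gr3 T.cube), inv_mul_cancel₀ hd, pw_one (Gr3 T.cube),
    mul_one]

theorem pw3_BD {x : Matrix (Fin n) (Fin n) ℂ} (hx : BD c x) (d : ℂ) : BD c (pw F3 (E3 x) d) := by
  intro a b hab
  have h1 := W918.PG.bd_mul hx hx a b hab
  have hne : a ≠ b := by
    rintro rfl
    exact hab rfl
  rw [pw3]
  simp only [Matrix.add_apply, Matrix.sub_apply, Matrix.smul_apply, h1, hx a b hab, smul_eq_mul,
    Matrix.one_apply_ne hne]
  ring

theorem pw3_SO (hbQ : BD c T.Q) (hbx : BD c T.x) {d : ℂ} (hd : d ≠ 0) :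
    InSO c T.Q (pw F3 (E3 T.x) d) := by
  refine ⟨?_, pw3_BD hbx d, fun i => ?_⟩
  · rw [← mC_eq]
    exact pw3_Q T hd
  · obtain ⟨e, he⟩ := IsAlgClosed.exists_pow_nat_eq d (n := 2) (by norm_num)
    have he0 : e ≠ 0 := by
      rintro rfl
      apply hd
      rw [← he]
      norm_num
    have h1 := congrArg (fun M => (bl c i M).det) (pw3_Q T he0)
    have hb := pw3_BD (c := c) hbx e
    have hbt : BD c (pw F3 (E3 T.x) e)ᵀ := fun a b hab => hb b a (Ne.symm hab)
    have hbQ' : BD c (mC T.Q) := fun a b hab => by simp [mC, hbQ a b hab]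
    rw [W918.PG.bl_mul (W918.PG.bd_mul hbt hbQ') hb, W918.PG.bl_mul hbt hbQ', bl_T,
      Matrix.det_mul, Matrix.det_mul, Matrix.det_transpose] at h1
    have h2 : (bl c i (mC T.Q)).det ≠ 0 := by
      rw [bl_mC, det_mC]
      exact_mod_cast bl_det_ne hbQ i
    have h3 : (bl c i (pw F3 (E3 T.x) e)).det * (bl c i (pw F3 (E3 T.x) e)).det = 1 := by
      have h4 : (bl c i (mC T.Q)).det * ((bl c i (pw F3 (E3 T.x) e)).det *
          (bl c i (pw F3 (E3 T.x) e)).det) = (bl c i (mC T.Q)).det * 1 := by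
        rw [mul_one]
        linear_combination h1
      exact mul_left_cancel₀ h2 h4
    rw [← he, sq, ← pw_mul _ _ (Gr3 T.cube), W918.PG.bl_mul hb hb, Matrix.det_mul, h3]

theorem hT_SO (hbQ : BD c T.Q) (hbx : BD c T.x) {z : ℂ} (hz : z ≠ 0) : InSO c T.Q (hT T z) := by
  rw [hT_eq]
  refine pw3_SO hbQ hbx (div_ne_zero ?_ hz)
  exact (map_ne_zero _).2 hz

/-- the direct sum -/
def hM (hV : ℂ → Matrix κ κ ℂ) (T : HS n) (z : ℂ) : Matrix (κ ⊕ Fin n) (κ ⊕ Fin n) ℂ :=
  fromBlocks (hV z) 0 0 (hT T z)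

variable {hV : ℂ → Matrix κ κ ℂ}

theorem hM_det (hVd : ∀ z, z ≠ 0 → (hV z).det ≠ 0) (hbQ : BD c T.Q) (hbx : BD c T.x) (z : ℂ)
    (hz : z ≠ 0) : (hM hV T z).det ≠ 0 := by
  unfold hM
  rw [fb_det]
  exact mul_ne_zero (hVd z hz) (InSO_det (W74.PG.det_ne T) (hT_SO hbQ hbx hz))

theorem MT_le (hVd : ∀ z, z ≠ 0 → (hV z).det ≠ 0) (hbQ : BD c T.Q) (hbx : BD c T.x)
    {g : Matrix (κ ⊕ Fin n) (κ ⊕ Fin n) ℂ} (hg : g ∈ MTgroup (hM hV T)) :
    ∃ v t, g = fromBlocks v 0 0 t ∧ v ∈ MTgroup hV ∧ InSO c T.Q t :=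
  hg _ (prod_QGroup (W74.PG.det_ne T) (MT_QGroup hVd)) fun z hz =>
    ⟨hV z, hT T z, rfl, MT_h hz, hT_SO hbQ hbx hz⟩

theorem hT_I (T : HS n) : hT T Complex.I = -T.C := by
  have hI : starRingEnd ℂ Complex.I / Complex.I = -1 := by
    rw [Complex.conj_I, neg_div, div_self Complex.I_ne_zero]
  have hI' : Complex.I / starRingEnd ℂ Complex.I = -1 := by
    rw [Complex.conj_I, div_neg, div_self Complex.I_ne_zero]
  unfold hT HS.C
  rw [hI, hI']
  module

theorem C_sq (T : HS n) : T.C * T.C = 1 := by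
  have h4 : T.x * T.x * (T.x * T.x) = T.x * T.x := by
    rw [← Matrix.mul_assoc, T.cube]
  unfold HS.C
  simp only [sub_mul, mul_sub, Matrix.smul_mul, Matrix.mul_smul, h4, one_mul, mul_one]
  module

/-- `so(T)` is contained in the Lie algebra of the Mumford-Tate group. -/
theorem so_LS (hB : T.Big c p q)
    (hVd : ∀ z, z ≠ 0 → (hV z).det ≠ 0)
    (hx : fromBlocks 0 0 0 T.x ∈ LS (SH (hM hV T))) (Z : Matrix (Fin n) (Fin n) ℂ)
    (hZ : Zᵀ * mC T.Q + mC T.Q * Z = 0) (hZc : BD c Z) :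
    fromBlocks 0 0 0 Z ∈ LS (SH (hM hV T)) := by
  let hh : Submodule ℂ (Matrix (Fin n) (Fin n) ℂ) :=
    { carrier := {Z | Zᵀ * mC T.Q + mC T.Q * Z = 0 ∧ BD c Z ∧
        (fromBlocks 0 0 0 Z : Matrix (κ ⊕ Fin n) (κ ⊕ Fin n) ℂ) ∈ LS (SH (hM hV T))}
      zero_mem' := by
        refine ⟨by simp, fun _ _ _ => rfl, ?_⟩
        rw [Matrix.fromBlocks_zero]
        exact Submodule.zero_mem _
      add_mem' := by
        rintro a b ⟨h1, h2, h3⟩ ⟨h4, h5, h6⟩
        refine ⟨?_, fun x y hxy => ?_, ?_⟩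
        · rw [Matrix.transpose_add, add_mul, mul_add,
            show aᵀ * mC T.Q + bᵀ * mC T.Q + (mC T.Q * a + mC T.Q * b) =
              (aᵀ * mC T.Q + mC T.Q * a) + (bᵀ * mC T.Q + mC T.Q * b) by abel, h1, h4, add_zero]
        · rw [Matrix.add_apply, h2 x y hxy, h5 x y hxy, add_zero]
        · have h7 := Submodule.add_mem _ h3 h6
          rw [Matrix.fromBlocks_add] at h7
          simpa using h7
      smul_mem' := by
        rintro z a ⟨h1, h2, h3⟩
        refine ⟨?_, fun x y hxy => ?_, ?_⟩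
        · rw [Matrix.transpose_smul, Matrix.smul_mul, Matrix.mul_smul, ← smul_add, h1, smul_zero]
        · rw [Matrix.smul_apply, h2 x y hxy, smul_zero]
        · have h7 := Submodule.smul_mem _ z h3
          rw [Matrix.fromBlocks_smul] at h7
          simpa using h7 }
  have hmem : ∀ Z, Z ∈ hh ↔ Zᵀ * mC T.Q + mC T.Q * Z = 0 ∧ BD c Z ∧
        (fromBlocks 0 0 0 Z : Matrix (κ ⊕ Fin n) (κ ⊕ Fin n) ℂ) ∈ LS (SH (hM hV T)) :=
    fun Z => Iff.rfl
  have key : Z ∈ hh := by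
    refine mainG (T := T) (c := c) (p := p) (q := q) W571.PG.sub W589.PG.Sim.sim W756.PG.gou thtF
      W696.PG.de2 ?_ ?_ ?_ ?_ ?_ hB Z hZ hZc
    · exact fun y hy => hy.2.1
    · exact fun y hy => hy.1
    · rintro y ⟨h1, h2, h3⟩ z ⟨h4, h5, h6⟩
      refine ⟨?_, ?_, ?_⟩
      · have e1 : yᵀ * mC T.Q = -(mC T.Q * y) := eq_neg_of_add_eq_zero_left h1
        have e2 : zᵀ * mC T.Q = -(mC T.Q * z) := eq_neg_of_add_eq_zero_left h4
        rw [Matrix.transpose_sub, Matrix.transpose_mul, Matrix.transpose_mul, sub_mul, mul_sub,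
          Matrix.mul_assoc zᵀ, e1, Matrix.mul_neg, ← Matrix.mul_assoc, e2, Matrix.mul_assoc yᵀ, e2,
          Matrix.mul_neg, ← Matrix.mul_assoc yᵀ, e1]
        simp only [Matrix.neg_mul, Matrix.mul_assoc]
        abel
      · intro a b hab
        rw [Matrix.sub_apply, W918.PG.bd_mul h2 h5 a b hab, W918.PG.bd_mul h5 h2 a b hab, sub_zero]
      · have h7 := LS_br h3 h6
        have h8 : (fromBlocks 0 0 0 (y * z - z * y) : Matrix (κ ⊕ Fin n) (κ ⊕ Fin n) ℂ) =
            fromBlocks 0 0 0 y * fromBlocks 0 0 0 z - fromBlocks 0 0 0 z * fromBlocks 0 0 0 y := by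
          rw [Matrix.fromBlocks_multiply, Matrix.fromBlocks_multiply]
          ext a b
          rcases a with a | a <;> rcases b with b | b <;> simp
        rw [h8]
        exact h7
    · rintro y ⟨h1, h2, h3⟩
      have hC : BD c T.C := BD_C hB
      have e0 : (mC T.Q).map (starRingEnd ℂ) = mC T.Q := by
        ext a b
        simp [mC]
      have h1' : (y.map (starRingEnd ℂ))ᵀ * mC T.Q + mC T.Q * y.map (starRingEnd ℂ) = 0 := by
        have h7 := congrArg (fun M => M.map (starRingEnd ℂ)) h1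
        simp only [Matrix.map_add _ (map_add (starRingEnd ℂ)), Matrix.map_mul, e0,
          ← Matrix.transpose_map] at h7
        rw [← Matrix.transpose_map]
        simpa using h7
      have hCt : T.Cᵀ * mC T.Q = mC T.Q * T.C := by
        have h8 := pw3_T T (-1)
        have h9 : pw F3 (E3 T.x) (-1) = -T.C := by
          rw [← hT_I, hT_eq]
          congr 1
          rw [Complex.conj_I, neg_div, div_self Complex.I_ne_zero]
        have h10 : (-1 : ℂ)⁻¹ = -1 := by norm_num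
        rw [h10, h9, Matrix.transpose_neg, Matrix.neg_mul, Matrix.mul_neg, neg_inj] at h8
        exact h8
      refine ⟨?_, ?_, ?_⟩
      · have e1 : (y.map (starRingEnd ℂ))ᵀ * mC T.Q = -(mC T.Q * y.map (starRingEnd ℂ)) :=
          eq_neg_of_add_eq_zero_left h1'
        generalize y.map (starRingEnd ℂ) = w at e1
        have e2 : (-(T.C * w * T.C))ᵀ * mC T.Q = mC T.Q * (T.C * w * T.C) := by
          rw [Matrix.transpose_neg, Matrix.transpose_mul, Matrix.transpose_mul, Matrix.neg_mul]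
          calc -(T.Cᵀ * (wᵀ * T.Cᵀ) * mC T.Q) = -(T.Cᵀ * (wᵀ * (T.Cᵀ * mC T.Q))) := by
                simp only [Matrix.mul_assoc]
            _ = -(T.Cᵀ * ((wᵀ * mC T.Q) * T.C)) := by rw [hCt, Matrix.mul_assoc]
            _ = (T.Cᵀ * mC T.Q) * (w * T.C) := by
                rw [e1]
                simp only [Matrix.mul_neg, Matrix.neg_mul, neg_neg, Matrix.mul_assoc]
            _ = mC T.Q * (T.C * w * T.C) := by
                rw [hCt]
                simp only [Matrix.mul_assoc]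
        rw [e2, Matrix.mul_neg, add_neg_cancel]
      · intro a b hab
        have hyb : BD c (y.map (starRingEnd ℂ)) := fun a b hab => by
          rw [Matrix.map_apply, h2 a b hab, map_zero]
        rw [Matrix.neg_apply, W918.PG.bd_mul (W918.PG.bd_mul hC hyb) hC a b hab, neg_zero]
      · have h7 := LS_map h3 starRingAut
        have hI : hM hV T Complex.I ∈ MTgroup (hM hV T) := MT_h Complex.I_ne_zero
        have h8 := MT_conj hI (hM_det hVd hB.bQ hB.bx _ Complex.I_ne_zero) h7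
        have hCinv : (-T.C)⁻¹ = -T.C := by
          apply Matrix.inv_eq_right_inv
          rw [neg_mul_neg, C_sq]
        have hCd : (-T.C).det ≠ 0 := by
          intro h0
          have h9 := congrArg Matrix.det (C_sq T)
          rw [← neg_mul_neg, Matrix.det_mul, h0, zero_mul, Matrix.det_one] at h9
          exact zero_ne_one h9
        unfold hM at h8
        rw [hT_I, fb_inv (hVd _ Complex.I_ne_zero) hCd, hCinv] at h8
        have h9 : (fromBlocks 0 0 0 y : Matrix (κ ⊕ Fin n) (κ ⊕ Fin n) ℂ).map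
            ((starRingAut : ℂ ≃+* ℂ) : ℂ →+* ℂ) = fromBlocks 0 0 0 (y.map (starRingEnd ℂ)) := by
          ext x y
          rcases x with x | x <;> rcases y with y | y <;> simp
        rw [h9, Matrix.fromBlocks_multiply, Matrix.fromBlocks_multiply] at h8
        simp only [Matrix.mul_zero, Matrix.zero_mul, add_zero, zero_add] at h8
        have h10 := Submodule.neg_mem _ h8
        rw [Matrix.fromBlocks_neg] at h10
        simp only [neg_zero, neg_mul_neg, Matrix.neg_mul, Matrix.mul_neg, neg_neg] at h10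
        exact h10
    · intro σ
      have e0 : (mC T.Q).map σ = mC T.Q := by
        ext a b
        simp [mC]
      refine ⟨?_, fun a b hab => ?_, ?_⟩
      · have h7 := congrArg (fun M => M.map (σ : ℂ →+* ℂ)) T.skew
        simp only [Matrix.map_add _ (map_add (σ : ℂ →+* ℂ)), Matrix.map_mul,
          ← Matrix.transpose_map] at h7
        rw [show (mC T.Q).map (σ : ℂ →+* ℂ) = mC T.Q from e0] at h7
        rw [← Matrix.transpose_map]
        simpa using h7
      · rw [Matrix.map_apply, hB.bx a b hab, map_zero]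
      · have h7 := LS_map hx σ
        have h9 : (fromBlocks 0 0 0 T.x : Matrix (κ ⊕ Fin n) (κ ⊕ Fin n) ℂ).map
            (σ : ℂ →+* ℂ) = fromBlocks 0 0 0 (T.x.map σ) := by
          ext x y
          rcases x with x | x <;> rcases y with y | y <;> simp
        rwa [h9] at h7
  exact key.2.2

/-- one-parameter groups in the second summand -/
theorem pw_fb (Z : Matrix (Fin n) (Fin n) ℂ) (t : ℂ) :
    pw F3 (E3 (fromBlocks 0 0 0 Z : Matrix (κ ⊕ Fin n) (κ ⊕ Fin n) ℂ)) t =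
      fromBlocks 1 0 0 (pw F3 (E3 Z) t) := by
  rw [pw3, pw3, Matrix.fromBlocks_multiply]
  ext x y
  rcases x with x | x <;> rcases y with y | y <;> simp [Matrix.one_apply]

theorem SO_St {S : Submodule ℂ (MvPolynomial ((κ ⊕ Fin n) × (κ ⊕ Fin n)) ℂ)}
    (hbQ : BD c T.Q)
    (hS : ∀ Z : Matrix (Fin n) (Fin n) ℂ, Zᵀ * mC T.Q + mC T.Q * Z = 0 → BD c Z →
      fromBlocks 0 0 0 Z ∈ LS S) {t : Matrix (Fin n) (Fin n) ℂ} (ht : InSO c T.Q t) :
    fromBlocks 1 0 0 t ∈ St S := by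
  let H : Submonoid (Matrix (Fin n) (Fin n) ℂ) :=
    { carrier := {x | (fromBlocks 1 0 0 x : Matrix (κ ⊕ Fin n) (κ ⊕ Fin n) ℂ) ∈ St S}
      one_mem' := by
        show (fromBlocks 1 0 0 1 : Matrix (κ ⊕ Fin n) (κ ⊕ Fin n) ℂ) ∈ St S
        rw [Matrix.fromBlocks_one]
        exact (St S).one_mem
      mul_mem' := by
        intro x y hx hy
        have h1 := (St S).mul_mem hx hy
        rw [fb_mul, one_mul] at h1
        exact h1 }
  have hbQ' : BD c (mC T.Q) := fun a b hab => by simp [mC, hbQ a b hab]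
  have hsy : (mC T.Q)ᵀ = mC T.Q := by
    have h1 := congrArg (fun M => mC M) T.symm
    simpa [mC, ← Matrix.transpose_map] using h1
  have hdet : (mC T.Q).det ≠ 0 := by
    rw [det_mC]
    exact_mod_cast W74.PG.det_ne T
  have key : t ∈ H := by
    refine so_gen_Q (c := c) hsy hbQ' hdet ?_ (by rw [mC_eq]; exact ht.1) ht.2.1 ht.2.2
    intro Z hZ hZb hZ3 s hs
    show (fromBlocks 1 0 0 (pw F3 (E3 Z) s) : Matrix (κ ⊕ Fin n) (κ ⊕ Fin n) ℂ) ∈ St S
    rw [← pw_fb]
    have h3 : (fromBlocks 0 0 0 Z : Matrix (κ ⊕ Fin n) (κ ⊕ Fin n) ℂ) * fromBlocks 0 0 0 Z *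
        fromBlocks 0 0 0 Z = fromBlocks 0 0 0 Z := by
      rw [Matrix.fromBlocks_multiply, Matrix.fromBlocks_multiply]
      simp [hZ3]
    exact pw_mem_St (Gr3 h3) (by rw [dr3]; exact hS Z hZ hZb) hs
  exact key

theorem SO_MT (hB : T.Big c p q) (hVd : ∀ z, z ≠ 0 → (hV z).det ≠ 0)
    (hx : fromBlocks 0 0 0 T.x ∈ LS (SH (hM hV T))) {t : Matrix (Fin n) (Fin n) ℂ}
    (ht : InSO c T.Q t) : fromBlocks 1 0 0 t ∈ MTgroup (hM hV T) := by
  refine MT_of_St ?_ (SO_St (T := T) hB.bQ (fun Z hZ hZb => so_LS hB hVd hx Z hZ hZb) ht)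
  rw [fb_det, Matrix.det_one, one_mul]
  exact InSO_det (W74.PG.det_ne T) ht

/-- the Mumford-Tate group of the direct sum -/
theorem MT_eq (hB : T.Big c p q) (hVd : ∀ z, z ≠ 0 → (hV z).det ≠ 0)
    (hx : fromBlocks 0 0 0 T.x ∈ LS (SH (hM hV T))) {v : Matrix κ κ ℂ}
    {t : Matrix (Fin n) (Fin n) ℂ} (hv : v ∈ MTgroup hV) (ht : InSO c T.Q t) :
    fromBlocks v 0 0 t ∈ MTgroup (hM hV T) := by
  have h1 : fromBlocks v 0 0 1 ∈ MTgroup (hM hV T) := by
    refine hv _ (slice_QGroup (MT_QGroup (hM_det hVd hB.bQ hB.bx))) fun z hz => ?_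
    show fromBlocks (hV z) 0 0 1 ∈ MTgroup (hM hV T)
    have h2 := hT_SO hB.bQ hB.bx hz
    have h3 := MT_mul (MT_h (h := hM hV T) hz)
      (SO_MT hB hVd hx (InSO_inv (W74.PG.det_ne T) h2))
    unfold hM at h3 ⊢
    rwa [fb_mul, mul_one, Matrix.mul_nonsing_inv _
      (isUnit_iff_ne_zero.2 (InSO_det (W74.PG.det_ne T) h2))] at h3
  have h2 := MT_mul h1 (SO_MT hB hVd hx ht)
  rwa [fb_mul, mul_one, one_mul] at h2

/-- points over any field which embeds into the complex numbers -/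
theorem InMT_iff (hB : T.Big c p q) (hVd : ∀ z, z ≠ 0 → (hV z).det ≠ 0)
    (hx : fromBlocks 0 0 0 T.x ∈ LS (SH (hM hV T))) {R : Type} [Field R] [Algebra ℚ R]
    (e : R →+* ℂ) {g : Matrix (κ ⊕ Fin n) (κ ⊕ Fin n) R} (hg : g.det ≠ 0) :
    InMT (hM hV T) g ↔ g = fromBlocks g.toBlocks₁₁ 0 0 g.toBlocks₂₂ ∧ InMT hV g.toBlocks₁₁ ∧
      InSO c T.Q g.toBlocks₂₂ := by
  constructor
  · intro h
    obtain ⟨h1, h2⟩ := (PSO_iff (c := c) (Q := T.Q) g).1 fun f hf => h f fun m hm => by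
      obtain ⟨v, t, rfl, hv, ht⟩ := MT_le hVd hB.bQ hB.bx hm
      refine (PSO_iff (c := c) (Q := T.Q) _).2 ⟨?_, ?_⟩ f hf
      · rw [Matrix.toBlocks_fromBlocks₁₁, Matrix.toBlocks_fromBlocks₂₂]
      · rw [Matrix.toBlocks_fromBlocks₂₂]
        exact ht
    refine ⟨h1, fun f hf => ?_, h2⟩
    rw [← vQ_up]
    refine h _ fun m hm => ?_
    obtain ⟨v, t, rfl, hv, ht⟩ := MT_le hVd hB.bQ hB.bx hm
    rw [vQ_up, Matrix.toBlocks_fromBlocks₁₁]
    exact hf v hv
  · rintro ⟨h1, h2, h3⟩ f hf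
    have h4 : (g.toBlocks₁₁.map e) ∈ MTgroup hV := by
      refine MT_of_InMT ?_ fun f hf => ?_
      · have h5 := e.map_det g.toBlocks₁₁
        rw [RingHom.mapMatrix_apply] at h5
        rw [← h5]
        refine (map_ne_zero e).2 fun h6 => hg ?_
        rw [h1, fb_det, h6, zero_mul]
      · rw [vQ_map, h2 f hf, map_zero]
    have h5 := hf _ (MT_eq hB hVd hx h4 (InSO_map e h3))
    rw [← fb_map, ← h1, vQ_map] at h5
    exact (map_eq_zero e).1 h5

end

end Pool.Agent.Y95.MT
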