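import Mathlib
import Pool.Agent.Y95.MT.Gal
import Pool.Agent.Y95.MT.HodgeSide

/-!
# The monodromy group of a direct sum
-/

set_option autoImplicit false
set_option linter.unusedSectionVars false

namespace Pool.Agent.Y95.MT

open MvPolynomial Matrix Pool.Agent.W528.ZC Pool.Agent.W544.PG

noncomputable section

/-! ### General facts on the ideal of the identity component -/

section ideal

variable {k K : Type} [Field k] [Field K] {ι : Type} [Fintype ι] [DecidableEq ι] {Γ : Type}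
  [Group Γ] {ρ : Γ →* Matrix ι ι k} {j : k →+* K}

/-- one subgroup of finite index is enough -/
theorem exists_unif (ρ : Γ →* Matrix ι ι k) (j : k →+* K) :
    ∃ Δ : Subgroup Γ, Δ.FiniteIndex ∧ ∀ f ∈ IG ρ j, ∀ s ∈ Δ, ev ((ρ s).map j) f = 0 := by
  classical
  let I : Ideal (MvPolynomial (ι × ι) K) :=
    { carrier := {f | f ∈ IG ρ j}
      zero_mem' := (Submodule.zero_mem (IG ρ j) : (0 : MvPolynomial (ι × ι) K) ∈ IG ρ j)
      add_mem' := fun {a b} h h' => (Submodule.add_mem (IG ρ j) h h' : a + b ∈ IG ρ j)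
      smul_mem' := by
        rintro a f ⟨Δ, hΔ, h⟩
        exact ⟨Δ, hΔ, fun g hg => by rw [smul_eq_mul, map_mul, h g hg, mul_zero]⟩ }
  obtain ⟨F, hF⟩ := (isNoetherianRing_iff_ideal_fg _).1
    (inferInstance : IsNoetherianRing (MvPolynomial (ι × ι) K)) I
  have h1 : ∀ F' : Finset (MvPolynomial (ι × ι) K), (∀ f ∈ F', f ∈ IG ρ j) →
      ∃ Δ : Subgroup Γ, Δ.FiniteIndex ∧ ∀ f ∈ F', ∀ s ∈ Δ, ev ((ρ s).map j) f = 0 := by
    intro F'
    induction F' using Finset.induction_on with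
    | empty => exact fun _ => ⟨⊤, inferInstance, fun f hf => absurd hf (Finset.notMem_empty f)⟩
    | insert f F' hf ih =>
      intro h
      obtain ⟨Δ, hΔ, h2⟩ := ih fun g hg => h g (Finset.mem_insert_of_mem hg)
      obtain ⟨Δ', hΔ', h3⟩ := h f (Finset.mem_insert_self _ _)
      refine ⟨Δ ⊓ Δ', inferInstance, fun g hg s hs => ?_⟩
      rcases Finset.mem_insert.1 hg with rfl | hg
      · exact h3 s hs.2
      · exact h2 g hg s hs.1
  obtain ⟨Δ, hΔ, h2⟩ := h1 F fun f hf => by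
    have h3 : f ∈ I := by
      rw [← hF]
      exact Ideal.subset_span hf
    exact h3
  refine ⟨Δ, hΔ, fun f hf s hs => ?_⟩
  have h3 : f ∈ Ideal.span (F : Set (MvPolynomial (ι × ι) K)) := by
    rw [hF]
    exact hf
  clear hf
  induction h3 using Submodule.span_induction with
  | mem f h => exact h2 f h s hs
  | zero => exact map_zero _
  | add f g _ _ hf hg =>
    rw [map_add, hf, hg, add_zero]
  | smul a f _ hf =>
    rw [smul_eq_mul, map_mul, hf, mul_zero]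

/-- change of the field -/
theorem IG_transfer {L : Type} [Field L] (e : K →+* L) (f : MvPolynomial (ι × ι) K) :
    MvPolynomial.map e f ∈ IG ρ (e.comp j) ↔ f ∈ IG ρ j := by
  have h1 : ∀ s, ev ((ρ s).map (e.comp j)) (MvPolynomial.map e f) = e (ev ((ρ s).map j) f) := by
    intro s
    rw [← ev_map_poly]
    rfl
  constructor
  · rintro ⟨Δ, hΔ, h⟩
    refine ⟨Δ, hΔ, fun s hs => ?_⟩
    have h2 := h s hs
    rw [h1] at h2
    exact (map_eq_zero e).1 h2
  · rintro ⟨Δ, hΔ, h⟩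
    refine ⟨Δ, hΔ, fun s hs => ?_⟩
    rw [h1, h s hs, map_zero]

theorem St_transfer [Infinite K] {L : Type} [Field L] [Infinite L] (e : K →+* L)
    {x : Matrix ι ι K} (hx : x.map e ∈ St (IG ρ (e.comp j))) : x ∈ St (IG ρ j) := by
  intro f hf
  have h1 := hx _ ((IG_transfer (ρ := ρ) e f).2 hf)
  have h2 : (1 : Matrix ι ι L) = (1 : Matrix ι ι K).map e :=
    (Matrix.map_one _ (map_zero e) (map_one e)).symm
  rw [h2, ← sub_map_poly, IG_transfer] at h1
  exact h1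

theorem InG0_iff {ℓ : ℕ} [Fact ℓ.Prime] {ρ : Γ →* Matrix ι ι ℚ_[ℓ]}
    {g : Matrix ι ι (AlgebraicClosure ℚ_[ℓ])} :
    InG0 ρ g ↔ InZS (IG ρ (algebraMap ℚ_[ℓ] (AlgebraicClosure ℚ_[ℓ]))) g := Iff.rfl

end ideal

/-! ### The product group -/

section prod

variable {ℓ : ℕ} [Fact ℓ.Prime] {n r : ℕ} {κ : Type} [Fintype κ] [DecidableEq κ] {Γ : Type}
  [Group Γ] {c : Fin n → Fin r}

/-- polynomials in the entries of the first block -/
def upK {K : Type} [Field K] (f : MvPolynomial (κ × κ) K) :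
    MvPolynomial ((κ ⊕ Fin n) × (κ ⊕ Fin n)) K :=
  aeval (fun q : κ × κ => X (Sum.inl q.1, Sum.inl q.2)) f

theorem ev_upK {K : Type} [Field K] (g : Matrix (κ ⊕ Fin n) (κ ⊕ Fin n) K)
    (f : MvPolynomial (κ × κ) K) : ev g (upK f) = ev g.toBlocks₁₁ f := by
  unfold Pool.Agent.W528.ZC.ev upK
  have h : (aeval fun q : (κ ⊕ Fin n) × (κ ⊕ Fin n) => g q.1 q.2).comp
      (aeval fun q : κ × κ => X (Sum.inl q.1, Sum.inl q.2)) =
      (aeval (fun q : κ × κ => g.toBlocks₁₁ q.1 q.2) : MvPolynomial (κ × κ) K →ₐ[K] K) := by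
    refine MvPolynomial.algHom_ext fun p => ?_
    rw [AlgHom.comp_apply, aeval_X, aeval_X, aeval_X]
    rfl
  exact congrArg (fun F : MvPolynomial (κ × κ) K →ₐ[K] K => F f) h

/-- restriction of a polynomial to the matrices with second block `1` -/
def dnK {K : Type} [Field K] (f : MvPolynomial ((κ ⊕ Fin n) × (κ ⊕ Fin n)) K) :
    MvPolynomial (κ × κ) K :=
  aeval (fun q : (κ ⊕ Fin n) × (κ ⊕ Fin n) =>
    (fromBlocks (Matrix.of fun i j => X (i, j)) 0 0 1 :
      Matrix (κ ⊕ Fin n) (κ ⊕ Fin n) (MvPolynomial (κ × κ) K)) q.1 q.2) f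

theorem ev_dnK {K : Type} [Field K] (v : Matrix κ κ K)
    (f : MvPolynomial ((κ ⊕ Fin n) × (κ ⊕ Fin n)) K) :
    ev v (dnK f) = ev (fromBlocks v 0 0 (1 : Matrix (Fin n) (Fin n) K)) f := by
  unfold Pool.Agent.W528.ZC.ev dnK
  have h : (aeval fun q : κ × κ => v q.1 q.2).comp
      (aeval fun q : (κ ⊕ Fin n) × (κ ⊕ Fin n) =>
      (fromBlocks (Matrix.of fun i j => X (i, j)) 0 0 1 :
        Matrix (κ ⊕ Fin n) (κ ⊕ Fin n) (MvPolynomial (κ × κ) K)) q.1 q.2) =
      (aeval (fun q : (κ ⊕ Fin n) × (κ ⊕ Fin n) =>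
        (fromBlocks v 0 0 (1 : Matrix (Fin n) (Fin n) K)) q.1 q.2) :
        MvPolynomial ((κ ⊕ Fin n) × (κ ⊕ Fin n)) K →ₐ[K] K) := by
    refine MvPolynomial.algHom_ext fun p => ?_
    rw [AlgHom.comp_apply, aeval_X, aeval_X]
    obtain ⟨x, y⟩ := p
    rcases x with x | x <;> rcases y with y | y
    · simp
    · simp
    · simp
    · simp only [Matrix.fromBlocks_apply₂₂, Matrix.one_apply]
      split_ifs <;> simp
  exact congrArg (fun F : MvPolynomial ((κ ⊕ Fin n) × (κ ⊕ Fin n)) K →ₐ[K] K => F f) h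

variable (c) in
/-- `β` preserves the form and the decomposition. -/
structure GalT (Q : Matrix (Fin n) (Fin n) ℚ) (β : Γ →* Matrix (Fin n) (Fin n) ℤ_[ℓ]) : Prop where
  form : ∀ s, (qm (β s))ᵀ * Q.map (algebraMap ℚ ℚ_[ℓ]) * qm (β s) = Q.map (algebraMap ℚ ℚ_[ℓ])
  bd : ∀ s, BD c (β s)

variable {T : HS n} {β : Γ →* Matrix (Fin n) (Fin n) ℤ_[ℓ]} {v : Γ →* Matrix κ κ ℚ_[ℓ]}

theorem GalT.qbd (h : GalT c T.Q β) (s : Γ) : BD c (qm (β s)) := by
  intro a b hab
  unfold qm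
  rw [Matrix.map_apply, h.bd s a b hab, map_zero]

theorem GalT.formK (h : GalT c T.Q β) {K : Type} [Field K] [CharZero K] (j : ℚ_[ℓ] →+* K) (s : Γ) :
    ((qm (β s)).map j)ᵀ * T.Q.map (algebraMap ℚ K) * (qm (β s)).map j =
      T.Q.map (algebraMap ℚ K) := by
  rw [← map_alg j, ← Matrix.transpose_map, ← Matrix.map_mul, ← Matrix.map_mul, h.form s]

theorem GalT.bdK (h : GalT c T.Q β) {K : Type} [Field K] (j : ℚ_[ℓ] →+* K) (s : Γ) :
    BD c ((qm (β s)).map j) := by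
  intro a b hab
  rw [Matrix.map_apply, h.qbd s a b hab, map_zero]

/-- a subgroup of finite index on which all determinants are `1` -/
theorem GalT.exists_det (h : GalT c T.Q β) (hbQ : BD c T.Q) (e : ℚ_[ℓ] →+* ℂ) :
    ∃ Δ : Subgroup Γ, Δ.FiniteIndex ∧ ∀ s ∈ Δ, ∀ i, (bl c i (qm (β s))).det = 1 := by
  have hmul : ∀ s t i, (bl c i ((qm (β (s * t))).map e)).det =
      (bl c i ((qm (β s)).map e)).det * (bl c i ((qm (β t)).map e)).det := by
    intro s t i
    rw [map_mul, qm_mul, Matrix.map_mul, W918.PG.bl_mul (h.bdK e s) (h.bdK e t), Matrix.det_mul]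
  let χ : Fin r → Γ →* ℂ := fun i =>
    { toFun := fun s => (bl c i ((qm (β s)).map e)).det
      map_one' := by
        rw [map_one, qm_one, Matrix.map_one _ (map_zero _) (map_one _), W918.PG.bl_one,
          Matrix.det_one]
      map_mul' := fun s t => hmul s t i }
  have hχ : ∀ i s, χ i s = (bl c i ((qm (β s)).map e)).det := fun i s => rfl
  have hsq : ∀ i s, χ i s * χ i s = 1 := by
    intro i s
    have h1 := congrArg (fun M => (bl c i M).det) (h.formK e s)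
    have hb := h.bdK e s
    have hbt : BD c ((qm (β s)).map e)ᵀ := fun a b hab => hb b a (Ne.symm hab)
    have hbQ' : BD c (mC T.Q) := fun a b hab => by simp [mC, hbQ a b hab]
    rw [← mC_eq] at h1
    rw [W918.PG.bl_mul (W918.PG.bd_mul hbt hbQ') hb, W918.PG.bl_mul hbt hbQ', bl_T,
      Matrix.det_mul, Matrix.det_mul, Matrix.det_transpose] at h1
    have h2 : (bl c i (mC T.Q)).det ≠ 0 := by
      rw [bl_mC, det_mC]
      exact_mod_cast bl_det_ne hbQ i
    rw [hχ]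
    have h4 : (bl c i (mC T.Q)).det * ((bl c i ((qm (β s)).map e)).det *
        (bl c i ((qm (β s)).map e)).det) = (bl c i (mC T.Q)).det * 1 := by
      rw [mul_one]
      linear_combination h1
    exact mul_left_cancel₀ h2 h4
  have hfin : ∀ i, (χ i).toHomUnits.ker.FiniteIndex := by
    intro i
    have h1 : Finite (χ i).toHomUnits.range := by
      refine Set.Finite.subset (Set.toFinite ({1, -1} : Set ℂˣ)) ?_
      rintro _ ⟨s, rfl⟩
      have h2 : ((χ i).toHomUnits s : ℂ) * (χ i).toHomUnits s = 1 := by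
        rw [MonoidHom.coe_toHomUnits]
        exact hsq i s
      rcases mul_self_eq_one_iff.1 h2 with h3 | h3
      · exact Or.inl (Units.ext h3)
      · exact Or.inr (Units.ext (by rw [h3]; simp))
    infer_instance
  refine ⟨⨅ i, (χ i).toHomUnits.ker, Subgroup.finiteIndex_iInf hfin, fun s hs i => ?_⟩
  have h1 : s ∈ (χ i).toHomUnits.ker := (Subgroup.mem_iInf.1 hs) i
  rw [MonoidHom.mem_ker, Units.ext_iff, MonoidHom.coe_toHomUnits, hχ, det_bl_map] at h1
  apply e.injective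
  rw [h1]
  simp

theorem GalT.SO (h : GalT c T.Q β) {K : Type} [Field K] [CharZero K] (j : ℚ_[ℓ] →+* K) {s : Γ}
    (hs : ∀ i, (bl c i (qm (β s))).det = 1) : InSO c T.Q ((qm (β s)).map j) := by
  refine ⟨h.formK j s, h.bdK j s, fun i => ?_⟩
  rw [det_bl_map, hs i, map_one]

variable (c T v β) in
/-- At some place `s_δ` acts on `T_i` and the identity on the other summands. -/
def Node (i : Fin r) : Prop :=
  ∃ (σ : Γ) (δ : Fin n → ℚ_[ℓ]), δ ∈ (col c i : Submodule ℚ_[ℓ] (Fin n → ℚ_[ℓ])) ∧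
    δ ⬝ᵥ T.Q.map (algebraMap ℚ ℚ_[ℓ]) *ᵥ δ ≠ 0 ∧ v σ = 1 ∧
    qm (β σ) = rf (T.Q.map (algebraMap ℚ ℚ_[ℓ])) δ

variable (c β) in
/-- `T_i` is strongly irreducible. -/
def SI (i : Fin r) : Prop :=
  ∀ Δ : Subgroup Γ, Δ.FiniteIndex → ∀ W : Submodule ℚ_[ℓ] (Fin n → ℚ_[ℓ]), W ≤ col c i →
    (∀ s ∈ Δ, ∀ w ∈ W, qm (β s) *ᵥ w ∈ W) → W = ⊥ ∨ W = col c i

theorem wd_outer {Q : Matrix (Fin n) (Fin n) ℂ} (hQ : Qᵀ = Q) (a b : Fin n → ℂ) :
    wd Q a b = (vecMulVec a b - vecMulVec b a) * Q := by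
  unfold wd
  rw [sub_mul, Matrix.vecMulVec_mul, Matrix.vecMulVec_mul, ← Matrix.mulVec_transpose, hQ,
    ← Matrix.mulVec_transpose, hQ]

theorem skew_mem {Q : Matrix (Fin n) (Fin n) ℂ} (hQ : Qᵀ = Q) (hQd : Q.det ≠ 0) (hQb : BD c Q)
    {L : Submodule ℂ (Matrix (κ ⊕ Fin n) (κ ⊕ Fin n) ℂ)}
    (hL : ∀ (i : Fin r) (a b : Fin n → ℂ), a ∈ (col c i : Submodule ℂ (Fin n → ℂ)) →
      b ∈ (col c i : Submodule ℂ (Fin n → ℂ)) → fromBlocks 0 0 0 (wd Q a b) ∈ L)
    {Z : Matrix (Fin n) (Fin n) ℂ} (hZ : Zᵀ * Q + Q * Z = 0) (hZb : BD c Z) :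
    fromBlocks 0 0 0 Z ∈ L := by
  have hu : IsUnit Q.det := isUnit_iff_ne_zero.2 hQd
  obtain ⟨A, hA⟩ : ∃ A, A = Z * Q⁻¹ := ⟨_, rfl⟩
  have hZA : Z = A * Q := by
    rw [hA, Matrix.mul_assoc, Matrix.nonsing_inv_mul _ hu, mul_one]
  have hAb : BD c A := by
    rw [hA]
    exact W918.PG.bd_mul hZb (W918.PG.bd_inv hQb hu)
  have hAt : Aᵀ = -A := by
    have h1 : Q * Aᵀ * Q = -(Q * A * Q) := by
      have h2 : Zᵀ * Q = -(Q * Z) := eq_neg_of_add_eq_zero_left hZ
      rw [hZA, Matrix.transpose_mul, hQ, ← Matrix.mul_assoc] at h2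
      exact h2
    calc Aᵀ = Q⁻¹ * (Q * Aᵀ * Q) * Q⁻¹ := by
          rw [Matrix.mul_assoc Q, ← Matrix.mul_assoc Q⁻¹, Matrix.nonsing_inv_mul _ hu, one_mul,
            Matrix.mul_assoc, Matrix.mul_nonsing_inv _ hu, mul_one]
      _ = -(Q⁻¹ * (Q * A * Q) * Q⁻¹) := by rw [h1]; simp
      _ = -A := by
          rw [Matrix.mul_assoc Q, ← Matrix.mul_assoc Q⁻¹, Matrix.nonsing_inv_mul _ hu, one_mul,
            Matrix.mul_assoc, Matrix.mul_nonsing_inv _ hu, mul_one]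
  have h1 : Z = ∑ x, ∑ y, (A x y / 2) • wd Q (Pi.single x 1) (Pi.single y 1) := by
    have h2 : A = ∑ x, ∑ y, (A x y / 2) •
        (vecMulVec (Pi.single x (1 : ℂ)) (Pi.single y 1) - vecMulVec (Pi.single y 1)
          (Pi.single x 1)) := by
      ext a b
      simp only [Matrix.sum_apply, Matrix.smul_apply, Matrix.sub_apply, vecMulVec_apply,
        smul_eq_mul, mul_sub, Finset.sum_sub_distrib]
      have e1 : ∑ x, ∑ y, A x y / 2 * ((Pi.single x (1 : ℂ) : Fin n → ℂ) a *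
          (Pi.single y (1 : ℂ) : Fin n → ℂ) b) = A a b / 2 := by
        rw [Finset.sum_eq_single a, Finset.sum_eq_single b]
        · simp
        · intro y _ hy
          simp [Pi.single_eq_of_ne (Ne.symm hy)]
        · intro h; exact absurd (Finset.mem_univ _) h
        · intro x _ hx
          refine Finset.sum_eq_zero fun y _ => ?_
          simp [Pi.single_eq_of_ne (Ne.symm hx)]
        · intro h; exact absurd (Finset.mem_univ _) h
      have e2 : ∑ x, ∑ y, A x y / 2 * ((Pi.single y (1 : ℂ) : Fin n → ℂ) a *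
          (Pi.single x (1 : ℂ) : Fin n → ℂ) b) = A b a / 2 := by
        rw [Finset.sum_eq_single b, Finset.sum_eq_single a]
        · simp
        · intro y _ hy
          simp [Pi.single_eq_of_ne (Ne.symm hy)]
        · intro h; exact absurd (Finset.mem_univ _) h
        · intro x _ hx
          refine Finset.sum_eq_zero fun y _ => ?_
          simp [Pi.single_eq_of_ne (Ne.symm hx)]
        · intro h; exact absurd (Finset.mem_univ _) h
      rw [e1, e2]
      have e3 := congrFun (congrFun hAt a) b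
      rw [Matrix.transpose_apply, Matrix.neg_apply] at e3
      rw [e3]
      ring
    conv_lhs => rw [hZA, h2]
    rw [Finset.sum_mul]
    refine Finset.sum_congr rfl fun x _ => ?_
    rw [Finset.sum_mul]
    refine Finset.sum_congr rfl fun y _ => ?_
    rw [Matrix.smul_mul, wd_outer hQ]
  have h2 : (fromBlocks 0 0 0 Z : Matrix (κ ⊕ Fin n) (κ ⊕ Fin n) ℂ) =
      ∑ x, ∑ y, (A x y / 2) • fromBlocks 0 0 0 (wd Q (Pi.single x 1) (Pi.single y 1)) := by
    conv_lhs => rw [h1]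
    ext a b
    simp only [Matrix.sum_apply, Matrix.smul_apply]
    rcases a with a | a <;> rcases b with b | b <;>
      simp [Matrix.sum_apply]
  rw [h2]
  refine Submodule.sum_mem _ fun x _ => Submodule.sum_mem _ fun y _ => ?_
  by_cases hxy : c x = c y
  · refine Submodule.smul_mem _ _ (hL (c x) _ _ ?_ ?_)
    · intro a ha
      rw [Pi.single_eq_of_ne]
      rintro rfl
      exact ha rfl
    · intro a ha
      rw [Pi.single_eq_of_ne]
      rintro rfl
      exact ha hxy.symm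
  · rw [hAb x y hxy, zero_div, zero_smul]
    exact Submodule.zero_mem _

/-- the Lie algebra of the monodromy group contains all `so(T_i)` -/
theorem gal_so (hg : GalT c T.Q β) (hbQ : BD c T.Q) (hnode : ∀ i, Node c T β v i)
    (hSI : ∀ i, SI c β i) (e : ℚ_[ℓ] →+* ℂ) (Z : Matrix (Fin n) (Fin n) ℂ)
    (hZ : Zᵀ * mC T.Q + mC T.Q * Z = 0) (hZb : BD c Z) :
    fromBlocks 0 0 0 Z ∈ LS (IG (tot v β) e) := by
  have hbQ' : BD c (mC T.Q) := fun a b hab => by simp [mC, hbQ a b hab]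
  have hsy : (mC T.Q)ᵀ = mC T.Q := by
    have h1 := congrArg (fun M => mC M) T.symm
    simpa [mC, ← Matrix.transpose_map] using h1
  have hdet : (mC T.Q).det ≠ 0 := by
    rw [det_mC]
    exact_mod_cast W74.PG.det_ne T
  refine skew_mem (c := c) hsy hdet hbQ' (fun i a b ha hb => ?_) hZ hZb
  obtain ⟨σ, δ, h1, h2, h3, h4⟩ := hnode i
  have hQs : (T.Q.map (algebraMap ℚ ℚ_[ℓ]))ᵀ = T.Q.map (algebraMap ℚ ℚ_[ℓ]) := by
    rw [← Matrix.transpose_map, T.symm]
  have h5 := gal_lie (j := e) hQs hg.form (c := c) (i := i) (fun s w hw a ha => ?_) h1 h2 h3 h4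
    (fun W hW hWs => hSI i (cong β) (cong_finite β) W hW hWs) a b ha hb
  · rw [map_alg e, ← mC_eq] at h5
    exact h5
  · rw [Matrix.mulVec, dotProduct]
    refine Finset.sum_eq_zero fun x _ => ?_
    by_cases hx : c x = i
    · rw [hg.qbd s a x (by rw [hx]; exact ha), zero_mul]
    · rw [hw x hx, mul_zero]

theorem SO_St_gal (hg : GalT c T.Q β) (hbQ : BD c T.Q) (hnode : ∀ i, Node c T β v i)
    (hSI : ∀ i, SI c β i) (e : AlgebraicClosure ℚ_[ℓ] →+* ℂ)
    {t : Matrix (Fin n) (Fin n) (AlgebraicClosure ℚ_[ℓ])} (ht : InSO c T.Q t) :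
    fromBlocks 1 0 0 t ∈ St (IG (tot v β) (algebraMap ℚ_[ℓ] (AlgebraicClosure ℚ_[ℓ]))) := by
  refine St_transfer e ?_
  rw [fb_map, Matrix.map_one _ (map_zero e) (map_one e)]
  exact SO_St (T := T) hbQ (fun Z hZ hZb => gal_so hg hbQ hnode hSI _ Z hZ hZb) (InSO_map e ht)

/-- the monodromy group of the direct sum -/
theorem InG0_prod (hg : GalT c T.Q β) (hbQ : BD c T.Q) (hnode : ∀ i, Node c T β v i)
    (hSI : ∀ i, SI c β i) (e : AlgebraicClosure ℚ_[ℓ] →+* ℂ)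
    {g : Matrix (κ ⊕ Fin n) (κ ⊕ Fin n) (AlgebraicClosure ℚ_[ℓ])} :
    InG0 (tot v β) g ↔ g = fromBlocks g.toBlocks₁₁ 0 0 g.toBlocks₂₂ ∧ InG0 v g.toBlocks₁₁ ∧
      InSO c T.Q g.toBlocks₂₂ := by
  obtain ⟨j, hj⟩ : ∃ j, j = algebraMap ℚ_[ℓ] (AlgebraicClosure ℚ_[ℓ]) := ⟨_, rfl⟩
  obtain ⟨Δ₀, hΔ₀, hdet⟩ := hg.exists_det hbQ (e.comp j)
  rw [InG0_iff, InG0_iff]
  have htot : ∀ s, (tot v β s).map j = fromBlocks ((v s).map j) 0 0 ((qm (β s)).map j) :=
    fun s => fb_map _ _ _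
  rw [← hj]
  constructor
  · intro h
    obtain ⟨h1, h2⟩ := (PSO_iff (c := c) (Q := T.Q) g).1 fun f hf => by
      rw [← ev_toK]
      refine h _ ⟨Δ₀, hΔ₀, fun s hs => ?_⟩
      rw [ev_toK]
      refine (PSO_iff (c := c) (Q := T.Q) _).2 ⟨?_, ?_⟩ f hf
      · rw [htot, Matrix.toBlocks_fromBlocks₁₁, Matrix.toBlocks_fromBlocks₂₂]
      · rw [htot, Matrix.toBlocks_fromBlocks₂₂]
        exact hg.SO j (hdet s hs)
    refine ⟨h1, ?_, h2⟩
    rintro f ⟨Δ, hΔ, hf⟩
    rw [← ev_upK (n := n)]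
    refine h _ ⟨Δ, hΔ, fun s hs => ?_⟩
    rw [ev_upK, htot, Matrix.toBlocks_fromBlocks₁₁]
    exact hf s hs
  · rintro ⟨h1, h2, h3⟩ f hf
    have hSt := SO_St_gal (v := v) hg hbQ hnode hSI e h3
    rw [← hj] at hSt
    have h4 : g = 1 * fromBlocks g.toBlocks₁₁ 0 0 1 * fromBlocks 1 0 0 g.toBlocks₂₂ := by
      rw [one_mul, fb_mul, mul_one, one_mul]
      exact h1
    rw [h4, ← ev_sub]
    have h5 := hSt f hf
    generalize sub 1 (fromBlocks 1 0 0 g.toBlocks₂₂) f = f' at h5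
    rw [← ev_dnK]
    refine h2 _ ?_
    obtain ⟨Δ₁, hΔ₁, hu⟩ := exists_unif (tot v β) j
    refine ⟨Δ₀ ⊓ Δ₁, inferInstance, fun s hs => ?_⟩
    rw [ev_dnK]
    have hSt' := SO_St_gal (v := v) hg hbQ hnode hSI e
      (hg.SO j (hdet s⁻¹ (Δ₀.inv_mem hs.1)))
    rw [← hj] at hSt'
    have h6 := hu _ (hSt' f' h5) s hs.2
    rw [ev_sub, htot, one_mul, fb_mul, mul_one] at h6
    have h7 : (qm (β s)).map j * (qm (β s⁻¹)).map j = 1 := by
      rw [← Matrix.map_mul, ← qm_mul, ← map_mul, mul_inv_cancel, map_one, qm_one,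
        Matrix.map_one _ (map_zero _) (map_one _)]
    rwa [h7] at h6

end prod

end

end Pool.Agent.Y95.MT
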