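import Mathlib
import Pool.Agent.Y95.MT.GalSide

/-!
# The special orthogonal group acts irreducibly
-/

set_option autoImplicit false
set_option linter.unusedSectionVars false

namespace Pool.Agent.Y95.MT

open Matrix Pool.Agent.W544.PG

noncomputable section

variable {F : Type} [Field F] [CharZero F] {n r : ℕ} {c : Fin n → Fin r} {i : Fin r}
  {Q : Matrix (Fin n) (Fin n) F}

theorem mulVec_col (hQb : BD c Q) {w : Fin n → F} (hw : w ∈ (col c i : Submodule F (Fin n → F))) :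
    Q *ᵥ w ∈ (col c i : Submodule F (Fin n → F)) := by
  intro a ha
  rw [Matrix.mulVec, dotProduct]
  refine Finset.sum_eq_zero fun b _ => ?_
  by_cases hb : c b = i
  · rw [hQb a b (by rw [hb]; exact ha), zero_mul]
  · rw [hw b hb, mul_zero]

theorem single_dot (a : Fin n) (v : Fin n → F) : (Pi.single a (1 : F) : Fin n → F) ⬝ᵥ v = v a := by
  simp [dotProduct, Pi.single_apply]

theorem single_col {a : Fin n} (ha : c a = i) :
    (Pi.single a (1 : F) : Fin n → F) ∈ (col c i : Submodule F (Fin n → F)) := by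
  intro b hb
  rw [Pi.single_eq_of_ne]
  rintro rfl
  exact hb ha

/-- a vector of colour `i` orthogonal to all vectors of colour `i` is zero -/
theorem col_nondeg (hQ : Qᵀ = Q) (hQb : BD c Q) (hQd : Q.det ≠ 0) {w : Fin n → F}
    (hw : w ∈ (col c i : Submodule F (Fin n → F)))
    (h : ∀ a, c a = i → (Q *ᵥ w) a = 0) : w = 0 := by
  have h1 : Q *ᵥ w = 0 := by
    funext a
    by_cases ha : c a = i
    · exact h a ha
    · exact mulVec_col hQb hw a ha
  have hu : IsUnit Q.det := isUnit_iff_ne_zero.2 hQd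
  calc w = (Q⁻¹ * Q) *ᵥ w := by rw [Matrix.nonsing_inv_mul _ hu, Matrix.one_mulVec]
    _ = 0 := by rw [← Matrix.mulVec_mulVec, h1, Matrix.mulVec_zero]

theorem exists_dual (hQ : Qᵀ = Q) (hQb : BD c Q) (hQd : Q.det ≠ 0) {w : Fin n → F}
    (hw : w ∈ (col c i : Submodule F (Fin n → F))) (hw0 : w ≠ 0) :
    ∃ x ∈ (col c i : Submodule F (Fin n → F)), x ⬝ᵥ Q *ᵥ w = 1 := by
  by_contra hcon
  push Not at hcon
  apply hw0
  refine col_nondeg hQ hQb hQd hw fun a ha => ?_
  by_contra h0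
  refine hcon (((Q *ᵥ w) a)⁻¹ • Pi.single a 1) (Submodule.smul_mem _ _ (single_col ha)) ?_
  rw [smul_dotProduct, single_dot, smul_eq_mul, inv_mul_cancel₀ h0]

theorem exists_orth (hQ : Qᵀ = Q) (hQb : BD c Q) (hQd : Q.det ≠ 0)
    (h3 : 3 ≤ (Finset.univ.filter fun a => c a = i).card) {w : Fin n → F}
    (hw : w ∈ (col c i : Submodule F (Fin n → F))) (hw0 : w ≠ 0) :
    ∃ b ∈ (col c i : Submodule F (Fin n → F)), b ⬝ᵥ Q *ᵥ w = 0 ∧ b ⬝ᵥ Q *ᵥ b ≠ 0 := by
  by_contra hcon
  push Not at hcon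
  obtain ⟨x, hx, hxw⟩ := exists_dual hQ hQb hQd hw hw0
  obtain ⟨α, hα⟩ : ∃ α, α = Q *ᵥ w := ⟨_, rfl⟩
  obtain ⟨ξ, hξ⟩ : ∃ ξ, ξ = Q *ᵥ x := ⟨_, rfl⟩
  -- polarization
  have hpol : ∀ a ∈ (col c i : Submodule F (Fin n → F)), ∀ b ∈ (col c i : Submodule F (Fin n → F)),
      a ⬝ᵥ Q *ᵥ w = 0 → b ⬝ᵥ Q *ᵥ w = 0 → a ⬝ᵥ Q *ᵥ b = 0 := by
    intro a ha b hb ha0 hb0
    have h1 := hcon (a + b) (Submodule.add_mem _ ha hb) (by rw [add_dotProduct, ha0, hb0, add_zero])
    rw [Matrix.mulVec_add, dotProduct_add, add_dotProduct, add_dotProduct, hcon a ha ha0,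
      hcon b hb hb0, bsymm hQ b a, zero_add, add_zero] at h1
    have h2 : (2 : F) * (a ⬝ᵥ Q *ᵥ b) = 0 := by rw [two_mul]; exact h1
    exact (mul_eq_zero.1 h2).resolve_left two_ne_zero
  have hform : ∀ a b, c a = i → c b = i →
      Q a b = α a * ξ b + α b * ξ a - α a * α b * (x ⬝ᵥ Q *ᵥ x) := by
    intro a b ha hb
    have h1 : ∀ a, (Pi.single a (1 : F) : Fin n → F) ⬝ᵥ Q *ᵥ w = α a := fun a => by
      rw [single_dot, hα]
    have h2 : ∀ a, (Pi.single a (1 : F) : Fin n → F) ⬝ᵥ Q *ᵥ x = ξ a := fun a => by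
      rw [single_dot, hξ]
    have h4 := hpol (Pi.single a 1 - α a • x) (Submodule.sub_mem _ (single_col ha)
      (Submodule.smul_mem _ _ hx)) (Pi.single b 1 - α b • x) (Submodule.sub_mem _ (single_col hb)
      (Submodule.smul_mem _ _ hx)) (by
        rw [sub_dotProduct, smul_dotProduct, h1, hxw, smul_eq_mul, mul_one, sub_self]) (by
        rw [sub_dotProduct, smul_dotProduct, h1, hxw, smul_eq_mul, mul_one, sub_self])
    rw [Matrix.mulVec_sub, Matrix.mulVec_smul, dotProduct_sub, dotProduct_smul, sub_dotProduct,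
      sub_dotProduct, smul_dotProduct, smul_dotProduct, h2,
      bsymm hQ x (Pi.single b 1), h2] at h4
    have h5 : (Pi.single a (1 : F) : Fin n → F) ⬝ᵥ Q *ᵥ Pi.single b 1 = Q a b := by
      rw [single_dot, Matrix.mulVec_single_one]
      rfl
    rw [h5] at h4
    simp only [smul_eq_mul] at h4
    linear_combination h4
  -- a vector in the kernel
  obtain ⟨f, hf⟩ : ∃ f : ({a // c a = i} → F) →ₗ[F] (Fin 2 → F), ∀ u,
      f u = ![∑ a : {a // c a = i}, α a.1 * u a, ∑ a : {a // c a = i}, ξ a.1 * u a] := by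
    refine ⟨{ toFun := fun u => ![∑ a : {a // c a = i}, α a.1 * u a,
                ∑ a : {a // c a = i}, ξ a.1 * u a]
              map_add' := ?_
              map_smul' := ?_ }, fun u => rfl⟩
    · intro u v
      funext k
      fin_cases k <;> simp [mul_add, Finset.sum_add_distrib]
    · intro z u
      funext k
      fin_cases k <;> simp [Finset.mul_sum, mul_left_comm]
  have hker : LinearMap.ker f ≠ ⊥ := by
    apply LinearMap.ker_ne_bot_of_finrank_lt
    rw [Module.finrank_fin_fun, Module.finrank_fintype_fun_eq_card, Fintype.card_subtype]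
    omega
  obtain ⟨u, hu, hu0⟩ := (Submodule.ne_bot_iff _).1 hker
  rw [LinearMap.mem_ker, hf] at hu
  have hu1 : ∑ a : {a // c a = i}, α a.1 * u a = 0 := congrFun hu 0
  have hu2 : ∑ a : {a // c a = i}, ξ a.1 * u a = 0 := congrFun hu 1
  obtain ⟨U, hU⟩ : ∃ U : Fin n → F, U = fun a => if h : c a = i then u ⟨a, h⟩ else 0 := ⟨_, rfl⟩
  have hUc : U ∈ (col c i : Submodule F (Fin n → F)) := by
    intro a ha
    rw [hU]
    simp [ha]
  have hUs : ∀ z : Fin n → F, ∑ a, z a * U a = ∑ a : {a // c a = i}, z a.1 * u a := by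
    intro z
    have h1 : ∑ a : {a // c a = i}, z a.1 * u a = ∑ a : {a // c a = i}, z a.1 * U a.1 := by
      refine Finset.sum_congr rfl fun a _ => ?_
      rw [hU]
      simp [a.2]
    rw [h1, ← Finset.sum_subtype (Finset.univ.filter fun a => c a = i) (by simp)
      (fun a => z a * U a)]
    rw [← Finset.sum_filter_add_sum_filter_not Finset.univ (fun a => c a = i)]
    have h2 : ∑ a with ¬ c a = i, z a * U a = 0 := by
      refine Finset.sum_eq_zero fun a ha => ?_
      rw [hUc a (Finset.mem_filter.1 ha).2, mul_zero]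
    rw [h2, add_zero]
  have hU0 : U = 0 := by
    refine col_nondeg hQ hQb hQd hUc fun a ha => ?_
    rw [Matrix.mulVec, dotProduct]
    have h1 : ∑ b, Q a b * U b = ∑ b, (α a * ξ b + α b * ξ a - α a * α b * (x ⬝ᵥ Q *ᵥ x)) * U b := by
      refine Finset.sum_congr rfl fun b _ => ?_
      by_cases hb : c b = i
      · rw [hform a b ha hb]
      · rw [hUc b hb, mul_zero, mul_zero]
    rw [h1]
    have h2 : ∀ b, (α a * ξ b + α b * ξ a - α a * α b * (x ⬝ᵥ Q *ᵥ x)) * U b =
        α a * (ξ b * U b) + (ξ a - α a * (x ⬝ᵥ Q *ᵥ x)) * (α b * U b) := fun b => by ring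
    simp only [h2, Finset.sum_add_distrib, ← Finset.mul_sum]
    rw [hUs, hUs, hu1, hu2, mul_zero, mul_zero, add_zero]
  apply hu0
  funext a
  have h1 := congrFun hU0 a.1
  rw [hU] at h1
  simpa [a.2] using h1

/-! ### Products of two reflections -/

theorem rf_iso (hQ : Qᵀ = Q) {a : Fin n → F} (ha : a ⬝ᵥ Q *ᵥ a ≠ 0) :
    (rf Q a)ᵀ * Q * rf Q a = Q := by
  have h1 : (rf Q a)ᵀ * Q = Q * rf Q a := by
    unfold rf
    rw [Matrix.transpose_sub, Matrix.transpose_one, Matrix.transpose_smul,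
      Matrix.transpose_vecMulVec, sub_mul, mul_sub, one_mul, mul_one, Matrix.smul_mul,
      Matrix.mul_smul, Matrix.vecMulVec_mul, Matrix.mul_vecMulVec, ← Matrix.mulVec_transpose, hQ]
  rw [h1, Matrix.mul_assoc, rf_mul_self ha, mul_one]

theorem rf_mulVec (a w : Fin n → F) :
    rf Q a *ᵥ w = w - (2 / (a ⬝ᵥ Q *ᵥ a) * (Q *ᵥ a ⬝ᵥ w)) • a := by
  unfold rf
  rw [Matrix.sub_mulVec, Matrix.one_mulVec, Matrix.smul_mulVec, Matrix.vecMulVec_mulVec,
    op_smul_eq_smul, smul_smul]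

theorem rf_det {a : Fin n → F} (ha : a ⬝ᵥ Q *ᵥ a ≠ 0) : (rf Q a).det = -1 := by
  have h1 : rf Q a = 1 + Matrix.replicateCol Unit ((-(2 / (a ⬝ᵥ Q *ᵥ a))) • a) *
      Matrix.replicateRow Unit (Q *ᵥ a) := by
    rw [← Matrix.vecMulVec_eq]
    unfold rf
    ext x y
    simp [vecMulVec_apply]
    ring
  rw [h1, Matrix.det_one_add_replicateCol_mul_replicateRow, dotProduct_smul, smul_eq_mul,
    dotProduct_comm (Q *ᵥ a)]
  field_simp
  norm_num

theorem rf_entry (hQb : BD c Q) {a : Fin n → F} (ha : a ∈ (col c i : Submodule F (Fin n → F)))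
    (x y : Fin n) (h : ¬ (c x = i ∧ c y = i)) : rf Q a x y = (1 : Matrix (Fin n) (Fin n) F) x y := by
  unfold rf
  rw [Matrix.sub_apply, Matrix.smul_apply, vecMulVec_apply]
  by_cases hx : c x = i
  · have hy : c y ≠ i := fun hy => h ⟨hx, hy⟩
    rw [mulVec_col hQb ha y hy, mul_zero, smul_zero, sub_zero]
  · rw [ha x hx, zero_mul, smul_zero, sub_zero]

theorem rr_entry (hQb : BD c Q) {a b : Fin n → F} (ha : a ∈ (col c i : Submodule F (Fin n → F)))
    (hb : b ∈ (col c i : Submodule F (Fin n → F)))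
    (x y : Fin n) (h : ¬ (c x = i ∧ c y = i)) :
    (rf Q a * rf Q b) x y = (1 : Matrix (Fin n) (Fin n) F) x y := by
  rw [Matrix.mul_apply]
  by_cases hx : c x = i
  · have hy : c y ≠ i := fun hy => h ⟨hx, hy⟩
    have hne : x ≠ y := by
      rintro rfl
      exact hy hx
    rw [Matrix.one_apply_ne hne]
    refine Finset.sum_eq_zero fun z _ => ?_
    by_cases hz : c z = i
    · rw [rf_entry hQb hb z y (fun h => hy h.2), Matrix.one_apply_ne, mul_zero]
      rintro rfl
      exact hy hz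
    · rw [rf_entry hQb ha x z (fun h => hz h.2), Matrix.one_apply_ne, zero_mul]
      rintro rfl
      exact hz hx
  · rw [Finset.sum_eq_single x]
    · rw [rf_entry hQb ha x x (fun h => hx h.1), Matrix.one_apply_eq, one_mul,
        rf_entry hQb hb x y (fun h => hx h.1)]
    · intro z _ hz
      rw [rf_entry hQb ha x z (fun h => hx h.1), Matrix.one_apply_ne (Ne.symm hz), zero_mul]
    · intro h
      exact absurd (Finset.mem_univ _) h

theorem rr_SO [Algebra ℚ F] {Q : Matrix (Fin n) (Fin n) ℚ} (hQ : Qᵀ = Q) (hQb : BD c Q)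
    {a b : Fin n → F}
    (ha : a ∈ (col c i : Submodule F (Fin n → F))) (hb : b ∈ (col c i : Submodule F (Fin n → F)))
    (ha0 : a ⬝ᵥ Q.map (algebraMap ℚ F) *ᵥ a ≠ 0) (hb0 : b ⬝ᵥ Q.map (algebraMap ℚ F) *ᵥ b ≠ 0) :
    InSO c Q (rf (Q.map (algebraMap ℚ F)) a * rf (Q.map (algebraMap ℚ F)) b) := by
  have hQ' : (Q.map (algebraMap ℚ F))ᵀ = Q.map (algebraMap ℚ F) := by
    rw [← Matrix.transpose_map, hQ]
  have hQb' : BD c (Q.map (algebraMap ℚ F)) := fun x y h => by
    rw [Matrix.map_apply, hQb x y h, map_zero]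
  have hent := rr_entry hQb' ha hb
  refine ⟨?_, fun x y hxy => ?_, fun k => ?_⟩
  · have h1 := rf_iso hQ' ha0
    have h2 := rf_iso hQ' hb0
    generalize Q.map (algebraMap ℚ F) = B at h1 h2
    rw [Matrix.transpose_mul]
    calc (rf B b)ᵀ * (rf B a)ᵀ * B * (rf B a * rf B b) =
          (rf B b)ᵀ * ((rf B a)ᵀ * B * rf B a) * rf B b := by simp only [Matrix.mul_assoc]
      _ = B := by rw [h1, h2]
  · rw [hent x y (fun h => hxy (h.1.trans h.2.symm)), Matrix.one_apply_ne]
    rintro rfl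
    exact hxy rfl
  · by_cases hk : k = i
    · subst hk
      have h1 : bl c k (rf (Q.map (algebraMap ℚ F)) a * rf (Q.map (algebraMap ℚ F)) b) =
          rf (Q.map (algebraMap ℚ F)) a * rf (Q.map (algebraMap ℚ F)) b := by
        ext x y
        unfold bl
        rw [Matrix.of_apply]
        split_ifs with h1 h2
        · rfl
        · rw [hent x y h1, h2, Matrix.one_apply_eq]
        · rw [hent x y h1, Matrix.one_apply_ne h2]
      rw [h1, Matrix.det_mul, rf_det ha0, rf_det hb0]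
      norm_num
    · have h1 : bl c k (rf (Q.map (algebraMap ℚ F)) a * rf (Q.map (algebraMap ℚ F)) b) = 1 := by
        ext x y
        unfold bl
        rw [Matrix.of_apply]
        split_ifs with h1 h2
        · exact hent x y (fun h => hk (h1.1.symm.trans h.1))
        · rw [h2, Matrix.one_apply_eq]
        · rw [Matrix.one_apply_ne h2]
      rw [h1, Matrix.det_one]

/-- the special orthogonal group acts irreducibly -/
theorem SO_irr [Algebra ℚ F] {Q : Matrix (Fin n) (Fin n) ℚ} (hQ : Qᵀ = Q) (hQb : BD c Q)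
    (hQd : Q.det ≠ 0)
    (h3 : 3 ≤ (Finset.univ.filter fun a => c a = i).card) {W : Submodule F (Fin n → F)}
    (hW : W ≤ col c i) (hWs : ∀ t : Matrix (Fin n) (Fin n) F, InSO c Q t → ∀ w ∈ W, t *ᵥ w ∈ W) :
    W = ⊥ ∨ W = col c i := by
  have hQ' : (Q.map (algebraMap ℚ F))ᵀ = Q.map (algebraMap ℚ F) := by
    rw [← Matrix.transpose_map, hQ]
  have hQb' : BD c (Q.map (algebraMap ℚ F)) := fun x y h => by
    rw [Matrix.map_apply, hQb x y h, map_zero]
  have hQd' : (Q.map (algebraMap ℚ F)).det ≠ 0 := by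
    have h2 : (Q.map (algebraMap ℚ F)).det = algebraMap ℚ F Q.det :=
      ((algebraMap ℚ F).map_det Q).symm
    rw [h2]
    exact (map_ne_zero _).2 hQd
  have hSO := fun (a b : Fin n → F) ha hb ha0 hb0 =>
    hWs _ (rr_SO (F := F) (i := i) (a := a) (b := b) hQ hQb ha hb ha0 hb0)
  generalize Q.map (algebraMap ℚ F) = B at hQ' hQb' hQd' hSO
  by_cases hW0 : W = ⊥
  · exact Or.inl hW0
  refine Or.inr (le_antisymm hW fun y hy => ?_)
  obtain ⟨w, hw, hw0⟩ := (Submodule.ne_bot_iff _).1 hW0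
  obtain ⟨b, hb, hbw, hbb⟩ := exists_orth hQ' hQb' hQd' h3 (hW hw) hw0
  obtain ⟨x, hx, hxw⟩ := exists_dual hQ' hQb' hQd' (hW hw) hw0
  -- anisotropic vectors not orthogonal to `w`
  have key : ∀ a ∈ (col c i : Submodule F (Fin n → F)), a ⬝ᵥ B *ᵥ a ≠ 0 → a ⬝ᵥ B *ᵥ w ≠ 0 →
      a ∈ W := by
    intro a ha ha0 haw
    have h1 := hSO a b ha hb ha0 hbb w hw
    rw [← Matrix.mulVec_mulVec, rf_mulVec b, dotProduct_comm (B *ᵥ b), bsymm hQ' w b, hbw,
      mul_zero, zero_smul, sub_zero, rf_mulVec, dotProduct_comm (B *ᵥ a), bsymm hQ' w a] at h1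
    have h2 := Submodule.sub_mem _ hw h1
    rw [sub_sub_cancel] at h2
    refine (Submodule.smul_mem_iff _ ?_).1 h2
    exact mul_ne_zero (div_ne_zero two_ne_zero ha0) haw
  obtain ⟨a0, ha0, ha0a, ha0w⟩ : ∃ a ∈ (col c i : Submodule F (Fin n → F)),
      a ⬝ᵥ B *ᵥ a ≠ 0 ∧ a ⬝ᵥ B *ᵥ w ≠ 0 := by
    by_contra hcon
    push Not at hcon
    have h1 : x ⬝ᵥ B *ᵥ x = 0 := by
      by_contra h
      have h2 := hcon x hx h
      rw [hxw] at h2
      exact one_ne_zero h2
    have h2 : (x + b) ⬝ᵥ B *ᵥ (x + b) = 0 := by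
      by_contra h
      have h2 := hcon (x + b) (Submodule.add_mem _ hx hb) h
      rw [add_dotProduct, hxw, hbw, add_zero] at h2
      exact one_ne_zero h2
    have h3 : (x - b) ⬝ᵥ B *ᵥ (x - b) = 0 := by
      by_contra h
      have h2 := hcon (x - b) (Submodule.sub_mem _ hx hb) h
      rw [sub_dotProduct, hxw, hbw, sub_zero] at h2
      exact one_ne_zero h2
    rw [Matrix.mulVec_add, dotProduct_add, add_dotProduct, add_dotProduct, h1] at h2
    rw [Matrix.mulVec_sub, dotProduct_sub, sub_dotProduct, sub_dotProduct, h1] at h3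
    apply hbb
    have h4 : (2 : F) * (b ⬝ᵥ B *ᵥ b) = 0 := by linear_combination h2 + h3
    exact (mul_eq_zero.1 h4).resolve_left two_ne_zero
  have ha0W := key a0 ha0 ha0a ha0w
  -- a good multiple
  obtain ⟨P, hP⟩ : ∃ P : Polynomial F, P = Polynomial.X *
      ((Polynomial.C (a0 ⬝ᵥ B *ᵥ w) + Polynomial.C (y ⬝ᵥ B *ᵥ w) * Polynomial.X) *
      (Polynomial.C (a0 ⬝ᵥ B *ᵥ a0) + Polynomial.C (2 * (a0 ⬝ᵥ B *ᵥ y)) * Polynomial.X +
        Polynomial.C (y ⬝ᵥ B *ᵥ y) * Polynomial.X ^ 2)) := ⟨_, rfl⟩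
  have hP0 : P ≠ 0 := by
    rw [hP]
    refine mul_ne_zero Polynomial.X_ne_zero (mul_ne_zero ?_ ?_)
    · intro h
      have h1 := congrArg (Polynomial.eval 0) h
      simp at h1
      exact ha0w h1
    · intro h
      have h1 := congrArg (Polynomial.eval 0) h
      simp at h1
      exact ha0a h1
  obtain ⟨s, hs⟩ : ∃ s : F, P.eval s ≠ 0 := by
    by_contra hcon
    push Not at hcon
    exact hP0 (Polynomial.funext fun s => by rw [hcon s, Polynomial.eval_zero])
  rw [hP] at hs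
  simp only [Polynomial.eval_mul, Polynomial.eval_X, Polynomial.eval_add, Polynomial.eval_C,
    Polynomial.eval_pow] at hs
  have hs0 : s ≠ 0 := left_ne_zero_of_mul hs
  have hs1 := left_ne_zero_of_mul (right_ne_zero_of_mul hs)
  have hs2 := right_ne_zero_of_mul (right_ne_zero_of_mul hs)
  have h1 : a0 + s • y ∈ W := by
    refine key _ (Submodule.add_mem _ ha0 (Submodule.smul_mem _ _ hy)) ?_ ?_
    · rw [Matrix.mulVec_add, Matrix.mulVec_smul, dotProduct_add, add_dotProduct, add_dotProduct,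
        dotProduct_smul, dotProduct_smul, smul_dotProduct, smul_dotProduct, bsymm hQ' y a0]
      simp only [smul_eq_mul]
      intro h
      apply hs2
      linear_combination h
    · rw [add_dotProduct, smul_dotProduct, smul_eq_mul]
      intro h
      apply hs1
      linear_combination h
  have h2 := Submodule.sub_mem _ h1 ha0W
  rw [add_sub_cancel_left] at h2
  exact (Submodule.smul_mem_iff _ hs0).1 h2

end

end Pool.Agent.Y95.MT
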