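import Mathlib
import Pool.Agent.Y95.MT.Irr
import Pool.Agent.W435.PG.SQR

/-!
# The Mumford-Tate conjecture for direct sums
-/

set_option autoImplicit false
set_option linter.unusedSectionVars false

namespace Pool.Agent.Y95.MT

open MvPolynomial Matrix Pool.Agent.W544.PG

noncomputable section

variable {ℓ : ℕ} [Fact ℓ.Prime] {n r : ℕ} {κ : Type} [Fintype κ] [DecidableEq κ] {Γ : Type}
  [Group Γ] {c : Fin n → Fin r} {T : HS n} {p q : Fin r → ℕ}
  {β : Γ →* Matrix (Fin n) (Fin n) ℤ_[ℓ]} {v : Γ →* Matrix κ κ ℚ_[ℓ]} {hV : ℂ → Matrix κ κ ℂ}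

theorem exists_emb (ℓ : ℕ) [Fact ℓ.Prime] : Nonempty (AlgebraicClosure ℚ_[ℓ] →+* ℂ) := by
  obtain ⟨f⟩ := W435.PG.emb ℓ
  letI : Algebra ℚ_[ℓ] ℂ := f.toAlgebra
  exact ⟨(IsAlgClosed.lift (R := ℚ_[ℓ]) (S := AlgebraicClosure ℚ_[ℓ]) (M := ℂ) :
    AlgebraicClosure ℚ_[ℓ] →ₐ[ℚ_[ℓ]] ℂ).toRingHom⟩

theorem InMT_one {R : Type} [Field R] [Algebra ℚ R] (e : R →+* ℂ) (h : ℂ → Matrix κ κ ℂ) :
    InMT h (1 : Matrix κ κ R) := by
  intro f hf
  have h1 := hf 1 MT_one
  rw [← Matrix.map_one e (map_zero e) (map_one e), vQ_map] at h1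
  exact (map_eq_zero e).1 h1

theorem Big.card (hB : T.Big c p q) (i : Fin r) :
    3 ≤ (Finset.univ.filter fun a => c a = i).card := by
  rw [hB.rk i]
  rcases hB.num i with h | ⟨h0, h⟩
  · omega
  · have hlt : 2 * p i < q i := by
      by_contra h'
      rw [Nat.sub_eq_zero_of_le (not_lt.1 h'), zero_mul] at h
      omega
    omega

theorem SI_of_MTC (hB : T.Big c p q) (hVd : ∀ z, z ≠ 0 → (hV z).det ≠ 0)
    (hx : fromBlocks 0 0 0 T.x ∈ LS (SH (hM hV T))) (h : MTC (hM hV T) (tot v β)) (i : Fin r) :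
    SI c β i := by
  obtain ⟨e⟩ := exists_emb ℓ
  intro Δ hΔ W hW hWs
  refine SO_irr (F := ℚ_[ℓ]) T.symm hB.bQ (W74.PG.det_ne T) (Big.card hB i) hW fun t ht w hw => ?_
  by_contra hcon
  obtain ⟨φ, hφ, hφW⟩ := Submodule.exists_le_ker_of_notMem hcon
  obtain ⟨j, hj⟩ : ∃ j, j = algebraMap ℚ_[ℓ] (AlgebraicClosure ℚ_[ℓ]) := ⟨_, rfl⟩
  have hg : InMT (hM hV T) (fromBlocks (1 : Matrix κ κ (AlgebraicClosure ℚ_[ℓ])) 0 0 (t.map j)) := by
    rw [InMT_iff (c := c) hB hVd hx e]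
    · rw [Matrix.toBlocks_fromBlocks₁₁, Matrix.toBlocks_fromBlocks₂₂]
      exact ⟨rfl, InMT_one e hV, InSO_map j ht⟩
    · rw [fb_det, Matrix.det_one, one_mul]
      exact InSO_det (W74.PG.det_ne T) (InSO_map j ht)
  rw [← h _ (by
    rw [fb_det, Matrix.det_one, one_mul]
    exact InSO_det (W74.PG.det_ne T) (InSO_map j ht))] at hg
  have hlin : ∀ u : Fin n → ℚ_[ℓ], φ u = ∑ a, φ (Pi.single a 1) * u a := by
    intro u
    conv_lhs => rw [← Finset.univ_sum_single u]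
    rw [map_sum]
    refine Finset.sum_congr rfl fun a _ => ?_
    rw [show (Pi.single a (u a) : Fin n → ℚ_[ℓ]) = u a • Pi.single a 1 by
      rw [← Pi.single_smul, smul_eq_mul, mul_one], map_smul, smul_eq_mul, mul_comm]
  obtain ⟨f, hf⟩ : ∃ f : MvPolynomial ((κ ⊕ Fin n) × (κ ⊕ Fin n)) (AlgebraicClosure ℚ_[ℓ]),
      f = ∑ a, ∑ b, C (j (φ (Pi.single a 1) * w b)) * X (Sum.inr a, Sum.inr b) := ⟨_, rfl⟩
  have hev : ∀ (g : Matrix κ κ ℚ_[ℓ]) (M : Matrix (Fin n) (Fin n) ℚ_[ℓ]),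
      aeval (fun q : (κ ⊕ Fin n) × (κ ⊕ Fin n) => j ((fromBlocks g 0 0 M) q.1 q.2)) f =
      j (φ (M *ᵥ w)) := by
    intro g M
    rw [hf, hlin, map_sum, map_sum]
    refine Finset.sum_congr rfl fun a _ => ?_
    rw [Matrix.mulVec, dotProduct, Finset.mul_sum, map_sum, map_sum]
    refine Finset.sum_congr rfl fun b _ => ?_
    rw [map_mul, aeval_X, aeval_C]
    simp only [Matrix.fromBlocks_apply₂₂, map_mul, Algebra.algebraMap_self, RingHom.id_apply]
    ring
  have h1 := hg f ⟨Δ, hΔ, fun s hs => by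
    have h2 := hev (v s) (qm (β s))
    have h3 : φ (qm (β s) *ᵥ w) = 0 := LinearMap.mem_ker.1 (hφW (hWs s hs w hw))
    rw [h3, map_zero, hj] at h2
    exact h2⟩
  have h2 := hev 1 t
  have h3 : (aeval (fun q : (κ ⊕ Fin n) × (κ ⊕ Fin n) => (fromBlocks
      (1 : Matrix κ κ (AlgebraicClosure ℚ_[ℓ])) 0 0 (t.map j)) q.1 q.2) f :
      AlgebraicClosure ℚ_[ℓ]) =
      aeval (fun q : (κ ⊕ Fin n) × (κ ⊕ Fin n) => j ((fromBlocks 1 0 0 t) q.1 q.2)) f := by
    congr 1
    congr 1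
    funext q
    have h4 : fromBlocks (1 : Matrix κ κ (AlgebraicClosure ℚ_[ℓ])) 0 0 (t.map j) =
        (fromBlocks 1 0 0 t : Matrix (κ ⊕ Fin n) (κ ⊕ Fin n) ℚ_[ℓ]).map j := by
      rw [fb_map, Matrix.map_one _ (map_zero j) (map_one j)]
    rw [h4]
    rfl
  rw [h3, h2] at h1
  exact hφ ((map_eq_zero j).1 h1)

/-- **The Mumford-Tate conjecture for a direct sum.** -/
theorem main (hB : T.Big c p q) (hVd : ∀ z, z ≠ 0 → (hV z).det ≠ 0)
    (hx : fromBlocks 0 0 0 T.x ∈ LS (SH (hM hV T))) (hg : GalT c T.Q β)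
    (hnode : ∀ i, Node c T β v i) :
    MTC (hM hV T) (tot v β) ↔ MTC hV v ∧ ∀ i, SI c β i := by
  obtain ⟨e⟩ := exists_emb ℓ
  constructor
  · intro h
    have hSI := SI_of_MTC hB hVd hx h
    refine ⟨fun g hgd => ?_, hSI⟩
    have hd : (fromBlocks g 0 0 (1 : Matrix (Fin n) (Fin n) (AlgebraicClosure ℚ_[ℓ]))).det ≠ 0 := by
      rw [fb_det, Matrix.det_one, mul_one]
      exact hgd
    have h1 := h _ hd
    rw [InG0_prod hg hB.bQ hnode hSI e, InMT_iff (c := c) hB hVd hx e hd,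
      Matrix.toBlocks_fromBlocks₁₁, Matrix.toBlocks_fromBlocks₂₂] at h1
    have h2 : InSO c T.Q (1 : Matrix (Fin n) (Fin n) (AlgebraicClosure ℚ_[ℓ])) := InSO_one _
    constructor
    · intro h3
      exact (h1.1 ⟨rfl, h3, h2⟩).2.1
    · intro h3
      exact (h1.2 ⟨rfl, h3, h2⟩).2.1
  · rintro ⟨h, hSI⟩ g hgd
    rw [InG0_prod hg hB.bQ hnode hSI e, InMT_iff (c := c) hB hVd hx e hgd]
    refine and_congr_right fun h1 => and_congr_left fun _ => ?_
    refine h _ fun h2 => hgd ?_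
    rw [h1, fb_det, h2, zero_mul]

/-! ### Algebraic classes -/

theorem infinite_ratio : {t : ℂ | t ≠ 0 ∧ ∃ z : ℂ, z ≠ 0 ∧ t = starRingEnd ℂ z / z}.Infinite := by
  refine Set.Infinite.mono (s := Set.range fun m : ℕ =>
    starRingEnd ℂ (1 + (m : ℂ) * Complex.I) / (1 + (m : ℂ) * Complex.I)) ?_ ?_
  · rintro _ ⟨m, rfl⟩
    have h1 : (1 + (m : ℂ) * Complex.I) ≠ 0 := by
      intro h
      have := congrArg Complex.re h
      simp at this
    exact ⟨div_ne_zero ((map_ne_zero _).2 h1) h1, _, h1, rfl⟩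
  · refine Set.infinite_range_of_injective fun a b hab => ?_
    have h1 : ∀ m : ℕ, (1 + (m : ℂ) * Complex.I) ≠ 0 := by
      intro m h
      have := congrArg Complex.re h
      simp at this
    simp only [map_add, map_one, map_mul, map_natCast, Complex.conj_I] at hab
    rw [div_eq_div_iff (h1 a) (h1 b)] at hab
    have h2 : (2 * Complex.I) * ((b : ℂ) - a) = 0 := by linear_combination hab
    have h3 : (2 * Complex.I) ≠ 0 := mul_ne_zero two_ne_zero Complex.I_ne_zero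
    have h4 := (mul_eq_zero.1 h2).resolve_left h3
    have h5 : (b : ℂ) = a := sub_eq_zero.1 h4
    exact_mod_cast h5.symm

theorem star_N : fromBlocks 0 0 0 T.x ∈ LS (SH (hM (fun _ => (1 : Matrix κ κ ℂ)) T)) := by
  have h3 : (fromBlocks 0 0 0 T.x : Matrix (κ ⊕ Fin n) (κ ⊕ Fin n) ℂ) * fromBlocks 0 0 0 T.x *
      fromBlocks 0 0 0 T.x = fromBlocks 0 0 0 T.x := by
    rw [Matrix.fromBlocks_multiply, Matrix.fromBlocks_multiply]
    simp [T.cube]
  rw [← dr3 (x := fromBlocks 0 0 0 T.x)]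
  refine dr_mem_LS (Gr3 h3) fun f hf => infinite_ratio.mono ?_
  rintro t ⟨ht, z, hz, rfl⟩
  refine ⟨ht, ?_⟩
  rw [pw_fb, ← hT_eq]
  exact MT_St (MT_h (h := hM (fun _ => (1 : Matrix κ κ ℂ)) T) hz) f hf

theorem MTC_N (hv : (Set.range v).Finite) : MTC (fun _ => (1 : Matrix κ κ ℂ)) v := by
  intro g _
  have h1 : InMT (fun _ => (1 : Matrix κ κ ℂ)) g ↔ g = 1 := by
    have hone : MTgroup (fun _ => (1 : Matrix κ κ ℂ)) ⊆ {1} := by
      intro m hm
      refine hm {1} ⟨⟨{f | ∃ a b, f = X (a, b) - C ((1 : Matrix κ κ ℚ) a b)}, fun g => ?_⟩, rfl, ?_,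
        ?_⟩ fun z _ => rfl
      · constructor
        · rintro rfl
          refine ⟨by simp, ?_⟩
          rintro _ ⟨a, b, rfl⟩
          unfold vQ
          rw [map_sub, aeval_X, aeval_C, Matrix.one_apply, Matrix.one_apply]
          split_ifs <;> simp
        · rintro ⟨-, h⟩
          ext a b
          have h2 := h _ ⟨a, b, rfl⟩
          unfold vQ at h2
          rw [map_sub, aeval_X, aeval_C, sub_eq_zero] at h2
          rw [h2, Matrix.one_apply, Matrix.one_apply]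
          split_ifs <;> simp
      · rintro a rfl b rfl
        simp
      · rintro a rfl
        simp
    constructor
    · intro h
      ext a b
      have h2 := h (X (a, b) - C ((1 : Matrix κ κ ℚ) a b)) fun m hm => by
        have h3 := hone hm
        rw [Set.mem_singleton_iff] at h3
        rw [h3]
        unfold vQ
        rw [map_sub, aeval_X, aeval_C, Matrix.one_apply, Matrix.one_apply]
        split_ifs <;> simp
      unfold vQ at h2
      rw [map_sub, aeval_X, aeval_C, sub_eq_zero] at h2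
      rw [h2, Matrix.one_apply, Matrix.one_apply]
      split_ifs <;> simp
    · rintro rfl
      obtain ⟨e⟩ := exists_emb ℓ
      exact InMT_one e _
  rw [h1]
  constructor
  · intro h
    ext a b
    have hfin : v.toHomUnits.ker.FiniteIndex := by
      have h2 : Finite v.toHomUnits.range := by
        have h3 : Set.MapsTo (fun u : (Matrix κ κ ℚ_[ℓ])ˣ => (u : Matrix κ κ ℚ_[ℓ]))
            (v.toHomUnits.range : Set (Matrix κ κ ℚ_[ℓ])ˣ) (Set.range v) := by
          rintro _ ⟨s, rfl⟩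
          exact ⟨s, (MonoidHom.coe_toHomUnits v s).symm⟩
        exact hv.of_injOn h3 (fun x _ y _ hxy => Units.ext hxy)
      infer_instance
    have h2 := h (X (a, b) - C ((1 : Matrix κ κ (AlgebraicClosure ℚ_[ℓ])) a b))
      ⟨v.toHomUnits.ker, hfin, fun s hs => by
        rw [MonoidHom.mem_ker, Units.ext_iff, MonoidHom.coe_toHomUnits] at hs
        rw [hs, map_sub, aeval_X, aeval_C, Units.val_one, Matrix.one_apply, Matrix.one_apply]
        split_ifs <;> simp⟩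
    rw [map_sub, aeval_X, aeval_C, sub_eq_zero] at h2
    exact h2
  · rintro rfl
    rw [InG0_iff]
    exact InZS_one

/-- the case of classes of surfaces -/
theorem main_N (hB : T.Big c p q) (hv : (Set.range v).Finite) (hg : GalT c T.Q β)
    (hnode : ∀ i, Node c T β v i) :
    MTC (hM (fun _ => (1 : Matrix κ κ ℂ)) T) (tot v β) ↔ ∀ i, SI c β i := by
  rw [main hB (fun _ _ => by rw [Matrix.det_one]; exact one_ne_zero) star_N hg hnode]
  exact ⟨fun h => h.2, fun h => ⟨MTC_N hv, h⟩⟩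

end

end Pool.Agent.Y95.MT
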