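import Mathlib
import Pool.Agent.Y95.MT.Main
import Pool.Agent.W544.PG.Key

/-!
# Sums with a Hodge structure whose Mumford-Tate Lie algebra has level two
-/

set_option autoImplicit false
set_option linter.unusedSectionVars false

namespace Pool.Agent.Y95.MT

open MvPolynomial Matrix Pool.Agent.W544.PG

noncomputable section

variable {κ : Type} [Fintype κ] [DecidableEq κ] {n r : ℕ} {c : Fin n → Fin r} {T : HS n}
  {p q : Fin r → ℕ} {hV : ℂ → Matrix κ κ ℂ}

/-- block-diagonal matrices -/
def dg (y : Matrix κ κ ℂ) (Z : Matrix (Fin n) (Fin n) ℂ) : Matrix (κ ⊕ Fin n) (κ ⊕ Fin n) ℂ :=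
  fromBlocks y 0 0 Z

theorem dg_mul (y y' : Matrix κ κ ℂ) (Z Z' : Matrix (Fin n) (Fin n) ℂ) :
    dg y Z * dg y' Z' = dg (y * y') (Z * Z') := Pool.Agent.Y95.MT.fb_mul _ _ _ _

theorem dg_add (y y' : Matrix κ κ ℂ) (Z Z' : Matrix (Fin n) (Fin n) ℂ) :
    dg y Z + dg y' Z' = dg (y + y') (Z + Z') := by
  unfold dg
  rw [Matrix.fromBlocks_add]
  simp

theorem dg_sub (y y' : Matrix κ κ ℂ) (Z Z' : Matrix (Fin n) (Fin n) ℂ) :
    dg y Z - dg y' Z' = dg (y - y') (Z - Z') := by
  ext i j
  rcases i with i | i <;> rcases j with j | j <;> simp [dg]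

theorem dg_smul (z : ℂ) (y : Matrix κ κ ℂ) (Z : Matrix (Fin n) (Fin n) ℂ) :
    z • dg y Z = dg (z • y) (z • Z) := by
  unfold dg
  rw [Matrix.fromBlocks_smul]
  simp

theorem dg_zero : dg (0 : Matrix κ κ ℂ) (0 : Matrix (Fin n) (Fin n) ℂ) = 0 :=
  Matrix.fromBlocks_zero

theorem dg_br {L : Submodule ℂ (MvPolynomial ((κ ⊕ Fin n) × (κ ⊕ Fin n)) ℂ)}
    {y y' : Matrix κ κ ℂ} {Z Z' : Matrix (Fin n) (Fin n) ℂ}
    (h : dg y Z ∈ LS L) (h' : dg y' Z' ∈ LS L) :
    dg (y * y' - y' * y) (Z * Z' - Z' * Z) ∈ LS L := by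
  have h1 := LS_br h h'
  rwa [dg_mul, dg_mul, dg_sub] at h1

/-- the projection of the Lie algebra to `so(T)` is surjective -/
theorem proj_full (hB : T.Big c p q) (hVd : ∀ z, z ≠ 0 → (hV z).det ≠ 0) {X : Matrix κ κ ℂ}
    (hX : dg X T.x ∈ LS (SH (hM hV T))) (Z : Matrix (Fin n) (Fin n) ℂ)
    (hZ : Zᵀ * mC T.Q + mC T.Q * Z = 0) (hZc : BD c Z) :
    ∃ y, dg y Z ∈ LS (SH (hM hV T)) := by
  let hh : Submodule ℂ (Matrix (Fin n) (Fin n) ℂ) :=
    { carrier := {Z | Zᵀ * mC T.Q + mC T.Q * Z = 0 ∧ BD c Z ∧ ∃ y, dg y Z ∈ LS (SH (hM hV T))}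
      zero_mem' := by
        refine ⟨by simp, fun _ _ _ => rfl, 0, ?_⟩
        rw [dg_zero]
        exact Submodule.zero_mem _
      add_mem' := by
        rintro a b ⟨h1, h2, y, h3⟩ ⟨h4, h5, y', h6⟩
        refine ⟨?_, fun x y hxy => ?_, y + y', ?_⟩
        · rw [Matrix.transpose_add, add_mul, mul_add,
            show aᵀ * mC T.Q + bᵀ * mC T.Q + (mC T.Q * a + mC T.Q * b) =
              (aᵀ * mC T.Q + mC T.Q * a) + (bᵀ * mC T.Q + mC T.Q * b) by abel, h1, h4, add_zero]
        · rw [Matrix.add_apply, h2 x y hxy, h5 x y hxy, add_zero]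
        · rw [← dg_add]
          exact Submodule.add_mem _ h3 h6
      smul_mem' := by
        rintro z a ⟨h1, h2, y, h3⟩
        refine ⟨?_, fun x y hxy => ?_, z • y, ?_⟩
        · rw [Matrix.transpose_smul, Matrix.smul_mul, Matrix.mul_smul, ← smul_add, h1, smul_zero]
        · rw [Matrix.smul_apply, h2 x y hxy, smul_zero]
        · rw [← dg_smul]
          exact Submodule.smul_mem _ z h3 }
  have key : Z ∈ hh := by
    refine mainG (T := T) (c := c) (p := p) (q := q) W571.PG.sub W589.PG.Sim.sim W756.PG.gou thtF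
      W696.PG.de2 ?_ ?_ ?_ ?_ ?_ hB Z hZ hZc
    · exact fun y hy => hy.2.1
    · exact fun y hy => hy.1
    · rintro y ⟨h1, h2, v, h3⟩ z ⟨h4, h5, v', h6⟩
      refine ⟨?_, ?_, v * v' - v' * v, dg_br h3 h6⟩
      · have e1 : yᵀ * mC T.Q = -(mC T.Q * y) := eq_neg_of_add_eq_zero_left h1
        have e2 : zᵀ * mC T.Q = -(mC T.Q * z) := eq_neg_of_add_eq_zero_left h4
        rw [Matrix.transpose_sub, Matrix.transpose_mul, Matrix.transpose_mul, sub_mul, mul_sub,
          Matrix.mul_assoc zᵀ, e1, Matrix.mul_neg, ← Matrix.mul_assoc, e2, Matrix.mul_assoc yᵀ, e2,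
          Matrix.mul_neg, ← Matrix.mul_assoc yᵀ, e1]
        simp only [Matrix.neg_mul, Matrix.mul_assoc]
        abel
      · intro a b hab
        rw [Matrix.sub_apply, W918.PG.bd_mul h2 h5 a b hab, W918.PG.bd_mul h5 h2 a b hab, sub_zero]
    · rintro y ⟨h1, h2, v, h3⟩
      have hC : BD c T.C := BD_C hB
      have e0 : (mC T.Q).map (starRingEnd ℂ) = mC T.Q := by
        ext a b
        simp [mC]
      have h1' : (y.map (starRingEnd ℂ))ᵀ * mC T.Q + mC T.Q * y.map (starRingEnd ℂ) = 0 := by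
        have h7 := congrArg (fun M => M.map (starRingEnd ℂ)) h1
        simp only [Matrix.map_add _ (map_add (starRingEnd ℂ)), Matrix.map_mul, e0,
          ← Matrix.transpose_map] at h7
        rw [← Matrix.transpose_map]
        simpa using h7
      have hCt : T.Cᵀ * mC T.Q = mC T.Q * T.C := by
        have h8 := pw3_T T (-1)
        have h9 : pw F3 (E3 T.x) (-1) = -T.C := by
          rw [← hT_I, hT_eq]
          congr 1
          rw [Complex.conj_I, neg_div, div_self Complex.I_ne_zero]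
        have h10 : (-1 : ℂ)⁻¹ = -1 := by norm_num
        rw [h10, h9, Matrix.transpose_neg, Matrix.neg_mul, Matrix.mul_neg, neg_inj] at h8
        exact h8
      refine ⟨?_, ?_, -(hV Complex.I * v.map (starRingEnd ℂ) * (hV Complex.I)⁻¹), ?_⟩
      · have e1 : (y.map (starRingEnd ℂ))ᵀ * mC T.Q = -(mC T.Q * y.map (starRingEnd ℂ)) :=
          eq_neg_of_add_eq_zero_left h1'
        generalize y.map (starRingEnd ℂ) = w at e1
        have e2 : (-(T.C * w * T.C))ᵀ * mC T.Q = mC T.Q * (T.C * w * T.C) := by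
          rw [Matrix.transpose_neg, Matrix.transpose_mul, Matrix.transpose_mul, Matrix.neg_mul]
          calc -(T.Cᵀ * (wᵀ * T.Cᵀ) * mC T.Q) = -(T.Cᵀ * (wᵀ * (T.Cᵀ * mC T.Q))) := by
                simp only [Matrix.mul_assoc]
            _ = -(T.Cᵀ * ((wᵀ * mC T.Q) * T.C)) := by rw [hCt, Matrix.mul_assoc]
            _ = (T.Cᵀ * mC T.Q) * (w * T.C) := by
                rw [e1]
                simp only [Matrix.mul_neg, Matrix.neg_mul, neg_neg, Matrix.mul_assoc]
            _ = mC T.Q * (T.C * w * T.C) := by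
                rw [hCt]
                simp only [Matrix.mul_assoc]
        rw [e2, Matrix.mul_neg, add_neg_cancel]
      · intro a b hab
        have hyb : BD c (y.map (starRingEnd ℂ)) := fun a b hab => by
          rw [Matrix.map_apply, h2 a b hab, map_zero]
        rw [Matrix.neg_apply, W918.PG.bd_mul (W918.PG.bd_mul hC hyb) hC a b hab, neg_zero]
      · have h7 := LS_map h3 starRingAut
        have hI : hM hV T Complex.I ∈ MTgroup (hM hV T) := MT_h Complex.I_ne_zero
        have h8 := MT_conj hI (hM_det hVd hB.bQ hB.bx _ Complex.I_ne_zero) h7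
        have hCinv : (-T.C)⁻¹ = -T.C := by
          apply Matrix.inv_eq_right_inv
          rw [neg_mul_neg, Pool.Agent.Y95.MT.C_sq]
        have hCd : (-T.C).det ≠ 0 := by
          intro h0
          have h9 := congrArg Matrix.det (Pool.Agent.Y95.MT.C_sq T)
          rw [← neg_mul_neg, Matrix.det_mul, h0, zero_mul, Matrix.det_one] at h9
          exact zero_ne_one h9
        have h9 : (dg v y).map ((starRingAut : ℂ ≃+* ℂ) : ℂ →+* ℂ) =
            dg (v.map (starRingEnd ℂ)) (y.map (starRingEnd ℂ)) := by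
          ext x y
          rcases x with x | x <;> rcases y with y | y <;> simp [dg]
        have h10 : hM hV T Complex.I = dg (hV Complex.I) (-T.C) := by
          unfold hM dg
          rw [hT_I]
        have h11 : (dg (hV Complex.I) (-T.C))⁻¹ = dg (hV Complex.I)⁻¹ (-T.C) := by
          unfold dg
          rw [fb_inv (hVd _ Complex.I_ne_zero) hCd, hCinv]
        rw [h9, h10, h11, dg_mul, dg_mul] at h8
        have h12 := Submodule.neg_mem _ h8
        have h13 : dg (-(hV Complex.I * v.map (starRingEnd ℂ) * (hV Complex.I)⁻¹))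
            (-(T.C * y.map (starRingEnd ℂ) * T.C)) = -dg (hV Complex.I * v.map (starRingEnd ℂ) *
            (hV Complex.I)⁻¹) (-T.C * y.map (starRingEnd ℂ) * -T.C) := by
          unfold dg
          rw [Matrix.fromBlocks_neg]
          simp
        rw [h13]
        exact h12
    · intro σ
      have e0 : (mC T.Q).map σ = mC T.Q := by
        ext a b
        simp [mC]
      refine ⟨?_, fun a b hab => ?_, X.map σ, ?_⟩
      · have h7 := congrArg (fun M => M.map (σ : ℂ →+* ℂ)) T.skew
        simp only [Matrix.map_add _ (map_add (σ : ℂ →+* ℂ)), Matrix.map_mul,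
          ← Matrix.transpose_map] at h7
        rw [show (mC T.Q).map (σ : ℂ →+* ℂ) = mC T.Q from e0] at h7
        rw [← Matrix.transpose_map]
        simpa using h7
      · rw [Matrix.map_apply, hB.bx a b hab, map_zero]
      · have h7 := LS_map hX σ
        have h9 : (dg X T.x).map (σ : ℂ →+* ℂ) = dg (X.map σ) (T.x.map σ) := by
          ext x y
          rcases x with x | x <;> rcases y with y | y <;> simp [dg]
        rwa [h9] at h7
  exact key.2.2

/-- separation of `so(T)` from the Lie algebra of `V` -/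
theorem star_V (hB : T.Big c p q) (hp2 : ∀ i, 2 ≤ p i) (hVd : ∀ z, z ≠ 0 → (hV z).det ≠ 0)
    {X : Matrix κ κ ℂ} (hX : dg X T.x ∈ LS (SH (hM hV T)))
    (hShim : ∀ y Z, dg y Z ∈ LS (SH (hM hV T)) →
      X * (X * (X * y - y * X) - (X * y - y * X) * X) -
        (X * (X * y - y * X) - (X * y - y * X) * X) * X = X * y - y * X) :
    fromBlocks 0 0 0 T.x ∈ LS (SH (hM hV T)) := by
  obtain ⟨L, hL⟩ : ∃ L, L = LS (SH (hM hV T)) := ⟨_, rfl⟩
  have hfull : ∀ Z : Matrix (Fin n) (Fin n) ℂ, Zᵀ * mC T.Q + mC T.Q * Z = 0 → BD c Z →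
      ∃ y, dg y Z ∈ L := fun Z hZ hZc => by
    rw [hL]
    exact proj_full hB hVd hX Z hZ hZc
  have hli : ∀ y Z y' Z', dg y Z ∈ L → dg y' Z' ∈ L →
      dg (y * y' - y' * y) (Z * Z' - Z' * Z) ∈ L := by
    intro y Z y' Z' h h'
    rw [hL] at h h' ⊢
    exact dg_br h h'
  show dg 0 T.x ∈ _
  rw [← hL] at hX ⊢
  replace hShim : ∀ y Z, dg y Z ∈ L →
      X * (X * (X * y - y * X) - (X * y - y * X) * X) -
        (X * (X * y - y * X) - (X * y - y * X) * X) * X = X * y - y * X := fun y Z h =>
    hShim y Z (by rw [← hL]; exact h)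
  choose e T' b using fun i => exists_blk W571.PG.sub hB i
  have hbr : ∀ Z Z' : Matrix (Fin n) (Fin n) ℂ, (∃ y, dg y Z ∈ L) → dg (0 : Matrix κ κ ℂ) Z' ∈ L →
      dg (0 : Matrix κ κ ℂ) (Z * Z' - Z' * Z) ∈ L := by
    rintro Z Z' ⟨V, hV⟩ hZ'
    have h1 := hli _ _ _ _ hV hZ'
    rwa [Matrix.mul_zero, Matrix.zero_mul, sub_zero] at h1
  have hm : ∀ i, 3 ≤ 2 * p i + q i ∧ 2 * p i + q i ≠ 4 := by
    intro i
    rcases hB.num i with h | ⟨h0, h⟩
    · omega
    · have hlt : 2 * p i < q i := by
        by_contra h'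
        rw [Nat.sub_eq_zero_of_le (not_lt.1 h'), zero_mul] at h
        omega
      omega
  have hblock : ∀ (i : Fin r) (y : Matrix (Fin (2 * p i + q i)) (Fin (2 * p i + q i)) ℂ),
      yᵀ * mC (T' i).Q + mC (T' i).Q * y = 0 →
      dg (0 : Matrix κ κ ℂ) (sel (e i) * y * (sel (e i))ᵀ) ∈ L := by
    intro i y hy
    let J : Submodule ℂ (Matrix (Fin (2 * p i + q i)) (Fin (2 * p i + q i)) ℂ) :=
      { carrier := {y | yᵀ * mC (T' i).Q + mC (T' i).Q * y = 0 ∧
          dg (0 : Matrix κ κ ℂ) (sel (e i) * y * (sel (e i))ᵀ) ∈ L}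
        zero_mem' := by
          refine ⟨by simp, ?_⟩
          rw [Matrix.mul_zero, Matrix.zero_mul, dg_zero]
          exact L.zero_mem
        add_mem' := by
          rintro y z ⟨hy1, hy2⟩ ⟨hz1, hz2⟩
          refine ⟨?_, ?_⟩
          · rw [Matrix.transpose_add, Matrix.add_mul, Matrix.mul_add, add_add_add_comm, hy1, hz1,
              add_zero]
          · rw [Matrix.mul_add, Matrix.add_mul]
            have := L.add_mem hy2 hz2
            rwa [dg_add, add_zero] at this
        smul_mem' := by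
          rintro z y ⟨hy1, hy2⟩
          refine ⟨?_, ?_⟩
          · rw [Matrix.transpose_smul, Matrix.smul_mul, Matrix.mul_smul, ← smul_add, hy1,
              smul_zero]
          · rw [Matrix.mul_smul, Matrix.smul_mul]
            have := L.smul_mem z hy2
            rwa [dg_smul, smul_zero] at this }
    have hJmem : ∀ y, y ∈ J ↔ (yᵀ * mC (T' i).Q + mC (T' i).Q * y = 0 ∧
      dg (0 : Matrix κ κ ℂ) (sel (e i) * y * (sel (e i))ᵀ) ∈ L) := fun y => Iff.rfl
    have h1 := simB (T' i) (hm i).1 (hm i).2 J (fun y hy => hy.1) ?_ ?_ y hy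
    · exact h1.2
    · intro Z hZ y hy
      rw [hJmem] at hy ⊢
      refine ⟨?_, ?_⟩
      · have h2 : Zᵀ * mC (T' i).Q = -(mC (T' i).Q * Z) := eq_neg_of_add_eq_zero_left hZ
        have h3 : yᵀ * mC (T' i).Q = -(mC (T' i).Q * y) := eq_neg_of_add_eq_zero_left hy.1
        rw [Matrix.transpose_sub, Matrix.transpose_mul, Matrix.transpose_mul, Matrix.sub_mul,
          Matrix.mul_assoc, Matrix.mul_assoc, h2, h3, Matrix.mul_neg, Matrix.mul_neg,
          ← Matrix.mul_assoc, ← Matrix.mul_assoc, h2, h3, Matrix.mul_sub]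
        simp only [Matrix.neg_mul, neg_neg, Matrix.mul_assoc]
        abel
      · have h2 := hbr _ _ (hfull _ ((b i).sel_skew hB hZ) (sel_BD (b i).en Z)) hy.2
        have h3 : ∀ A B : Matrix (Fin (2 * p i + q i)) (Fin (2 * p i + q i)) ℂ,
            sel (e i) * A * (sel (e i))ᵀ * (sel (e i) * B * (sel (e i))ᵀ) =
            sel (e i) * (A * B) * (sel (e i))ᵀ := by
          intro A B
          calc sel (e i) * A * (sel (e i))ᵀ * (sel (e i) * B * (sel (e i))ᵀ) =
              sel (e i) * A * ((sel (e i))ᵀ * sel (e i)) * B * (sel (e i))ᵀ := by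
                simp only [Matrix.mul_assoc]
            _ = _ := by
                rw [sel_T_sel _ (b i).en.inj, Matrix.mul_one]
                simp only [Matrix.mul_assoc]
        rw [h3, h3, ← Matrix.sub_mul, ← Matrix.mul_sub] at h2
        exact h2
    · obtain ⟨Z0, hZ0, hZs, hZb, hZx⟩ := W637.PG.eg2 n r T c i (p i) hB.bQ hB.bx (hB.tr i) (hp2 i)
      have hZc : BD c Z0 := by
        intro a a' haa'
        by_contra h
        obtain ⟨h1, h2⟩ := hZb a a' h
        exact haa' (by rw [h1, h2])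
      obtain ⟨V, hV⟩ := hfull Z0 hZs hZc
      have h2 := hli _ _ _ _ hX hV
      rw [hZx] at h2
      have h3 := hli _ _ _ _ hX h2
      rw [Matrix.mul_smul, Matrix.smul_mul, ← smul_sub, hZx] at h3
      have h4 := hli _ _ _ _ hX h3
      rw [Matrix.mul_smul, Matrix.smul_mul, ← smul_sub,
        Matrix.mul_smul, Matrix.smul_mul, ← smul_sub, hZx] at h4
      have h5 := L.sub_mem h4 h2
      rw [dg_sub, hShim _ _ hV, sub_self] at h5
      have h7 : (2 : ℂ) • (2 : ℂ) • (2 : ℂ) • Z0 - (2 : ℂ) • Z0 = (6 : ℂ) • Z0 := by module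
      rw [h7] at h5
      have h8 := L.smul_mem (1 / 6 : ℂ) h5
      rw [dg_smul, smul_smul, smul_zero] at h8
      norm_num at h8
      refine ⟨Z0.submatrix (e i) (e i), ?_, ?_⟩
      · rw [hJmem]
        refine ⟨(b i).skew hB hZs, ?_⟩
        have h9 : sel (e i) * Z0.submatrix (e i) (e i) * (sel (e i))ᵀ = Z0 := by
          rw [← (b i).en.mul_sel hZc, Matrix.mul_assoc]
          have h10 : ∀ a a', (Z0 * (sel (e i) * (sel (e i))ᵀ)) a a' = Z0 a a' := by
            intro a a'
            have h11 : Z0 a a' = (Z0 * (∑ i, sel (e i) * (sel (e i))ᵀ)) a a' := by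
              rw [sel_sum (fun i => (b i).en), Matrix.mul_one]
            rw [h11, Matrix.mul_sum, Matrix.sum_apply, Finset.sum_eq_single i]
            · intro j _ hj
              rw [Matrix.mul_apply]
              refine Finset.sum_eq_zero fun l _ => ?_
              by_cases hl : c l = i
              · have h12 : (sel (e j) * (sel (e j))ᵀ) l a' = 0 := by
                  rw [Matrix.mul_apply]
                  refine Finset.sum_eq_zero fun l' _ => ?_
                  rw [sel, Matrix.of_apply, if_neg, zero_mul]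
                  intro h
                  exact hj (by rw [← hl, ← h, (b j).en.col])
                rw [h12, mul_zero]
              · have h12 : Z0 a l = 0 := by
                  by_contra h
                  exact hl (hZb a l h).2
                rw [h12, zero_mul]
            · simp
          ext a a'
          exact h10 a a'
        rw [h9]
        exact h8
      · intro h0
        apply hZ0
        ext a a'
        by_contra h
        obtain ⟨h1, h2⟩ := hZb a a' h
        obtain ⟨j, rfl⟩ := (b i).en.surj a h1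
        obtain ⟨j', rfl⟩ := (b i).en.surj a' h2
        exact h (congrFun (congrFun h0 j) j')
  have hsum : dg (0 : Matrix κ κ ℂ) T.x = ∑ i, dg (0 : Matrix κ κ ℂ)
      (sel (e i) * T.x.submatrix (e i) (e i) * (sel (e i))ᵀ) := by
    conv_lhs => rw [sel_dec (fun i => (b i).en) hB.bx]
    ext x y
    rw [Matrix.sum_apply]
    rcases x with x | x <;> rcases y with y | y <;> simp [dg, Matrix.sum_apply]
  rw [hsum]
  refine Submodule.sum_mem _ fun i _ => ?_
  apply hblock
  exact (b i).skew hB T.skew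

end

end Pool.Agent.Y95.MT
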