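import Mathlib
import Pool.Agent.Y95.MT.LieV

/-!
# Rational Hodge structures and the Lie algebra of the Mumford-Tate group
-/

set_option autoImplicit false
set_option linter.unusedSectionVars false

namespace Pool.Agent.Y95.MT

open MvPolynomial Matrix Pool.Agent.W544.PG

noncomputable section

variable {κ : Type} [Fintype κ] [DecidableEq κ] {n r : ℕ} {c : Fin n → Fin r} {T : HS n}
  {p q : Fin r → ℕ}

/-- A rational Hodge structure on `ℚ^κ`: the projections `e (a, b)` to the pieces of type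
`(a, b)`. -/
structure RHS (κ : Type) [Fintype κ] [DecidableEq κ] where
  /-- the types which occur -/
  types : Finset (ℤ × ℤ)
  /-- the projections -/
  e : ℤ × ℤ → Matrix κ κ ℂ
  mul : ∀ a ∈ types, ∀ b ∈ types, e a * e b = if a = b then e a else 0
  sum : ∑ a ∈ types, e a = 1
  conj : ∀ a ∈ types, a.swap ∈ types ∧ (e a).map (starRingEnd ℂ) = e a.swap
  weight : ∀ w : ℤ, ∃ P : Matrix κ κ ℚ,
    ∑ a ∈ types with a.1 + a.2 = w, e a = P.map (algebraMap ℚ ℂ)

/-- the action of `ℂ^×`: multiplication by `z ^ (-a) * conj z ^ (-b)` on the piece of type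
`(a, b)` -/
def RHS.h (V : RHS κ) (z : ℂ) : Matrix κ κ ℂ :=
  ∑ a ∈ V.types, (z ^ (-a.1) * starRingEnd ℂ z ^ (-a.2)) • V.e a

/-- the operator which is `a - b` on the piece of type `(a, b)` -/
def RHS.X (V : RHS κ) : Matrix κ κ ℂ := ∑ a ∈ V.types, ((a.1 - a.2 : ℤ) : ℂ) • V.e a

/-- the complex Lie algebra of the Mumford-Tate group: the tangent space at `1` -/
def lieMT (h : ℂ → Matrix κ κ ℂ) : Set (Matrix κ κ ℂ) :=
  {y | ∀ f : MvPolynomial (κ × κ) ℚ, (∀ m ∈ MTgroup h, vQ m f = 0) →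
    ∑ x : κ × κ, y x.1 x.2 * vQ (1 : Matrix κ κ ℂ) (pderiv x f) = 0}

variable {V : RHS κ}

theorem RHS.h_mul (V : RHS κ) (z w : ℂ) : V.h z * V.h w = V.h (z * w) := by
  unfold RHS.h
  rw [Finset.sum_mul]
  refine Finset.sum_congr rfl fun a ha => ?_
  rw [Finset.mul_sum, Finset.sum_eq_single a]
  · rw [smul_mul_smul_comm, V.mul a ha a ha, if_pos rfl, map_mul, mul_zpow, mul_zpow]
    congr 1
    ring
  · intro b hb hab
    rw [smul_mul_smul_comm, V.mul a ha b hb, if_neg (Ne.symm hab), smul_zero]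
  · intro h
    exact absurd ha h

theorem RHS.h_one (V : RHS κ) : V.h 1 = 1 := by
  unfold RHS.h
  simp [V.sum]

theorem RHS.h_det (V : RHS κ) (z : ℂ) (hz : z ≠ 0) : (V.h z).det ≠ 0 := by
  intro h
  have h1 := congrArg Matrix.det (V.h_mul z z⁻¹)
  rw [mul_inv_cancel₀ hz, V.h_one, Matrix.det_mul, h, zero_mul, Matrix.det_one] at h1
  exact zero_ne_one h1

/-- the projections of `T` -/
def ET (T : HS n) (k : ℤ) : Matrix (Fin n) (Fin n) ℂ :=
  if k = 2 then E3 T.x 1 else if k = -2 then E3 T.x (-1) else if k = 0 then E3 T.x 0 else 0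

theorem ET_cases (T : HS n) (k : ℤ) : (k = 2 ∧ ET T k = E3 T.x 1) ∨
    (k = -2 ∧ ET T k = E3 T.x (-1)) ∨ (k = 0 ∧ ET T k = E3 T.x 0) ∨
    (k ≠ 2 ∧ k ≠ -2 ∧ k ≠ 0 ∧ ET T k = 0) := by
  unfold ET
  by_cases h1 : k = 2
  · exact Or.inl ⟨h1, if_pos h1⟩
  by_cases h2 : k = -2
  · exact Or.inr (Or.inl ⟨h2, by rw [if_neg h1, if_pos h2]⟩)
  by_cases h3 : k = 0
  · exact Or.inr (Or.inr (Or.inl ⟨h3, by rw [if_neg h1, if_neg h2, if_pos h3]⟩))
  · exact Or.inr (Or.inr (Or.inr ⟨h1, h2, h3, by rw [if_neg h1, if_neg h2, if_neg h3]⟩))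

theorem ET_mul (T : HS n) (k l : ℤ) : ET T k * ET T l = if k = l then ET T k else 0 := by
  have hg := Gr3 T.cube
  have m : ∀ a b : ℤ, a ∈ F3 → b ∈ F3 → E3 T.x a * E3 T.x b = if a = b then E3 T.x a else 0 :=
    fun a b ha hb => hg.mul a ha b hb
  rcases ET_cases T k with ⟨hk, h⟩ | ⟨hk, h⟩ | ⟨hk, h⟩ | ⟨hk1, hk2, hk3, h⟩
  · rcases ET_cases T l with ⟨hl, h'⟩ | ⟨hl, h'⟩ | ⟨hl, h'⟩ | ⟨hl1, hl2, hl3, h'⟩
    · rw [h, h', m 1 1 (by decide) (by decide), if_pos rfl, if_pos (hk.trans hl.symm)]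
    · rw [h, h', m 1 (-1) (by decide) (by decide), if_neg (by decide), if_neg (by omega)]
    · rw [h, h', m 1 0 (by decide) (by decide), if_neg (by decide), if_neg (by omega)]
    · rw [h', mul_zero, if_neg (by omega)]
  · rcases ET_cases T l with ⟨hl, h'⟩ | ⟨hl, h'⟩ | ⟨hl, h'⟩ | ⟨hl1, hl2, hl3, h'⟩
    · rw [h, h', m (-1) 1 (by decide) (by decide), if_neg (by decide), if_neg (by omega)]
    · rw [h, h', m (-1) (-1) (by decide) (by decide), if_pos rfl, if_pos (hk.trans hl.symm)]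
    · rw [h, h', m (-1) 0 (by decide) (by decide), if_neg (by decide), if_neg (by omega)]
    · rw [h', mul_zero, if_neg (by omega)]
  · rcases ET_cases T l with ⟨hl, h'⟩ | ⟨hl, h'⟩ | ⟨hl, h'⟩ | ⟨hl1, hl2, hl3, h'⟩
    · rw [h, h', m 0 1 (by decide) (by decide), if_neg (by decide), if_neg (by omega)]
    · rw [h, h', m 0 (-1) (by decide) (by decide), if_neg (by decide), if_neg (by omega)]
    · rw [h, h', m 0 0 (by decide) (by decide), if_pos rfl, if_pos (hk.trans hl.symm)]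
    · rw [h', mul_zero, if_neg (by omega)]
  · rw [h, zero_mul]
    split_ifs <;> rfl

/-- the projections of the direct sum to the eigenspaces -/
def EM (V : RHS κ) (T : HS n) (k : ℤ) : Matrix (κ ⊕ Fin n) (κ ⊕ Fin n) ℂ :=
  dg (∑ a ∈ V.types with a.1 - a.2 = k, V.e a) (ET T k)

/-- the eigenvalues -/
def FM (V : RHS κ) : Finset ℤ := V.types.image (fun a => a.1 - a.2) ∪ {-2, 0, 2}

theorem sum_FM {M : Type} [AddCommMonoid M] (V : RHS κ) (f : ℤ → ℤ × ℤ → M) :
    ∑ k ∈ FM V, ∑ a ∈ V.types with a.1 - a.2 = k, f k a =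
      ∑ a ∈ V.types, f (a.1 - a.2) a := by
  have h1 : ∀ k, ∑ a ∈ V.types with a.1 - a.2 = k, f k a =
      ∑ a ∈ V.types with a.1 - a.2 = k, f (a.1 - a.2) a := by
    intro k
    refine Finset.sum_congr rfl fun a ha => ?_
    rw [(Finset.mem_filter.1 ha).2]
  simp only [h1]
  refine Finset.sum_fiberwise_of_maps_to (s := V.types) (t := FM V) (g := fun a => a.1 - a.2) ?_
    (fun a => f (a.1 - a.2) a)
  intro a ha
  unfold FM
  exact Finset.mem_union_left _ (Finset.mem_image_of_mem _ ha)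

theorem sum_FM2 {M : Type} [AddCommMonoid M] (V : RHS κ) (f : ℤ → M)
    (hf : ∀ k, k ≠ 2 → k ≠ -2 → k ≠ 0 → f k = 0) :
    ∑ k ∈ FM V, f k = f (-2) + f 0 + f 2 := by
  have h1 : ∑ k ∈ ({-2, 0, 2} : Finset ℤ), f k = ∑ k ∈ FM V, f k := by
    refine Finset.sum_subset Finset.subset_union_right fun k _ hk => ?_
    simp only [Finset.mem_insert, Finset.mem_singleton, not_or] at hk
    exact hf k hk.2.2 hk.1 hk.2.1
  rw [← h1, Finset.sum_insert (by decide), Finset.sum_insert (by decide), Finset.sum_singleton,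
    add_assoc]

theorem dg_sum {τ : Type} (F : Finset τ) (f : τ → Matrix κ κ ℂ)
    (g : τ → Matrix (Fin n) (Fin n) ℂ) :
    ∑ k ∈ F, dg (f k) (g k) = dg (∑ k ∈ F, f k) (∑ k ∈ F, g k) := by
  classical
  induction F using Finset.induction_on with
  | empty => simp [dg_zero]
  | insert a F ha ih => rw [Finset.sum_insert ha, Finset.sum_insert ha, Finset.sum_insert ha, ih,
      dg_add]

theorem eV_mul (V : RHS κ) (k l : ℤ) : (∑ a ∈ V.types with a.1 - a.2 = k, V.e a) *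
    (∑ a ∈ V.types with a.1 - a.2 = l, V.e a) =
    if k = l then ∑ a ∈ V.types with a.1 - a.2 = k, V.e a else 0 := by
  rw [Finset.sum_mul]
  have h2 : ∀ a ∈ V.types.filter (fun a => a.1 - a.2 = k),
      V.e a * (∑ b ∈ V.types with b.1 - b.2 = l, V.e b) = if k = l then V.e a else 0 := by
    intro a ha
    rw [Finset.mem_filter] at ha
    rw [Finset.mul_sum]
    by_cases hkl : k = l
    · subst hkl
      rw [if_pos rfl, Finset.sum_eq_single a]
      · rw [V.mul a ha.1 a ha.1, if_pos rfl]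
      · intro b hb hab
        rw [Finset.mem_filter] at hb
        rw [V.mul a ha.1 b hb.1, if_neg (Ne.symm hab)]
      · intro h
        exact absurd (Finset.mem_filter.2 ha) h
    · rw [if_neg hkl]
      refine Finset.sum_eq_zero fun b hb => ?_
      rw [Finset.mem_filter] at hb
      rw [V.mul a ha.1 b hb.1, if_neg]
      rintro rfl
      exact hkl (ha.2.symm.trans hb.2)
  rw [Finset.sum_congr rfl h2]
  split_ifs with hkl
  · rfl
  · exact Finset.sum_const_zero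

theorem GrM (V : RHS κ) (T : HS n) : Gr (FM V) (EM V T) := by
  have hg := Gr3 T.cube
  constructor
  · intro k _ l _
    unfold EM
    rw [dg_mul, eV_mul, ET_mul]
    split_ifs with hkl
    · rfl
    · exact dg_zero
  · unfold EM
    rw [dg_sum, sum_FM V (fun _ a => V.e a), V.sum, sum_FM2 V (fun k => ET T k)]
    · have h4 := hg.sum
      rw [sumF3] at h4
      have h5 : ET T (-2) + ET T 0 + ET T 2 = 1 := h4
      rw [h5]
      exact Matrix.fromBlocks_one
    · intro k h1 h2 h3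
      unfold ET
      rw [if_neg h1, if_neg h2, if_neg h3]

theorem drM (V : RHS κ) (T : HS n) : dr (FM V) (EM V T) = dg V.X ((2 : ℂ) • T.x) := by
  unfold dr EM
  have h1 : ∀ k : ℤ, (k : ℂ) • dg (∑ a ∈ V.types with a.1 - a.2 = k, V.e a) (ET T k) =
      dg (∑ a ∈ V.types with a.1 - a.2 = k, (k : ℂ) • V.e a) ((k : ℂ) • ET T k) := by
    intro k
    rw [dg_smul, Finset.smul_sum]
  simp only [h1]
  rw [dg_sum, sum_FM V (fun k a => (k : ℂ) • V.e a), sum_FM2 V (fun k => (k : ℂ) • ET T k)]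
  · have h2 := dr3 (K := ℂ) (x := T.x)
    unfold dr at h2
    rw [sumF3] at h2
    have h3 : (((-2 : ℤ) : ℂ) • ET T (-2) + ((0 : ℤ) : ℂ) • ET T 0 + ((2 : ℤ) : ℂ) • ET T 2) =
        (2 : ℂ) • T.x := by
      conv_rhs => rw [← h2]
      have e1 : ET T (-2) = E3 T.x (-1) := rfl
      have e2 : ET T 0 = E3 T.x 0 := rfl
      have e3 : ET T 2 = E3 T.x 1 := rfl
      rw [e1, e2, e3]
      push_cast
      module
    rw [h3]
    rfl
  · intro k h1 h2 h3
    unfold ET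
    rw [if_neg h1, if_neg h2, if_neg h3, smul_zero]

theorem pwM (V : RHS κ) (T : HS n) {z : ℂ} (hz : z * starRingEnd ℂ z = 1) :
    pw (FM V) (EM V T) (starRingEnd ℂ z) = hM V.h T z := by
  have hz0 : z ≠ 0 := left_ne_zero_of_mul_eq_one hz
  have hzc : starRingEnd ℂ z = z⁻¹ := eq_inv_of_mul_eq_one_right hz
  unfold pw EM
  have h1 : ∀ k : ℤ, (starRingEnd ℂ z ^ k) • dg (∑ a ∈ V.types with a.1 - a.2 = k, V.e a) (ET T k) =
      dg (∑ a ∈ V.types with a.1 - a.2 = k, (starRingEnd ℂ z ^ k) • V.e a)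
        ((starRingEnd ℂ z ^ k) • ET T k) := by
    intro k
    rw [dg_smul, Finset.smul_sum]
  simp only [h1]
  rw [dg_sum, sum_FM V (fun k a => (starRingEnd ℂ z ^ k) • V.e a),
    sum_FM2 V (fun k => (starRingEnd ℂ z ^ k) • ET T k)]
  · unfold hM dg RHS.h
    congr 1
    · refine Finset.sum_congr rfl fun a _ => ?_
      congr 1
      rw [hzc, _root_.inv_zpow', _root_.inv_zpow', ← zpow_add₀ hz0]
      congr 1
      ring
    · rw [hT_eq, pw3]
      have e1 : ET T (-2) = (2 : ℂ)⁻¹ • (T.x * T.x - T.x) := E3_neg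
      have e2 : ET T 0 = 1 - T.x * T.x := E3_zero
      have e3 : ET T 2 = (2 : ℂ)⁻¹ • (T.x * T.x + T.x) := E3_one
      rw [e1, e2, e3, hzc]
      have f1 : (z⁻¹) ^ (-2 : ℤ) = z ^ 2 := by
        rw [_root_.inv_zpow', neg_neg]
        exact_mod_cast rfl
      have f2 : (z⁻¹) ^ (2 : ℤ) = (z ^ 2)⁻¹ := by
        rw [_root_.inv_zpow', _root_.zpow_neg]
        exact_mod_cast rfl
      have f3 : z⁻¹ / z = (z ^ 2)⁻¹ := by
        field_simp
      rw [f1, f2, f3, inv_inv, zpow_zero]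
      module
  · intro k h1 h2 h3
    unfold ET
    rw [if_neg h1, if_neg h2, if_neg h3, smul_zero]

theorem X_mem (V : RHS κ) (T : HS n) : dg ((2 : ℂ)⁻¹ • V.X) T.x ∈ LS (SH (hM V.h T)) := by
  have h1 : dr (FM V) (EM V T) ∈ LS (SH (hM V.h T)) := by
    refine dr_mem_LS (GrM V T) fun f hf => infinite_ratio.mono ?_
    rintro t ⟨ht, w, hw, rfl⟩
    refine ⟨ht, ?_⟩
    have hw' : starRingEnd ℂ w ≠ 0 := (map_ne_zero _).2 hw
    have h2 : starRingEnd ℂ w / w = starRingEnd ℂ (w / starRingEnd ℂ w) := by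
      rw [map_div₀, Complex.conj_conj]
    have h3 : (w / starRingEnd ℂ w) * starRingEnd ℂ (w / starRingEnd ℂ w) = 1 := by
      rw [← h2]
      field_simp
    rw [h2, pwM V T h3]
    refine MT_St (MT_h ?_) f hf
    exact div_ne_zero hw hw'
  rw [drM] at h1
  have h2 := Submodule.smul_mem _ (2 : ℂ)⁻¹ h1
  rw [dg_smul, smul_smul, inv_mul_cancel₀ two_ne_zero, one_smul] at h2
  exact h2

/-! ### The tangent space -/

theorem ev_D (Y : Matrix (κ ⊕ Fin n) (κ ⊕ Fin n) ℂ) (f : MvPolynomial (κ × κ) ℚ) :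
    Pool.Agent.W528.ZC.ev 1 (Pool.Agent.W528.ZC.D Y (toK ℂ (up (n := n) f))) =
      ∑ x : κ × κ, Y.toBlocks₁₁ x.1 x.2 * vQ (1 : Matrix κ κ ℂ) (pderiv x f) := by
  have hup : ∀ g : MvPolynomial (κ × κ) ℚ, Pool.Agent.W528.ZC.ev 1 (toK ℂ (up (n := n) g)) =
      vQ (1 : Matrix κ κ ℂ) g := by
    intro g
    rw [ev_toK, vQ_up]
    congr 1
    ext i j
    simp [Matrix.toBlocks₁₁, Matrix.one_apply]
  induction f using MvPolynomial.induction_on with
  | C a =>
    have h1 : toK ℂ (up (n := n) (C a : MvPolynomial (κ × κ) ℚ)) = C (a : ℂ) := by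
      unfold toK up
      rw [aeval_C, MvPolynomial.algebraMap_eq, MvPolynomial.map_C]
      simp
    rw [h1, D_C', map_zero]
    symm
    refine Finset.sum_eq_zero fun x _ => ?_
    rw [pderiv_C]
    unfold vQ
    rw [map_zero, mul_zero]
  | add f g hf hg =>
    have h1 : toK ℂ (up (n := n) (f + g)) = toK ℂ (up (n := n) f) + toK ℂ (up (n := n) g) := by
      unfold toK up
      rw [map_add, map_add]
    rw [h1, map_add, map_add, hf, hg, ← Finset.sum_add_distrib]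
    refine Finset.sum_congr rfl fun x _ => ?_
    unfold vQ
    rw [map_add, map_add, mul_add]
  | mul_X f q hf =>
    have h1 : toK ℂ (up (n := n) (f * X q)) = toK ℂ (up (n := n) f) *
        X (Sum.inl q.1, Sum.inl q.2) := by
      unfold toK up
      rw [map_mul, map_mul, aeval_X, MvPolynomial.map_X]
    rw [h1, Derivation.leibniz, map_add, smul_eq_mul, smul_eq_mul, map_mul, map_mul, hf, D_X',
      Pool.Agent.W528.ZC.ev_X, hup]
    have h2 : Pool.Agent.W528.ZC.ev 1 (lin Y (Sum.inl q.1, Sum.inl q.2)) =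
        Y.toBlocks₁₁ q.1 q.2 := by
      unfold lin
      rw [map_sum, Finset.sum_eq_single (Sum.inl q.1)]
      · rw [map_mul, Pool.Agent.W528.ZC.ev_X, Pool.Agent.W528.ZC.ev_C, Matrix.one_apply_eq, mul_one]
        rfl
      · intro b _ hb
        rw [map_mul, Pool.Agent.W528.ZC.ev_X, Matrix.one_apply_ne (Ne.symm hb), mul_zero]
      · intro h
        exact absurd (Finset.mem_univ _) h
    rw [h2]
    have h3 : ∀ x : κ × κ, Y.toBlocks₁₁ x.1 x.2 * vQ (1 : Matrix κ κ ℂ) (pderiv x (f * X q)) =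
        Y.toBlocks₁₁ x.1 x.2 * vQ (1 : Matrix κ κ ℂ) (pderiv x f) *
          (1 : Matrix κ κ ℂ) q.1 q.2 +
        (if x = q then Y.toBlocks₁₁ q.1 q.2 * vQ (1 : Matrix κ κ ℂ) f else 0) := by
      intro x
      unfold vQ
      rw [Derivation.leibniz, smul_eq_mul, smul_eq_mul, map_add, map_mul, map_mul, aeval_X,
        pderiv_X]
      split_ifs with hx
      · subst hx
        rw [Pi.single_eq_same, map_one]
        ring
      · rw [Pi.single_eq_of_ne (Ne.symm hx), map_zero]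
        ring
    rw [Finset.sum_congr rfl fun x _ => h3 x, Finset.sum_add_distrib, Finset.sum_ite_eq',
      if_pos (Finset.mem_univ _), ← Finset.sum_mul]
    have h4 : (1 : Matrix (κ ⊕ Fin n) (κ ⊕ Fin n) ℂ) (Sum.inl q.1) (Sum.inl q.2) =
        (1 : Matrix κ κ ℂ) q.1 q.2 := by
      simp [Matrix.one_apply]
    rw [h4]
    ring

theorem lie_of_LS {hV : ℂ → Matrix κ κ ℂ} (hVd : ∀ z, z ≠ 0 → (hV z).det ≠ 0) (hbQ : BD c T.Q)
    (hbx : BD c T.x) {y : Matrix κ κ ℂ} {Z : Matrix (Fin n) (Fin n) ℂ}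
    (h : dg y Z ∈ LS (SH (hM hV T))) : y ∈ lieMT hV := by
  intro f hf
  have h1 : toK ℂ (up (n := n) f) ∈ SH (hM hV T) := by
    intro g hg
    obtain ⟨v, t, rfl, hv, ht⟩ := MT_le (c := c) hVd hbQ hbx hg
    rw [ev_toK, vQ_up, Matrix.toBlocks_fromBlocks₁₁]
    exact hf v hv
  have h2 := h _ h1 1 MT_one
  rw [ev_D] at h2
  have h3 : (dg y Z).toBlocks₁₁ = y := Matrix.toBlocks_fromBlocks₁₁ _ _ _ _
  rw [h3] at h2
  exact h2

/-- **The Mumford-Tate conjecture for sums with a Hodge structure of abelian type.** -/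
theorem main_V {ℓ : ℕ} [Fact ℓ.Prime] {Γ : Type} [Group Γ]
    {β : Γ →* Matrix (Fin n) (Fin n) ℤ_[ℓ]} {v : Γ →* Matrix κ κ ℚ_[ℓ]}
    (hB : T.Big c p q) (hp2 : ∀ i, 2 ≤ p i) (V : RHS κ)
    (hShim : ∀ y ∈ lieMT V.h,
      V.X * (V.X * (V.X * y - y * V.X) - (V.X * y - y * V.X) * V.X) -
        (V.X * (V.X * y - y * V.X) - (V.X * y - y * V.X) * V.X) * V.X =
        (4 : ℂ) • (V.X * y - y * V.X))
    (hg : GalT c T.Q β) (hnode : ∀ i, Node c T β v i) :
    MTC (hM V.h T) (tot v β) ↔ MTC V.h v ∧ ∀ i, SI c β i := by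
  refine main hB V.h_det ?_ hg hnode
  refine star_V hB hp2 V.h_det (X_mem V T) fun y Z hy => ?_
  have h1 := hShim y (lie_of_LS V.h_det hB.bQ hB.bx hy)
  have h2 : ∀ w : Matrix κ κ ℂ, (2 : ℂ)⁻¹ • V.X * w - w * (2 : ℂ)⁻¹ • V.X =
      (2 : ℂ)⁻¹ • (V.X * w - w * V.X) := by
    intro w
    rw [Matrix.smul_mul, Matrix.mul_smul, smul_sub]
  have h3 : ∀ w : Matrix κ κ ℂ, V.X * ((2 : ℂ)⁻¹ • w) - ((2 : ℂ)⁻¹ • w) * V.X =
      (2 : ℂ)⁻¹ • (V.X * w - w * V.X) := by
    intro w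
    rw [Matrix.smul_mul, Matrix.mul_smul, smul_sub]
  rw [h2, h2, h3, h2, h3, h3, h1]
  rw [smul_smul, smul_smul, smul_smul]
  congr 1
  norm_num

end

end Pool.Agent.Y95.MT
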